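import Pool.Agent.TH407.GS.CaSet
set_option autoImplicit false
open MeasureTheory Set Filter Topology
open scoped ENNReal NNReal
open Pool.Agent.TH280.MZ
namespace Pool.Agent.TH407.GS

theorem ap_meas {G : ℝ → ℝ → ℝ≥0∞} (hG : Measurable (Function.uncurry G)) (a : ℝ) :
    Measurable (SQ a G) := by
  unfold SQ
  have h1 : Measurable (fun q : (ℝ × ℝ) × ℝ =>
      (if |q.1.1 - q.1.2| < a * q.2 then G q.1.2 q.2 else 0 : ℝ≥0∞)) := by
    refine Measurable.ite ?_ ?_ measurable_const
    · exact measurableSet_lt (by fun_prop) (by fun_prop)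
    · exact hG.comp (by fun_prop : Measurable fun q : (ℝ × ℝ) × ℝ => (q.1.2, q.2))
  have h2 : Measurable (fun q : ℝ × ℝ =>
      ∫⁻ y in Ioi (0 : ℝ), (if |q.1 - q.2| < a * y then G q.2 y else 0 : ℝ≥0∞)) :=
    Measurable.lintegral_prod_right' h1
  exact Measurable.lintegral_prod_right' h2

theorem ap_tail {r : ℝ} (hr0 : 0 < r) (hr1 : r < 1) (b : ℝ≥0∞) :
    b * ∫⁻ s in Ioi (0 : ℝ), ENNReal.ofReal (r * s ^ (r - 2)) *
      (if b ≤ ENNReal.ofReal s then 1 else 0) ≤ ENNReal.ofReal (r / (1 - r)) * b ^ r := by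
  have hr2 : 0 < 1 - r := by linarith
  rcases eq_or_ne b 0 with h0 | h0
  · simp [h0]
  rcases eq_or_ne b ⊤ with h1 | h1
  · subst h1
    simp
  · obtain ⟨c, hc, rfl⟩ : ∃ c : ℝ, 0 < c ∧ b = ENNReal.ofReal c :=
      ⟨b.toReal, ENNReal.toReal_pos h0 h1, (ENNReal.ofReal_toReal h1).symm⟩
    have e1 : ∫⁻ s in Ioi (0 : ℝ), ENNReal.ofReal (r * s ^ (r - 2)) *
        (if ENNReal.ofReal c ≤ ENNReal.ofReal s then 1 else 0) =
        ∫⁻ s in Ici c, ENNReal.ofReal (r * s ^ (r - 2)) := by
      rw [← lintegral_indicator measurableSet_Ioi, ← lintegral_indicator measurableSet_Ici]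
      apply lintegral_congr
      intro s
      by_cases hs : 0 < s
      · by_cases hcs : c ≤ s
        · have : ENNReal.ofReal c ≤ ENNReal.ofReal s := ENNReal.ofReal_le_ofReal hcs
          simp [indicator, hs, hcs, this]
        · have : ¬ ENNReal.ofReal c ≤ ENNReal.ofReal s := by
            rw [ENNReal.ofReal_le_ofReal_iff hs.le]; exact hcs
          simp [indicator, hs, hcs, this]
      · have hcs : ¬ c ≤ s := by
          intro h; exact hs (hc.trans_le h)
        simp [indicator, hs, hcs]
    have hint : IntegrableOn (fun s : ℝ => r * s ^ (r - 2)) (Ioi c) :=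
      (integrableOn_Ioi_rpow_of_lt (by linarith) hc).const_mul r
    have e2 : ∫⁻ s in Ici c, ENNReal.ofReal (r * s ^ (r - 2)) =
        ENNReal.ofReal (r / (1 - r) * c ^ (r - 1)) := by
      rw [setLIntegral_congr Ioi_ae_eq_Ici.symm,
        ← ofReal_integral_eq_lintegral_ofReal hint]
      · rw [integral_const_mul, integral_Ioi_rpow_of_lt (by linarith) hc]
        congr 1
        have : r - 2 + 1 = -(1 - r) := by ring
        rw [this]
        have h3 : r - 1 = -(1 - r) := by ring
        rw [h3]
        field_simp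
      · refine (ae_restrict_iff' measurableSet_Ioi).2 (Eventually.of_forall ?_)
        intro s hs
        have : 0 < s := hc.trans hs
        show (0 : ℝ) ≤ r * s ^ (r - 2)
        positivity
    rw [e1, e2, ENNReal.ofReal_rpow_of_pos hc, ← ENNReal.ofReal_mul hc.le,
      ← ENNReal.ofReal_mul (by positivity)]
    apply ENNReal.ofReal_le_ofReal
    rw [Real.rpow_sub_one hc.ne']
    apply le_of_eq
    field_simp

theorem apert {p q D : ℝ} (hp0 : 0 < p) (hp2 : p < 2) (hq : 0 ≤ q) (hD : 1 ≤ D) :
    ∃ C : ℝ≥0∞, C ≠ ⊤ ∧ ∀ (μ : Measure ℝ) [SigmaFinite μ],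
    (∀ a b : ℝ, a < b → μ (Ioo a b) ≠ 0) → (∀ a b : ℝ, a < b → μ (Ioo a b) ≠ ⊤) →
    (∀ c L t : ℝ, 0 < L → 1 ≤ t → μ (Ioo (c - t * L) (c + t * L)) ≤
      ENNReal.ofReal (D * t ^ q) * μ (Ioo (c - L) (c + L))) →
    ∀ G : ℝ → ℝ → ℝ≥0∞, Measurable (Function.uncurry G) → ∀ a : ℝ, 1 ≤ a →
      ∫⁻ x, SQ a G x ^ (p / 2) ∂μ ≤
        C * ENNReal.ofReal (a ^ q) * ∫⁻ x, SQ 1 G x ^ (p / 2) ∂μ := by
  set r : ℝ := p / 2 with hr
  have hr0 : 0 < r := by positivity
  have hr1 : r < 1 := by rw [hr]; linarith
  have hr2 : 0 < 1 - r := by linarith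
  refine ⟨ENNReal.ofReal (4 * D) + ENNReal.ofReal (2 * D) * ENNReal.ofReal (r / (1 - r)), ?_, ?_⟩
  · exact ENNReal.add_ne_top.2 ⟨ENNReal.ofReal_ne_top,
      ENNReal.mul_ne_top ENNReal.ofReal_ne_top ENNReal.ofReal_ne_top⟩
  intro μ _ h0 ht hd G hG a ha
  have hF := ap_meas hG 1
  have hFa := ap_meas hG a
  set F : ℝ → ℝ≥0∞ := SQ 1 G with hFd
  have hA : (0 : ℝ) ≤ a ^ q := by positivity
  -- the distribution function
  have key : ∀ s : ℝ, 0 < s → μ {x | ENNReal.ofReal s < SQ a G x} ≤
      ENNReal.ofReal (4 * D * a ^ q) * μ {x | ENNReal.ofReal s < F x} +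
      ENNReal.ofReal (2 * D * a ^ q) * ((ENNReal.ofReal s)⁻¹ *
        ∫⁻ x, (if F x ≤ ENNReal.ofReal s then F x else 0) ∂μ) := by
    intro s hs
    have hE : MeasurableSet {x | ENNReal.ofReal s < F x} := measurableSet_lt measurable_const hF
    obtain ⟨E', hE', h1, h2⟩ := ca_set hq hD μ h0 ht hd hG ha hE
    have h3 : μ {x | ENNReal.ofReal s < SQ a G x} ≤
        μ E' + μ ({x | ENNReal.ofReal s ≤ SQ a G x} ∩ E'ᶜ) := by
      refine (measure_mono ?_).trans (measure_union_le _ _)
      intro x hx
      by_cases hxE : x ∈ E'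
      · exact Or.inl hxE
      · have hx' : ENNReal.ofReal s < SQ a G x := hx
        exact Or.inr ⟨hx'.le, hxE⟩
    have h4 : μ ({x | ENNReal.ofReal s ≤ SQ a G x} ∩ E'ᶜ) ≤
        (ENNReal.ofReal s)⁻¹ * ∫⁻ x in E'ᶜ, SQ a G x ∂μ := by
      have h5 := mul_meas_ge_le_lintegral (μ := μ.restrict E'ᶜ) hFa (ENNReal.ofReal s)
      rw [Measure.restrict_apply (measurableSet_le measurable_const hFa)] at h5
      calc μ ({x | ENNReal.ofReal s ≤ SQ a G x} ∩ E'ᶜ)
          = (ENNReal.ofReal s)⁻¹ * (ENNReal.ofReal s *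
            μ ({x | ENNReal.ofReal s ≤ SQ a G x} ∩ E'ᶜ)) := by
            rw [← mul_assoc, ENNReal.inv_mul_cancel (by simpa using hs) ENNReal.ofReal_ne_top,
              one_mul]
        _ ≤ _ := by gcongr
    have h6 : ∫⁻ x in {x | ENNReal.ofReal s < F x}ᶜ, F x ∂μ =
        ∫⁻ x, (if F x ≤ ENNReal.ofReal s then F x else 0) ∂μ := by
      rw [← lintegral_indicator hE.compl]
      apply lintegral_congr
      intro x
      by_cases hx : F x ≤ ENNReal.ofReal s
      · simp [indicator, hx]
      · simp [indicator, hx, not_le.1 hx]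
    calc μ {x | ENNReal.ofReal s < SQ a G x}
        ≤ μ E' + μ ({x | ENNReal.ofReal s ≤ SQ a G x} ∩ E'ᶜ) := h3
      _ ≤ ENNReal.ofReal (4 * D * a ^ q) * μ {x | ENNReal.ofReal s < F x} +
          (ENNReal.ofReal s)⁻¹ * (ENNReal.ofReal (2 * D * a ^ q) *
            ∫⁻ x in {x | ENNReal.ofReal s < F x}ᶜ, F x ∂μ) := by
          gcongr
          exact h4.trans (by gcongr)
      _ = _ := by rw [h6]; ring
  calc ∫⁻ x, SQ a G x ^ r ∂μ
      = ∫⁻ x, (∫⁻ l in Ioi (0 : ℝ), ENNReal.ofReal (r * l ^ (r - 1)) *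
        (if ENNReal.ofReal l < SQ a G x then 1 else 0)) ∂μ := by
        apply lintegral_congr; intro t; exact Pool.Agent.Helper865.TAP.J3.layer hr0 _
    _ = ∫⁻ l in Ioi (0 : ℝ), ∫⁻ x, ENNReal.ofReal (r * l ^ (r - 1)) *
        (if ENNReal.ofReal l < SQ a G x then 1 else 0) ∂μ := by
        apply lintegral_lintegral_swap
        apply Measurable.aemeasurable
        apply Measurable.mul
        · fun_prop
        · refine Measurable.ite ?_ measurable_const measurable_const
          exact measurableSet_lt (by fun_prop) (hFa.comp measurable_fst)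
    _ = ∫⁻ l in Ioi (0 : ℝ), ENNReal.ofReal (r * l ^ (r - 1)) *
        μ {x | ENNReal.ofReal l < SQ a G x} := by
        apply lintegral_congr; intro l
        rw [lintegral_const_mul' _ _ ENNReal.ofReal_ne_top]
        congr 1
        have hms : MeasurableSet {x | ENNReal.ofReal l < SQ a G x} :=
          measurableSet_lt measurable_const hFa
        rw [← lintegral_indicator_one hms]
        apply lintegral_congr; intro t
        simp [indicator]
    _ ≤ ∫⁻ l in Ioi (0 : ℝ), (∫⁻ x, ENNReal.ofReal (4 * D * a ^ q) *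
          (ENNReal.ofReal (r * l ^ (r - 1)) * (if ENNReal.ofReal l < F x then 1 else 0)) ∂μ +
        ∫⁻ x, ENNReal.ofReal (2 * D * a ^ q) * (F x * (ENNReal.ofReal (r * l ^ (r - 2)) *
          (if F x ≤ ENNReal.ofReal l then 1 else 0))) ∂μ) := by
        apply setLIntegral_mono' measurableSet_Ioi
        intro l hl
        have hl0 : 0 < l := hl
        have hms : MeasurableSet {x | ENNReal.ofReal l < F x} :=
          measurableSet_lt measurable_const hF
        have e1 : ∫⁻ x, ENNReal.ofReal (4 * D * a ^ q) *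
            (ENNReal.ofReal (r * l ^ (r - 1)) * (if ENNReal.ofReal l < F x then 1 else 0)) ∂μ =
            ENNReal.ofReal (4 * D * a ^ q) * (ENNReal.ofReal (r * l ^ (r - 1)) *
              μ {x | ENNReal.ofReal l < F x}) := by
          rw [lintegral_const_mul' _ _ ENNReal.ofReal_ne_top,
            lintegral_const_mul' _ _ ENNReal.ofReal_ne_top]
          congr 2
          rw [← lintegral_indicator_one hms]
          apply lintegral_congr; intro t
          simp [indicator]
        have e2 : ∫⁻ x, ENNReal.ofReal (2 * D * a ^ q) * (F x * (ENNReal.ofReal (r * l ^ (r - 2)) *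
            (if F x ≤ ENNReal.ofReal l then 1 else 0))) ∂μ =
            ENNReal.ofReal (2 * D * a ^ q) * (ENNReal.ofReal (r * l ^ (r - 2)) *
              ∫⁻ x, (if F x ≤ ENNReal.ofReal l then F x else 0) ∂μ) := by
          rw [lintegral_const_mul' _ _ ENNReal.ofReal_ne_top]
          congr 1
          rw [← lintegral_const_mul' _ _ ENNReal.ofReal_ne_top]
          apply lintegral_congr; intro t
          split_ifs <;> ring
        have e3 : ENNReal.ofReal (r * l ^ (r - 1)) * (ENNReal.ofReal l)⁻¹ =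
            ENNReal.ofReal (r * l ^ (r - 2)) := by
          rw [← ENNReal.ofReal_inv_of_pos hl0, ← ENNReal.ofReal_mul (by positivity)]
          congr 1
          have h7 : r - 2 = r - 1 - 1 := by ring
          rw [h7, Real.rpow_sub_one hl0.ne' (r - 1)]
          field_simp
        rw [e1, e2]
        calc ENNReal.ofReal (r * l ^ (r - 1)) * μ {x | ENNReal.ofReal l < SQ a G x}
            ≤ ENNReal.ofReal (r * l ^ (r - 1)) *
              (ENNReal.ofReal (4 * D * a ^ q) * μ {x | ENNReal.ofReal l < F x} +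
              ENNReal.ofReal (2 * D * a ^ q) * ((ENNReal.ofReal l)⁻¹ *
                ∫⁻ x, (if F x ≤ ENNReal.ofReal l then F x else 0) ∂μ)) := by
              gcongr; exact key l hl0
          _ = ENNReal.ofReal (4 * D * a ^ q) * (ENNReal.ofReal (r * l ^ (r - 1)) *
              μ {x | ENNReal.ofReal l < F x}) +
              ENNReal.ofReal (2 * D * a ^ q) * ((ENNReal.ofReal (r * l ^ (r - 1)) *
                (ENNReal.ofReal l)⁻¹) *
                ∫⁻ x, (if F x ≤ ENNReal.ofReal l then F x else 0) ∂μ) := by ring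
          _ ≤ _ := by rw [e3]
    _ = (∫⁻ l in Ioi (0 : ℝ), ∫⁻ x, ENNReal.ofReal (4 * D * a ^ q) *
          (ENNReal.ofReal (r * l ^ (r - 1)) * (if ENNReal.ofReal l < F x then 1 else 0)) ∂μ) +
        ∫⁻ l in Ioi (0 : ℝ), ∫⁻ x, ENNReal.ofReal (2 * D * a ^ q) *
          (F x * (ENNReal.ofReal (r * l ^ (r - 2)) *
          (if F x ≤ ENNReal.ofReal l then 1 else 0))) ∂μ := by
        apply lintegral_add_left
        apply Measurable.lintegral_prod_right'
          (f := fun z : ℝ × ℝ => ENNReal.ofReal (4 * D * a ^ q) *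
          (ENNReal.ofReal (r * z.1 ^ (r - 1)) * (if ENNReal.ofReal z.1 < F z.2 then 1 else 0)))
        apply Measurable.mul measurable_const
        apply Measurable.mul
        · fun_prop
        · refine Measurable.ite ?_ measurable_const measurable_const
          exact measurableSet_lt (by fun_prop) (hF.comp measurable_snd)
    _ = ∫⁻ x, (∫⁻ l in Ioi (0 : ℝ), ENNReal.ofReal (4 * D * a ^ q) *
          (ENNReal.ofReal (r * l ^ (r - 1)) * (if ENNReal.ofReal l < F x then 1 else 0))) ∂μ +
        ∫⁻ x, (∫⁻ l in Ioi (0 : ℝ), ENNReal.ofReal (2 * D * a ^ q) *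
          (F x * (ENNReal.ofReal (r * l ^ (r - 2)) *
          (if F x ≤ ENNReal.ofReal l then 1 else 0)))) ∂μ := by
        congr 1
        · apply lintegral_lintegral_swap
          apply Measurable.aemeasurable
          apply Measurable.mul measurable_const
          apply Measurable.mul
          · fun_prop
          · refine Measurable.ite ?_ measurable_const measurable_const
            exact measurableSet_lt (by fun_prop) (hF.comp measurable_snd)
        · apply lintegral_lintegral_swap
          apply Measurable.aemeasurable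
          apply Measurable.mul measurable_const
          apply Measurable.mul (hF.comp measurable_snd)
          apply Measurable.mul
          · fun_prop
          · refine Measurable.ite ?_ measurable_const measurable_const
            exact measurableSet_le (hF.comp measurable_snd) (by fun_prop)
    _ ≤ ∫⁻ x, ENNReal.ofReal (4 * D * a ^ q) * F x ^ r ∂μ +
        ∫⁻ x, ENNReal.ofReal (2 * D * a ^ q) * (ENNReal.ofReal (r / (1 - r)) * F x ^ r) ∂μ := by
        gcongr with x x
        · rw [lintegral_const_mul' _ _ ENNReal.ofReal_ne_top,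
            ← Pool.Agent.Helper865.TAP.J3.layer hr0]
        · rw [lintegral_const_mul' _ _ ENNReal.ofReal_ne_top]
          gcongr
          have hmeas : Measurable (fun l : ℝ => ENNReal.ofReal (r * l ^ (r - 2)) *
            (if F x ≤ ENNReal.ofReal l then (1 : ℝ≥0∞) else 0)) := by
            apply Measurable.mul
            · fun_prop
            · refine Measurable.ite ?_ measurable_const measurable_const
              exact measurableSet_le measurable_const (by fun_prop)
          rw [lintegral_const_mul _ hmeas]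
          exact ap_tail hr0 hr1 (F x)
    _ = (ENNReal.ofReal (4 * D) + ENNReal.ofReal (2 * D) * ENNReal.ofReal (r / (1 - r))) *
        ENNReal.ofReal (a ^ q) * ∫⁻ x, F x ^ r ∂μ := by
        rw [lintegral_const_mul' _ _ ENNReal.ofReal_ne_top,
          lintegral_const_mul' _ _ ENNReal.ofReal_ne_top,
          lintegral_const_mul' _ _ ENNReal.ofReal_ne_top,
          ENNReal.ofReal_mul (p := 4 * D) (by positivity),
          ENNReal.ofReal_mul (p := 2 * D) (by positivity)]
        ring

end Pool.Agent.TH407.GS
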