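import Pool.Agent.TH407.GS.Defs

/-!
Joint continuity of Poisson integrals (auxiliary to `Area`).
-/

set_option autoImplicit false
open MeasureTheory Set Filter Topology
open scoped ENNReal NNReal

namespace Pool.Agent.TH407.GS

theorem ar_den {R a z y t : ℝ} (ha : 0 < a) (hz : |z| ≤ R) (hy : a ≤ y) :
    1 / ((t - z) ^ 2 + y ^ 2) ≤ ((1 + 2 * R ^ 2) / a ^ 2 + 2) / (1 + t ^ 2) := by
  have hy0 : 0 < y := lt_of_lt_of_le ha hy
  have hz2 : z ^ 2 ≤ R ^ 2 := sq_le_sq' (by linarith [(abs_le.1 hz).1]) (abs_le.1 hz).2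
  have hy2 : a ^ 2 ≤ y ^ 2 := by gcongr
  have h3 : (1 + 2 * R ^ 2) ≤ (1 + 2 * R ^ 2) / a ^ 2 * y ^ 2 := by
    rw [div_mul_eq_mul_div, le_div_iff₀ (by positivity)]
    exact mul_le_mul_of_nonneg_left hy2 (by positivity)
  have h4 : 0 ≤ (1 + 2 * R ^ 2) / a ^ 2 * (t - z) ^ 2 := by positivity
  rw [div_le_div_iff₀ (by positivity) (by positivity)]
  nlinarith [sq_nonneg (t - 2 * z), sq_nonneg y]

theorem ar_pi : 1 / Real.pi ≤ 1 := by
  rw [div_le_one Real.pi_pos]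
  linarith [Real.pi_gt_three]

theorem ar_kb {a c s y : ℝ} (ha : 0 < a) (hy : a ≤ y) (hc : y ≤ c) :
    |pk s y| ≤ (c + 1 + 6 / a) * (1 / (s ^ 2 + y ^ 2)) ∧
    |pkz s y| ≤ (c + 1 + 6 / a) * (1 / (s ^ 2 + y ^ 2)) ∧
    |pky s y| ≤ (c + 1 + 6 / a) * (1 / (s ^ 2 + y ^ 2)) ∧
    |pkzz s y| ≤ (c + 1 + 6 / a) * (1 / (s ^ 2 + y ^ 2)) := by
  have hy0 : 0 < y := lt_of_lt_of_le ha hy
  have hp := ar_pi
  have hp0 : 0 < 1 / Real.pi := by positivity
  set D := s ^ 2 + y ^ 2 with hD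
  have hD0 : 0 < D := by positivity
  have hc0 : 0 < c := by linarith
  have hsD : |s| * y * 2 ≤ D := by
    have := sq_nonneg (|s| - y)
    rw [sub_sq, sq_abs] at this
    linarith
  have hs2 : s ^ 2 ≤ D := by rw [hD]; nlinarith
  have hy2 : y ^ 2 ≤ D := by rw [hD]; nlinarith [sq_nonneg s]
  have h6 : 0 < 6 / a := by positivity
  have hK : (1 : ℝ) ≤ c + 1 + 6 / a := by linarith
  have hgen : ∀ e : ℝ, |e| ≤ (c + 1 + 6 / a) * (1 / D) → |1 / Real.pi * e| ≤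
      (c + 1 + 6 / a) * (1 / D) := by
    intro e he
    rw [abs_mul, abs_of_pos hp0]
    calc 1 / Real.pi * |e| ≤ 1 * |e| := mul_le_mul_of_nonneg_right hp (abs_nonneg _)
      _ ≤ _ := by rw [one_mul]; exact he
  refine ⟨hgen _ ?_, hgen _ ?_, hgen _ ?_, hgen _ ?_⟩
  · rw [abs_of_pos (by positivity), div_eq_mul_one_div]
    exact mul_le_mul_of_nonneg_right (by linarith) (by positivity)
  · rw [abs_div, abs_of_pos (show (0 : ℝ) < D ^ 2 by positivity), ← div_eq_mul_one_div,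
      div_le_div_iff₀ (by positivity) hD0, abs_mul, abs_mul, abs_of_pos hy0, abs_of_pos (two_pos)]
    nlinarith [mul_le_mul_of_nonneg_right hsD hD0.le, mul_le_mul_of_nonneg_right hK (sq_nonneg D)]
  · rw [abs_div, abs_of_pos (show (0 : ℝ) < D ^ 2 by positivity), ← div_eq_mul_one_div,
      div_le_div_iff₀ (by positivity) hD0]
    have : |s ^ 2 - y ^ 2| ≤ D := by
      rw [abs_le]
      constructor <;> nlinarith [sq_nonneg s, sq_nonneg y]
    nlinarith [mul_le_mul_of_nonneg_right this hD0.le, mul_le_mul_of_nonneg_right hK (sq_nonneg D)]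
  · rw [abs_div, abs_of_pos (show (0 : ℝ) < D ^ 3 by positivity), ← div_eq_mul_one_div,
      div_le_div_iff₀ (by positivity) hD0, abs_mul, abs_mul, abs_of_pos hy0, abs_of_pos (two_pos)]
    have h1 : |3 * s ^ 2 - y ^ 2| ≤ 3 * D := by
      rw [abs_le]
      constructor <;> nlinarith [sq_nonneg s, sq_nonneg y]
    have h2 : 6 * y * D ≤ 6 / a * D ^ 2 := by
      rw [div_mul_eq_mul_div, le_div_iff₀ ha]
      have : y * a ≤ D := by nlinarith
      nlinarith [mul_le_mul_of_nonneg_right this hD0.le]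
    have h3 : 2 * y * |3 * s ^ 2 - y ^ 2| ≤ 6 * y * D := by
      nlinarith [mul_le_mul_of_nonneg_left h1 hy0.le]
    have h4 : 6 / a * D ^ 2 ≤ (c + 1 + 6 / a) * D ^ 2 :=
      mul_le_mul_of_nonneg_right (by linarith) (by positivity)
    calc 2 * y * |3 * s ^ 2 - y ^ 2| * D ≤ (c + 1 + 6 / a) * D ^ 2 * D :=
          mul_le_mul_of_nonneg_right (h3.trans (h2.trans h4)) hD0.le
      _ = (c + 1 + 6 / a) * D ^ 3 := by ring

theorem ar_aesm {g : ℝ → ℝ} (hg : PT g) : AEStronglyMeasurable g := by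
  have h1 : AEStronglyMeasurable (fun t => g t / (1 + t ^ 2)) := hg.aestronglyMeasurable
  have h2 : Continuous (fun t : ℝ => 1 + t ^ 2) := by fun_prop
  have h3 := h1.mul h2.aestronglyMeasurable
  refine h3.congr (Eventually.of_forall fun t => ?_)
  have : (1 : ℝ) + t ^ 2 ≠ 0 := by positivity
  simp only [Pi.mul_apply]
  field_simp

theorem ar_cont {k : ℝ → ℝ → ℝ} {g : ℝ → ℝ} (hg : PT g) {R a c K : ℝ}
    (hk : ContinuousOn (fun p : ℝ × ℝ => k p.1 p.2) {p | 0 < p.2}) (ha : 0 < a)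
    (hb : ∀ t z y, |z| ≤ R → a ≤ y → y ≤ c → |k (t - z) y| ≤ K / (1 + t ^ 2)) :
    ContinuousOn (fun q : ℝ × ℝ => ∫ t, k (t - q.1) q.2 * g t) (Icc (-R) R ×ˢ Icc a c) := by
  have hg0 := ar_aesm hg
  apply continuousOn_of_dominated (bound := fun t => K * |g t / (1 + t ^ 2)|)
  · rintro ⟨z, y⟩ ⟨hz, hy⟩
    have h1 : Continuous (fun t => k (t - z) y) := by
      rw [← continuousOn_univ]
      exact hk.comp (f := fun t : ℝ => (t - z, y)) (by fun_prop)
        (fun t _ => lt_of_lt_of_le ha hy.1)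
    exact h1.aestronglyMeasurable.mul hg0
  · rintro ⟨z, y⟩ ⟨hz, hy⟩
    refine Eventually.of_forall fun t => ?_
    rw [Real.norm_eq_abs, abs_mul, abs_div, abs_of_pos (show (0 : ℝ) < 1 + t ^ 2 by positivity)]
    calc |k (t - z) y| * |g t| ≤ K / (1 + t ^ 2) * |g t| :=
          mul_le_mul_of_nonneg_right (hb t z y (abs_le.2 hz) hy.1 hy.2) (abs_nonneg _)
      _ = K * (|g t| / (1 + t ^ 2)) := by ring
  · exact (Integrable.abs hg).const_mul K
  · refine Eventually.of_forall fun t => ?_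
    refine ContinuousOn.mul ?_ continuousOn_const
    exact hk.comp (f := fun q : ℝ × ℝ => (t - q.1, q.2)) (by fun_prop)
      (fun q hq => lt_of_lt_of_le ha hq.2.1)

theorem ar_kcont :
    ContinuousOn (fun p : ℝ × ℝ => pk p.1 p.2) {p | 0 < p.2} ∧
    ContinuousOn (fun p : ℝ × ℝ => pkz p.1 p.2) {p | 0 < p.2} ∧
    ContinuousOn (fun p : ℝ × ℝ => pky p.1 p.2) {p | 0 < p.2} ∧
    ContinuousOn (fun p : ℝ × ℝ => pkzz p.1 p.2) {p | 0 < p.2} := by
  have hne : ∀ p ∈ {p : ℝ × ℝ | 0 < p.2}, p.1 ^ 2 + p.2 ^ 2 ≠ 0 := by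
    intro p hp
    have : 0 < p.2 := hp
    positivity
  refine ⟨?_, ?_, ?_, ?_⟩
  · unfold pk
    exact continuousOn_const.mul (ContinuousOn.div (by fun_prop) (by fun_prop) hne)
  · unfold pkz
    exact continuousOn_const.mul (ContinuousOn.div (by fun_prop) (by fun_prop)
      fun p hp => pow_ne_zero _ (hne p hp))
  · unfold pky
    exact continuousOn_const.mul (ContinuousOn.div (by fun_prop) (by fun_prop)
      fun p hp => pow_ne_zero _ (hne p hp))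
  · unfold pkzz
    exact continuousOn_const.mul (ContinuousOn.div (by fun_prop) (by fun_prop)
      fun p hp => pow_ne_zero _ (hne p hp))

/-- joint continuity on rectangles -/
theorem ar_PIcont {g : ℝ → ℝ} (hg : PT g) {R a c : ℝ} (ha : 0 < a) (hc : 0 ≤ c) :
    ContinuousOn (fun q : ℝ × ℝ => PI g q.1 q.2) (Icc (-R) R ×ˢ Icc a c) ∧
    ContinuousOn (fun q : ℝ × ℝ => PIz g q.1 q.2) (Icc (-R) R ×ˢ Icc a c) ∧
    ContinuousOn (fun q : ℝ × ℝ => PIy g q.1 q.2) (Icc (-R) R ×ˢ Icc a c) ∧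
    ContinuousOn (fun q : ℝ × ℝ => PIzz g q.1 q.2) (Icc (-R) R ×ˢ Icc a c) := by
  have hb : ∀ k : ℝ → ℝ → ℝ, (∀ s y, a ≤ y → y ≤ c →
      |k s y| ≤ (c + 1 + 6 / a) * (1 / (s ^ 2 + y ^ 2))) →
      ∀ t z y, |z| ≤ R → a ≤ y → y ≤ c → |k (t - z) y| ≤
        ((c + 1 + 6 / a) * ((1 + 2 * R ^ 2) / a ^ 2 + 2)) / (1 + t ^ 2) := by
    intro k hk t z y hz hy hyc
    refine (hk _ _ hy hyc).trans ?_
    rw [mul_div_assoc]
    exact mul_le_mul_of_nonneg_left (ar_den ha hz hy) (by positivity)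
  obtain ⟨c1, c2, c3, c4⟩ := ar_kcont
  exact ⟨ar_cont hg c1 ha (hb _ fun s y h1 h2 => (ar_kb ha h1 h2).1),
    ar_cont hg c2 ha (hb _ fun s y h1 h2 => (ar_kb ha h1 h2).2.1),
    ar_cont hg c3 ha (hb _ fun s y h1 h2 => (ar_kb ha h1 h2).2.2.1),
    ar_cont hg c4 ha (hb _ fun s y h1 h2 => (ar_kb ha h1 h2).2.2.2)⟩

end Pool.Agent.TH407.GS
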