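import Mathlib

/-!
An integration by parts on a rectangle against a tent function (auxiliary to `Area`).
-/

set_option autoImplicit false
open MeasureTheory Set Filter Topology
open scoped ENNReal NNReal

namespace Pool.Agent.TH407.GS

/-- tent function on `[a, 2 b - a]` -/
def ar_tent (a b y : ℝ) : ℝ := min (y - a) (2 * b - a - y)

theorem ar_tent_cont (a b : ℝ) : Continuous (ar_tent a b) := by
  unfold ar_tent; fun_prop

theorem ar_tent_nonneg {a b y : ℝ} (h : y ∈ Icc a (2 * b - a)) : 0 ≤ ar_tent a b y := by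
  unfold ar_tent
  exact le_min (by linarith [h.1]) (by linarith [h.2])

theorem ar_tent_le {a b y : ℝ} : ar_tent a b y ≤ b - a := by
  unfold ar_tent
  rcases le_total y b with h | h
  · exact (min_le_left _ _).trans (by linarith)
  · exact (min_le_right _ _).trans (by linarith)

/-- integration by parts in one variable -/
theorem ar_ibp {a b : ℝ} (hab : a ≤ b) {F F1 F2 : ℝ → ℝ}
    (h1 : ∀ y ∈ Icc a (2 * b - a), HasDerivAt F (F1 y) y)
    (h2 : ∀ y ∈ Icc a (2 * b - a), HasDerivAt F1 (F2 y) y)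
    (hc : ContinuousOn F2 (Icc a (2 * b - a))) :
    ∫ y in Icc a (2 * b - a), ar_tent a b y * F2 y = F a + F (2 * b - a) - 2 * F b := by
  set c := 2 * b - a with hcdef
  have hbc : b ≤ c := by linarith
  have hac : a ≤ c := by linarith
  rw [integral_Icc_eq_integral_Ioc, ← intervalIntegral.integral_of_le hac]
  have hint : ∀ u v : ℝ, a ≤ u → u ≤ v → v ≤ c →
      IntervalIntegrable (fun y => ar_tent a b y * F2 y) volume u v := by
    intro u v hu huv hv
    apply ContinuousOn.intervalIntegrable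
    rw [uIcc_of_le huv]
    exact (ar_tent_cont a b).continuousOn.mul (hc.mono (Icc_subset_Icc hu hv))
  rw [← intervalIntegral.integral_add_adjacent_intervals (hint a b le_rfl hab hbc)
    (hint b c hab hbc le_rfl)]
  have e1 : ∫ y in a..b, ar_tent a b y * F2 y = (b - a) * F1 b - F b + F a := by
    have : ∫ y in a..b, ar_tent a b y * F2 y =
        ((b - a) * F1 b - F b) - ((a - a) * F1 a - F a) := by
      apply intervalIntegral.integral_eq_sub_of_hasDerivAt (f := fun y => (y - a) * F1 y - F y)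
      · intro y hy
        rw [uIcc_of_le hab] at hy
        have hy' : y ∈ Icc a c := ⟨hy.1, hy.2.trans hbc⟩
        have e : ar_tent a b y = y - a := by
          unfold ar_tent
          exact min_eq_left (by linarith [hy.2])
        rw [e]
        have := (((hasDerivAt_id y).sub_const a).mul (h2 y hy')).sub (h1 y hy')
        refine this.congr_deriv ?_
        simp
      · exact hint a b le_rfl hab hbc
    rw [this]; ring
  have e2 : ∫ y in b..c, ar_tent a b y * F2 y = F c - (c - b) * F1 b - F b := by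
    have : ∫ y in b..c, ar_tent a b y * F2 y =
        ((c - c) * F1 c + F c) - ((c - b) * F1 b + F b) := by
      apply intervalIntegral.integral_eq_sub_of_hasDerivAt (f := fun y => (c - y) * F1 y + F y)
      · intro y hy
        rw [uIcc_of_le hbc] at hy
        have hy' : y ∈ Icc a c := ⟨hab.trans hy.1, hy.2⟩
        have e : ar_tent a b y = c - y := by
          unfold ar_tent
          exact min_eq_right (by linarith [hy.1])
        rw [e]
        have := (((hasDerivAt_id y).const_sub c).mul (h2 y hy')).add (h1 y hy')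
        refine this.congr_deriv ?_
        simp
      · exact hint b c hab hbc le_rfl
    rw [this]; ring
  rw [e1, e2, hcdef]
  ring

theorem ar_ftc {R : ℝ} (hR : 0 ≤ R) {G G1 : ℝ → ℝ}
    (h1 : ∀ z ∈ Icc (-R) R, HasDerivAt G (G1 z) z) (hc : ContinuousOn G1 (Icc (-R) R)) :
    ∫ z in Icc (-R) R, G1 z = G R - G (-R) := by
  have hab : -R ≤ R := by linarith
  rw [integral_Icc_eq_integral_Ioc, ← intervalIntegral.integral_of_le hab]
  apply intervalIntegral.integral_eq_sub_of_hasDerivAt
  · intro y hy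
    rw [uIcc_of_le hab] at hy
    exact h1 y hy
  · apply ContinuousOn.intervalIntegrable
    rw [uIcc_of_le hab]
    exact hc

/-- the rectangle estimate -/
theorem ar_rect {a b R M : ℝ} (hab : a ≤ b) (hR : 0 ≤ R) {B Bz By Bzz Byy h : ℝ → ℝ → ℝ}
    (hz : ∀ z ∈ Icc (-R) R, ∀ y ∈ Icc a (2 * b - a), HasDerivAt (fun s => Bz s y) (Bzz z y) z)
    (hy1 : ∀ z ∈ Icc (-R) R, ∀ y ∈ Icc a (2 * b - a), HasDerivAt (fun t => B z t) (By z y) y)
    (hy2 : ∀ z ∈ Icc (-R) R, ∀ y ∈ Icc a (2 * b - a), HasDerivAt (fun t => By z t) (Byy z y) y)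
    (cB : ContinuousOn (fun q : ℝ × ℝ => B q.1 q.2) (Icc (-R) R ×ˢ Icc a (2 * b - a)))
    (cz : ContinuousOn (fun q : ℝ × ℝ => Bzz q.1 q.2) (Icc (-R) R ×ˢ Icc a (2 * b - a)))
    (cy : ContinuousOn (fun q : ℝ × ℝ => Byy q.1 q.2) (Icc (-R) R ×ˢ Icc a (2 * b - a)))
    (ch : ContinuousOn (fun q : ℝ × ℝ => h q.1 q.2) (Icc (-R) R ×ˢ Icc a (2 * b - a)))
    (hle : ∀ z ∈ Icc (-R) R, ∀ y ∈ Icc a (2 * b - a), h z y ≤ -(Bzz z y + Byy z y))
    (hB : ∀ z ∈ Icc (-R) R, 0 ≤ B z a ∧ 0 ≤ B z (2 * b - a))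
    (hM : ∀ y ∈ Icc a (2 * b - a), |Bz R y| ≤ M ∧ |Bz (-R) y| ≤ M) :
    ∫ q in Icc (-R) R ×ˢ Icc a (2 * b - a), ar_tent a b q.2 * h q.1 q.2 ∂(volume.prod volume) ≤
      2 * (∫ z in Icc (-R) R, B z b) + 4 * M * (b - a) ^ 2 := by
  set c := 2 * b - a with hcdef
  have hac : a ≤ c := by linarith
  have hba : 0 ≤ b - a := by linarith
  set S := Icc (-R) R ×ˢ Icc a c with hS
  have hcomp : IsCompact S := isCompact_Icc.prod isCompact_Icc
  have hSm : MeasurableSet S := measurableSet_Icc.prod measurableSet_Icc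
  have ht : ContinuousOn (fun q : ℝ × ℝ => ar_tent a b q.2) S :=
    ((ar_tent_cont a b).comp continuous_snd).continuousOn
  have ih : IntegrableOn (fun q : ℝ × ℝ => ar_tent a b q.2 * h q.1 q.2) S (volume.prod volume) :=
    (ht.mul ch).integrableOn_compact hcomp
  have iz : IntegrableOn (fun q : ℝ × ℝ => ar_tent a b q.2 * Bzz q.1 q.2) S
      (volume.prod volume) := (ht.mul cz).integrableOn_compact hcomp
  have iy : IntegrableOn (fun q : ℝ × ℝ => ar_tent a b q.2 * Byy q.1 q.2) S
      (volume.prod volume) := (ht.mul cy).integrableOn_compact hcomp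
  have izn : IntegrableOn (fun q : ℝ × ℝ => -(ar_tent a b q.2 * Bzz q.1 q.2)) S
      (volume.prod volume) := iz.neg
  have isub : IntegrableOn (fun q : ℝ × ℝ => -(ar_tent a b q.2 * Bzz q.1 q.2) -
      ar_tent a b q.2 * Byy q.1 q.2) S (volume.prod volume) := izn.sub iy
  have step1 : ∫ q in S, ar_tent a b q.2 * h q.1 q.2 ∂(volume.prod volume) ≤
      ∫ q in S, (-(ar_tent a b q.2 * Bzz q.1 q.2) - ar_tent a b q.2 * Byy q.1 q.2)
        ∂(volume.prod volume) := by
    apply setIntegral_mono_on ih isub hSm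
    rintro ⟨z, y⟩ ⟨h1, h2⟩
    have := mul_le_mul_of_nonneg_left (hle z h1 y h2) (ar_tent_nonneg h2)
    simp only at this ⊢
    linarith
  have step2 : ∫ q in S, (-(ar_tent a b q.2 * Bzz q.1 q.2) - ar_tent a b q.2 * Byy q.1 q.2)
        ∂(volume.prod volume) = -(∫ q in S, ar_tent a b q.2 * Bzz q.1 q.2 ∂(volume.prod volume)) -
        ∫ q in S, ar_tent a b q.2 * Byy q.1 q.2 ∂(volume.prod volume) := by
    rw [integral_sub izn iy, integral_neg]
  -- the `y` part
  have cBb : ∀ y ∈ Icc a c, ContinuousOn (fun z => B z y) (Icc (-R) R) := by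
    intro y hy
    exact cB.comp (f := fun z : ℝ => (z, y)) (by fun_prop) (fun z hz => ⟨hz, hy⟩)
  have hbmem : b ∈ Icc a c := ⟨hab, by linarith⟩
  have step3 : ∫ q in S, ar_tent a b q.2 * Byy q.1 q.2 ∂(volume.prod volume) =
      ∫ z in Icc (-R) R, (B z a + B z c - 2 * B z b) := by
    rw [hS, setIntegral_prod _ iy]
    apply setIntegral_congr_fun measurableSet_Icc
    intro z hz'
    exact ar_ibp hab (hy1 z hz') (hy2 z hz')
      (cy.comp (f := fun y : ℝ => (z, y)) (by fun_prop) (fun y hy => ⟨hz', hy⟩))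
  have step4 : -(2 * ∫ z in Icc (-R) R, B z b) ≤
      ∫ z in Icc (-R) R, (B z a + B z c - 2 * B z b) := by
    rw [← integral_const_mul, ← integral_neg]
    have i1 : IntegrableOn (fun z => B z b) (Icc (-R) R) :=
      (cBb b hbmem).integrableOn_compact isCompact_Icc
    have i2 : IntegrableOn (fun z => B z a) (Icc (-R) R) :=
      (cBb a ⟨le_rfl, hac⟩).integrableOn_compact isCompact_Icc
    have i3 : IntegrableOn (fun z => B z c) (Icc (-R) R) :=
      (cBb c ⟨hac, le_rfl⟩).integrableOn_compact isCompact_Icc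
    have j1 : IntegrableOn (fun z => -(2 * B z b)) (Icc (-R) R) := (i1.const_mul 2).neg
    have j2 : IntegrableOn (fun z => B z a + B z c - 2 * B z b) (Icc (-R) R) :=
      (i2.add i3).sub (i1.const_mul 2)
    apply setIntegral_mono_on j1 j2 measurableSet_Icc
    intro z hz'
    have := hB z hz'
    linarith
  -- the `z` part
  have step5 : ∫ q in S, ar_tent a b q.2 * Bzz q.1 q.2 ∂(volume.prod volume) =
      ∫ y in Icc a c, ar_tent a b y * (Bz R y - Bz (-R) y) := by
    rw [hS, ← setIntegral_prod_swap, setIntegral_prod]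
    · apply setIntegral_congr_fun measurableSet_Icc
      intro y hy
      simp only [Prod.swap]
      rw [integral_const_mul]
      congr 1
      exact ar_ftc hR (fun z hz' => hz z hz' y hy)
        (cz.comp (f := fun z : ℝ => (z, y)) (by fun_prop) (fun z hz' => ⟨hz', hy⟩))
    · exact iz.swap
  have hM0 : 0 ≤ M := (abs_nonneg _).trans (hM a ⟨le_rfl, hac⟩).1
  have step6 : |∫ y in Icc a c, ar_tent a b y * (Bz R y - Bz (-R) y)| ≤
      4 * M * (b - a) ^ 2 := by
    have h1 : ‖∫ y in Icc a c, ar_tent a b y * (Bz R y - Bz (-R) y)‖ ≤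
        ((b - a) * (2 * M)) * volume.real (Icc a c) := by
      apply norm_setIntegral_le_of_norm_le_const
      · rw [Real.volume_Icc]; exact ENNReal.ofReal_lt_top
      · intro y hy
        rw [norm_mul, Real.norm_eq_abs, Real.norm_eq_abs, abs_of_nonneg (ar_tent_nonneg hy)]
        apply mul_le_mul ar_tent_le _ (abs_nonneg _) hba
        have h3 := hM y hy
        calc |Bz R y - Bz (-R) y| ≤ |Bz R y| + |Bz (-R) y| := abs_sub _ _
          _ ≤ 2 * M := by linarith
    rw [Real.norm_eq_abs] at h1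
    refine h1.trans (le_of_eq ?_)
    rw [Measure.real, Real.volume_Icc, ENNReal.toReal_ofReal (by linarith), hcdef]
    ring
  have := abs_le.1 step6
  rw [step2, step3, step5] at step1
  linarith [this.1]

end Pool.Agent.TH407.GS
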