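import Pool.Agent.TH407.GS.Defs

/-!
Bounds for the Poisson integral: domination of its derivatives, Cauchy-Schwarz, and the ball.
-/

set_option autoImplicit false
open MeasureTheory Set Filter Topology
open scoped ENNReal NNReal
open Pool.Agent.TH280.MZ

namespace Pool.Agent.TH407.GS

/-! ### pointwise bounds of the kernels -/

theorem bd_pk_nonneg {y : ℝ} (hy : 0 < y) (s : ℝ) : 0 ≤ pk s y := by
  unfold pk
  have := Real.pi_pos
  positivity

theorem bd_pk_pos {y : ℝ} (hy : 0 < y) (s : ℝ) : 0 < pk s y := by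
  unfold pk
  have := Real.pi_pos
  positivity

theorem bd_pkz_le {y : ℝ} (hy : 0 < y) (s : ℝ) : |pkz s y| ≤ pk s y / y := by
  unfold pkz pk
  have hpi := Real.pi_pos
  have hD : 0 < s ^ 2 + y ^ 2 := by positivity
  have e : (1 / Real.pi) * (y / (s ^ 2 + y ^ 2)) / y =
      (1 / Real.pi) * ((s ^ 2 + y ^ 2) / (s ^ 2 + y ^ 2) ^ 2) := by
    field_simp
  rw [e, abs_mul, abs_of_pos (by positivity : (0 : ℝ) < 1 / Real.pi)]
  refine mul_le_mul_of_nonneg_left ?_ (by positivity)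
  rw [abs_div, abs_of_pos (by positivity : (0 : ℝ) < (s ^ 2 + y ^ 2) ^ 2)]
  refine div_le_div_of_nonneg_right ?_ (by positivity)
  rw [abs_le]
  constructor <;> nlinarith [sq_nonneg (s - y), sq_nonneg (s + y)]

theorem bd_pky_le {y : ℝ} (hy : 0 < y) (s : ℝ) : |pky s y| ≤ pk s y / y := by
  unfold pky pk
  have hpi := Real.pi_pos
  have hD : 0 < s ^ 2 + y ^ 2 := by positivity
  have e : (1 / Real.pi) * (y / (s ^ 2 + y ^ 2)) / y =
      (1 / Real.pi) * ((s ^ 2 + y ^ 2) / (s ^ 2 + y ^ 2) ^ 2) := by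
    field_simp
  rw [e, abs_mul, abs_of_pos (by positivity : (0 : ℝ) < 1 / Real.pi)]
  refine mul_le_mul_of_nonneg_left ?_ (by positivity)
  rw [abs_div, abs_of_pos (by positivity : (0 : ℝ) < (s ^ 2 + y ^ 2) ^ 2)]
  refine div_le_div_of_nonneg_right ?_ (by positivity)
  rw [abs_le]
  constructor <;> nlinarith [sq_nonneg s, sq_nonneg y]

theorem bd_cont_pk {y : ℝ} (hy : 0 < y) (z : ℝ) : Continuous (fun t : ℝ => pk (t - z) y) := by
  unfold pk
  refine continuous_const.mul (continuous_const.div (by fun_prop) ?_)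
  intro t
  have : 0 < (t - z) ^ 2 + y ^ 2 := by positivity
  exact this.ne'

theorem bd_cont_pkz {y : ℝ} (hy : 0 < y) (z : ℝ) : Continuous (fun t : ℝ => pkz (t - z) y) := by
  unfold pkz
  refine continuous_const.mul (Continuous.div (by fun_prop) (by fun_prop) ?_)
  intro t
  have : 0 < ((t - z) ^ 2 + y ^ 2) ^ 2 := by positivity
  exact this.ne'

theorem bd_cont_pky {y : ℝ} (hy : 0 < y) (z : ℝ) : Continuous (fun t : ℝ => pky (t - z) y) := by
  unfold pky
  refine continuous_const.mul (Continuous.div (by fun_prop) (by fun_prop) ?_)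
  intro t
  have : 0 < ((t - z) ^ 2 + y ^ 2) ^ 2 := by positivity
  exact this.ne'

/-- upper bound of the kernel -/
theorem bd_pk_upper {y : ℝ} (hy : 0 < y) (z : ℝ) :
    ∃ C : ℝ, 0 < C ∧ ∀ t : ℝ, pk (t - z) y * (1 + t ^ 2) ≤ C := by
  have hpi := Real.pi_pos
  refine ⟨(1 / Real.pi) * (y * ((1 + 2 * z ^ 2) / y ^ 2 + 2)), by positivity, fun t => ?_⟩
  unfold pk
  rw [mul_assoc]
  refine mul_le_mul_of_nonneg_left ?_ (by positivity)
  rw [div_mul_eq_mul_div, mul_div_assoc]
  refine mul_le_mul_of_nonneg_left ?_ hy.le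
  have hD : 0 < (t - z) ^ 2 + y ^ 2 := by positivity
  rw [div_le_iff₀ hD]
  have h1 : ((1 + 2 * z ^ 2) / y ^ 2 + 2) * ((t - z) ^ 2 + y ^ 2) =
      (1 + 2 * z ^ 2) / y ^ 2 * (t - z) ^ 2 + (1 + 2 * z ^ 2) + 2 * (t - z) ^ 2 + 2 * y ^ 2 := by
    field_simp
    ring
  rw [h1]
  have h2 : 0 ≤ (1 + 2 * z ^ 2) / y ^ 2 * (t - z) ^ 2 := by positivity
  nlinarith [sq_nonneg (t - 2 * z), sq_nonneg y]

theorem pt_abs {g : ℝ → ℝ} (hg : PT g) : PT (fun t => |g t|) := by
  unfold PT at *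
  have h := hg.abs
  refine h.congr (Filter.Eventually.of_forall fun t => ?_)
  have h1 : (0 : ℝ) < 1 + t ^ 2 := by positivity
  simp only [abs_div, abs_of_pos h1]

/-- a continuous kernel dominated by a multiple of `1 / (1 + t^2)` -/
theorem bd_int {g K : ℝ → ℝ} (hg : PT g) (hK : Continuous K) {C : ℝ}
    (hC : ∀ t, |K t| * (1 + t ^ 2) ≤ C) : Integrable (fun t => K t * g t) := by
  unfold PT at hg
  have h1 : Integrable (fun t => (K t * (1 + t ^ 2)) * (g t / (1 + t ^ 2))) := by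
    refine hg.bdd_mul (c := C) ?_ ?_
    · exact (hK.mul (by fun_prop)).aestronglyMeasurable
    · refine Filter.Eventually.of_forall fun t => ?_
      have h2 : (0 : ℝ) < 1 + t ^ 2 := by positivity
      rw [Real.norm_eq_abs, abs_mul, abs_of_pos h2]
      exact hC t
  refine h1.congr (Filter.Eventually.of_forall fun t => ?_)
  have h2 : (0 : ℝ) < 1 + t ^ 2 := by positivity
  simp only
  field_simp

theorem integrable_pk {g : ℝ → ℝ} (hg : PT g) {y : ℝ} (hy : 0 < y) (z : ℝ) :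
    Integrable (fun t => pk (t - z) y * g t) := by
  obtain ⟨C, _, hC⟩ := bd_pk_upper hy z
  refine bd_int hg (bd_cont_pk hy z) (C := C) fun t => ?_
  rw [abs_of_nonneg (bd_pk_nonneg hy _)]
  exact hC t

theorem PI_nonneg {g : ℝ → ℝ} (hg : ∀ t, 0 ≤ g t) {y : ℝ} (hy : 0 < y) (z : ℝ) :
    0 ≤ PI g z y :=
  integral_nonneg fun t => mul_nonneg (bd_pk_nonneg hy _) (hg t)

theorem abs_PI_le {g : ℝ → ℝ} {y : ℝ} (hy : 0 < y) (z : ℝ) :
    |PI g z y| ≤ PI (fun t => |g t|) z y := by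
  unfold PI
  refine (abs_integral_le_integral_abs).trans (le_of_eq ?_)
  refine integral_congr_ae (Filter.Eventually.of_forall fun t => ?_)
  simp only [abs_mul, abs_of_nonneg (bd_pk_nonneg hy (t - z))]

theorem bd_abs_le {g K : ℝ → ℝ} (hg : PT g) {y : ℝ} (hy : 0 < y) (z : ℝ)
    (hKb : ∀ t, |K t| ≤ pk (t - z) y / y) :
    |∫ t, K t * g t| ≤ PI (fun t => |g t|) z y / y := by
  have h1 : PI (fun t => |g t|) z y / y = ∫ t, pk (t - z) y * |g t| / y := by
    unfold PI
    rw [integral_div]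
  rw [h1]
  refine (abs_integral_le_integral_abs).trans ?_
  have hi : Integrable (fun t => pk (t - z) y * |g t| / y) :=
    (integrable_pk (pt_abs hg) hy z).div_const y
  refine integral_mono_of_nonneg (Filter.Eventually.of_forall fun t => abs_nonneg _) hi
    (Filter.Eventually.of_forall fun t => ?_)
  simp only
  rw [abs_mul]
  calc |K t| * |g t| ≤ pk (t - z) y / y * |g t| :=
        mul_le_mul_of_nonneg_right (hKb t) (abs_nonneg _)
    _ = pk (t - z) y * |g t| / y := by ring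

theorem abs_PIz_le {g : ℝ → ℝ} (hg : PT g) {y : ℝ} (hy : 0 < y) (z : ℝ) :
    |PIz g z y| ≤ PI (fun t => |g t|) z y / y :=
  bd_abs_le hg hy z fun t => bd_pkz_le hy (t - z)

theorem abs_PIy_le {g : ℝ → ℝ} (hg : PT g) {y : ℝ} (hy : 0 < y) (z : ℝ) :
    |PIy g z y| ≤ PI (fun t => |g t|) z y / y :=
  bd_abs_le hg hy z fun t => bd_pky_le hy (t - z)

/-! ### the total mass of the kernel -/

theorem bd_pk_scale {y : ℝ} (hy : 0 < y) (z u : ℝ) :
    pk (u * y + z - z) y = (1 / Real.pi) * y⁻¹ * (1 + u ^ 2)⁻¹ := by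
  unfold pk
  have hpi := Real.pi_pos
  have h1 : (0 : ℝ) < 1 + u ^ 2 := by positivity
  have h2 : (u * y + z - z) ^ 2 + y ^ 2 = y ^ 2 * (1 + u ^ 2) := by ring
  rw [h2]
  field_simp

theorem bd_integral_pk {y : ℝ} (hy : 0 < y) (z : ℝ) : ∫ t, pk (t - z) y = 1 := by
  have hpi := Real.pi_pos
  have h0 : ∫ t, pk (t - z) y = ∫ t, pk t y := integral_sub_right_eq_self (fun t => pk t y) z
  rw [h0]
  have h1 : ∫ u : ℝ, pk (u * y) y = |y⁻¹| • ∫ t, pk t y :=
    Measure.integral_comp_mul_right (fun t => pk t y) y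
  have h2 : ∫ u : ℝ, pk (u * y) y = ∫ u : ℝ, (1 / Real.pi) * y⁻¹ * (1 + u ^ 2)⁻¹ := by
    refine integral_congr_ae (Filter.Eventually.of_forall fun u => ?_)
    have := bd_pk_scale hy 0 u
    simpa using this
  rw [h2, integral_const_mul, integral_univ_inv_one_add_sq, abs_of_pos (by positivity),
    smul_eq_mul] at h1
  have h3 : (1 / Real.pi) * y⁻¹ * Real.pi = y⁻¹ := by
    field_simp
  rw [h3] at h1
  have h4 : y⁻¹ ≠ 0 := (inv_pos.mpr hy).ne'
  have h5 : y⁻¹ * 1 = y⁻¹ * ∫ t, pk t y := by rw [mul_one]; exact h1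
  exact (mul_left_cancel₀ h4 h5).symm

theorem bd_pt_one : PT (fun _ => (1 : ℝ)) := by
  unfold PT
  have h := integrable_inv_one_add_sq
  refine h.congr (Filter.Eventually.of_forall fun t => ?_)
  simp only [one_div]

theorem bd_PI_one {y : ℝ} (hy : 0 < y) (z : ℝ) : PI (fun _ => (1 : ℝ)) z y = 1 := by
  unfold PI
  simp only [mul_one]
  exact bd_integral_pk hy z

/-! ### Cauchy-Schwarz -/

/-- the general quadratic form: if `2 a h ≤ a^2 p + q` pointwise for all real `a`
then `(PI h)^2 ≤ PI p * PI q` -/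
theorem bd_cs {h p q : ℝ → ℝ} (hh : PT h) (hp : PT p) (hq : PT q)
    (H : ∀ a t : ℝ, 0 ≤ a ^ 2 * p t - 2 * a * h t + q t) {y : ℝ} (hy : 0 < y) (z : ℝ) :
    PI h z y ^ 2 ≤ PI p z y * PI q z y := by
  have hih := integrable_pk hh hy z
  have hip := integrable_pk hp hy z
  have hiq := integrable_pk hq hy z
  have key : ∀ a : ℝ, 0 ≤ PI p z y * (a * a) + (-2 * PI h z y) * a + PI q z y := by
    intro a
    have h1 : 0 ≤ ∫ t, (a ^ 2 * (pk (t - z) y * p t) - 2 * a * (pk (t - z) y * h t) +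
        pk (t - z) y * q t) := by
      refine integral_nonneg fun t => ?_
      have h2 := mul_nonneg (bd_pk_nonneg hy (t - z)) (H a t)
      simp only [Pi.zero_apply]
      calc (0 : ℝ) ≤ pk (t - z) y * (a ^ 2 * p t - 2 * a * h t + q t) := h2
        _ = _ := by ring
    have hA : Integrable (fun t => a ^ 2 * (pk (t - z) y * p t)) := hip.const_mul _
    have hB : Integrable (fun t => 2 * a * (pk (t - z) y * h t)) := hih.const_mul _
    have hC : Integrable (fun t => a ^ 2 * (pk (t - z) y * p t) -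
        2 * a * (pk (t - z) y * h t)) := hA.sub hB
    rw [integral_add hC hiq, integral_sub hA hB, integral_const_mul,
      integral_const_mul] at h1
    calc (0 : ℝ) ≤ _ := h1
      _ = _ := by unfold PI; ring
  have hd := discrim_le_zero key
  unfold discrim at hd
  nlinarith [hd]

theorem cs_one {w : ℝ → ℝ} (hw : ∀ t, 0 < w t) (h1 : PT w) (h2 : PT (fun t => (w t)⁻¹))
    {y : ℝ} (hy : 0 < y) (z : ℝ) : 1 ≤ PI w z y * PI (fun t => (w t)⁻¹) z y := by
  have h3 := bd_cs bd_pt_one h1 h2 (fun a t => by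
    have hp := hw t
    have e : a ^ 2 * w t - 2 * a * 1 + (w t)⁻¹ = (w t)⁻¹ * (a * w t - 1) ^ 2 := by
      field_simp
      ring
    rw [e]
    positivity) hy z
  rw [bd_PI_one hy z] at h3
  linarith

theorem bd_pt_of_int {g : ℝ → ℝ} (hg : Integrable g) : PT g := by
  unfold PT
  have h1 : Integrable (fun t : ℝ => (1 + t ^ 2)⁻¹ * g t) := by
    refine hg.bdd_mul (c := 1) ?_ ?_
    · refine Continuous.aestronglyMeasurable ?_
      refine Continuous.inv₀ (by fun_prop) fun t => ?_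
      positivity
    · refine Filter.Eventually.of_forall fun t => ?_
      have h2 : (0 : ℝ) < 1 + t ^ 2 := by positivity
      rw [Real.norm_eq_abs, abs_of_pos (by positivity)]
      exact inv_le_one_of_one_le₀ (by nlinarith [sq_nonneg t])
  refine h1.congr (Filter.Eventually.of_forall fun t => ?_)
  simp only
  rw [div_eq_mul_inv, mul_comm]

theorem bd_am {w f : ℝ} (hw : 0 < w) : |f| ≤ f ^ 2 * w + w⁻¹ := by
  have e : f ^ 2 * w + w⁻¹ - |f| = w⁻¹ * ((|f| * w - 1 / 2) ^ 2 + 3 / 4) := by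
    rw [← sq_abs f]
    field_simp
    ring
  have h : 0 ≤ w⁻¹ * ((|f| * w - 1 / 2) ^ 2 + 3 / 4) := by positivity
  linarith

theorem pt_of_cs {w f : ℝ → ℝ} (hf : Measurable f) (hw : ∀ t, 0 < w t)
    (hX : Integrable (fun t => f t ^ 2 * w t)) (h2 : PT (fun t => (w t)⁻¹)) : PT f := by
  have h1 := bd_pt_of_int hX
  unfold PT at *
  refine (h1.add h2).mono' ?_ (Filter.Eventually.of_forall fun t => ?_)
  · exact (hf.div (by fun_prop)).aestronglyMeasurable
  · have h3 : (0 : ℝ) < 1 + t ^ 2 := by positivity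
    rw [Real.norm_eq_abs, abs_div, abs_of_pos h3]
    simp only [Pi.add_apply]
    rw [← add_div]
    exact div_le_div_of_nonneg_right (bd_am (hw t)) h3.le

theorem cs_two {w f : ℝ → ℝ} (hf : Measurable f) (hw : ∀ t, 0 < w t)
    (hX : Integrable (fun t => f t ^ 2 * w t)) (h2 : PT (fun t => (w t)⁻¹))
    {y : ℝ} (hy : 0 < y) (z : ℝ) :
    PI (fun t => |f t|) z y ^ 2 ≤
      PI (fun t => f t ^ 2 * w t) z y * PI (fun t => (w t)⁻¹) z y := by
  refine bd_cs (pt_abs (pt_of_cs hf hw hX h2)) (bd_pt_of_int hX) h2 (fun a t => ?_) hy z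
  have hp := hw t
  have e : a ^ 2 * (f t ^ 2 * w t) - 2 * a * |f t| + (w t)⁻¹ =
      (w t)⁻¹ * (a * |f t| * w t - 1) ^ 2 := by
    rw [← sq_abs (f t)]
    field_simp
    ring
  rw [e]
  positivity

theorem bd_pk_lower {y : ℝ} (hy : 0 < y) {s : ℝ} (hs : |s| < y) :
    1 ≤ 2 * Real.pi * y * pk s y := by
  unfold pk
  have hpi := Real.pi_pos
  have hD : 0 < s ^ 2 + y ^ 2 := by positivity
  have e : 2 * Real.pi * y * ((1 / Real.pi) * (y / (s ^ 2 + y ^ 2))) =
      2 * y ^ 2 / (s ^ 2 + y ^ 2) := by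
    field_simp
  rw [e, le_div_iff₀ hD]
  have h1 : s ^ 2 < y ^ 2 := sq_lt_sq' (by linarith [(abs_lt.mp hs).1]) (abs_lt.mp hs).2
  linarith

set_option linter.unusedVariables false in
theorem ball_le {w : ℝ → ℝ} (hw : ∀ t, 0 < w t) (hm : Measurable w) (h1 : PT w)
    {y : ℝ} (hy : 0 < y) (z : ℝ) :
    ∫⁻ t in Ioo (z - y) (z + y), ENNReal.ofReal (w t) ≤
      ENNReal.ofReal (2 * Real.pi * (y * PI w z y)) := by
  have hpi := Real.pi_pos
  have hi : Integrable (fun t => 2 * Real.pi * y * (pk (t - z) y * w t)) :=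
    (integrable_pk h1 hy z).const_mul _
  have e : 2 * Real.pi * (y * PI w z y) = ∫ t, 2 * Real.pi * y * (pk (t - z) y * w t) := by
    rw [integral_const_mul]
    unfold PI
    ring
  rw [e, ofReal_integral_eq_lintegral_ofReal hi (Filter.Eventually.of_forall fun t => by
    have := bd_pk_nonneg hy (t - z)
    have := hw t
    simp only [Pi.zero_apply]
    positivity)]
  calc ∫⁻ t in Ioo (z - y) (z + y), ENNReal.ofReal (w t)
      ≤ ∫⁻ t in Ioo (z - y) (z + y), ENNReal.ofReal (2 * Real.pi * y * (pk (t - z) y * w t)) := by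
        refine setLIntegral_mono' measurableSet_Ioo fun t ht => ENNReal.ofReal_le_ofReal ?_
        have hs : |t - z| < y := by
          rw [abs_lt]
          constructor <;> linarith [ht.1, ht.2]
        have h2 := bd_pk_lower hy hs
        calc w t = 1 * w t := (one_mul _).symm
          _ ≤ (2 * Real.pi * y * pk (t - z) y) * w t :=
            mul_le_mul_of_nonneg_right h2 (hw t).le
          _ = _ := by ring
    _ ≤ ∫⁻ t, ENNReal.ofReal (2 * Real.pi * y * (pk (t - z) y * w t)) :=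
        setLIntegral_le_lintegral _ _

end Pool.Agent.TH407.GS
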