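import Pool.Agent.TH407.GS.Defs

/-!
The Bellman function `2X - x^2/V - x^2/(2V - 1/(W^2 V))`: derivatives along curves, concavity and
bounds (job GS-BEL of helper407).
-/

set_option autoImplicit false
open MeasureTheory Set Filter Topology
open scoped ENNReal NNReal
open Pool.Agent.TH280.MZ

namespace Pool.Agent.TH407.GS

/-- bounds for `1 / (W ^ 2 V)` and `Mf` -/
theorem be_N_le {V W : ℝ} (hV : 0 < V) (hW : 0 < W) (h1 : 1 ≤ W * V) :
    1 / (W ^ 2 * V) ≤ V := by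
  rw [div_le_iff₀ (by positivity)]
  have : V * (W ^ 2 * V) = (W * V) ^ 2 := by ring
  rw [this]
  exact one_le_pow₀ h1

theorem be_N_pos {V W : ℝ} (hV : 0 < V) (hW : 0 < W) : 0 < 1 / (W ^ 2 * V) := by positivity

theorem be_V_le_M {V W : ℝ} (hV : 0 < V) (hW : 0 < W) (h1 : 1 ≤ W * V) : V ≤ Mf V W := by
  have := be_N_le hV hW h1
  unfold Mf
  linarith

theorem be_M_le {V W : ℝ} (hV : 0 < V) (hW : 0 < W) : Mf V W ≤ 2 * V := by
  have := be_N_pos hV hW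
  unfold Mf
  linarith

theorem be_M_pos {V W : ℝ} (hV : 0 < V) (hW : 0 < W) (h1 : 1 ≤ W * V) : 0 < Mf V W :=
  lt_of_lt_of_le hV (be_V_le_M hV hW h1)

/-- derivative of `x ^ 2 / M` -/
theorem be_q1 {x M : ℝ → ℝ} {t x1 m1 : ℝ} (hM : M t ≠ 0)
    (hx : HasDerivAt x x1 t) (hm : HasDerivAt M m1 t) :
    HasDerivAt (fun s => x s ^ 2 / M s) (2 * x t * x1 / M t - x t ^ 2 * m1 / M t ^ 2) t := by
  have h := (hx.fun_pow 2).fun_div hm hM
  refine h.congr_deriv ?_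
  field_simp
  ring

/-- second derivative of `x ^ 2 / M` -/
theorem be_q2 {x M x1 m1 : ℝ → ℝ} {t x2 m2 : ℝ} (hM : M t ≠ 0)
    (hx : HasDerivAt x (x1 t) t) (hm : HasDerivAt M (m1 t) t)
    (hx2 : HasDerivAt x1 x2 t) (hm2 : HasDerivAt m1 m2 t) :
    HasDerivAt (fun s => 2 * x s * x1 s / M s - x s ^ 2 * m1 s / M s ^ 2)
      (2 / M t * (x1 t - x t * m1 t / M t) ^ 2 + 2 * x t / M t * x2
        - x t ^ 2 / M t ^ 2 * m2) t := by
  have hM2 : M t ^ 2 ≠ 0 := pow_ne_zero 2 hM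
  have h1 := (((hx.const_mul 2).fun_mul hx2)).fun_div hm hM
  have h2 := (((hx.fun_pow 2).fun_mul hm2)).fun_div (hm.fun_pow 2) hM2
  have h := h1.fun_sub h2
  refine h.congr_deriv ?_
  field_simp
  ring

theorem be_M1 {V W : ℝ → ℝ} {t V1 W1 : ℝ} (hV : V t ≠ 0) (hW : W t ≠ 0)
    (hV1 : HasDerivAt V V1 t) (hW1 : HasDerivAt W W1 t) :
    HasDerivAt (fun s => Mf (V s) (W s)) (M1 (V t) (W t) V1 W1) t := by
  have hne : W t ^ 2 * V t ≠ 0 := mul_ne_zero (pow_ne_zero 2 hW) hV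
  have h := (hV1.const_mul 2).fun_sub ((hasDerivAt_const t (1 : ℝ)).fun_div
    ((hW1.fun_pow 2).fun_mul hV1) hne)
  unfold Mf M1
  refine h.congr_deriv ?_
  field_simp
  ring

theorem be_M2 {V W V1 W1 : ℝ → ℝ} {t V2 W2 : ℝ} (hV : V t ≠ 0) (hW : W t ≠ 0)
    (hV1 : HasDerivAt V (V1 t) t) (hW1 : HasDerivAt W (W1 t) t)
    (hV2 : HasDerivAt V1 V2 t) (hW2 : HasDerivAt W1 W2 t) :
    HasDerivAt (fun s => M1 (V s) (W s) (V1 s) (W1 s))
      (2 * V2 + (2 * W2 / W t + V2 / V t) / (W t ^ 2 * V t) -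
        ((2 * W1 t / W t + V1 t / V t) ^ 2 + 2 * (W1 t / W t) ^ 2 + (V1 t / V t) ^ 2) /
          (W t ^ 2 * V t)) t := by
  have hne : W t ^ 2 * V t ≠ 0 := mul_ne_zero (pow_ne_zero 2 hW) hV
  have h := (hV2.const_mul 2).fun_add
    ((((hW2.const_mul 2).fun_div hW1 hW).fun_add (hV2.fun_div hV1 hV)).fun_div
      ((hW1.fun_pow 2).fun_mul hV1) hne)
  unfold M1
  refine h.congr_deriv ?_
  field_simp
  ring

theorem bell_d1 {x X V W : ℝ → ℝ} {t x1 X1 V1 W1 : ℝ} (hV : 0 < V t) (hW : 0 < W t)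
    (hVW : 1 ≤ W t * V t)
    (hx : HasDerivAt x x1 t) (hX : HasDerivAt X X1 t) (hV1 : HasDerivAt V V1 t)
    (hW1 : HasDerivAt W W1 t) :
    HasDerivAt (fun s => Bf (x s) (X s) (V s) (W s)) (B1 (x t) (X t) (V t) (W t) x1 X1 V1 W1) t :=
  by
  have hM := be_M_pos hV hW hVW
  have hm := be_M1 hV.ne' hW.ne' hV1 hW1
  have h1 := be_q1 hV.ne' hx hV1
  have h2 := be_q1 (M := fun s => Mf (V s) (W s)) hM.ne' hx hm
  exact ((hX.const_mul 2).fun_sub h1).fun_sub h2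

theorem bell_d2 {x X V W x1 X1 V1 W1 : ℝ → ℝ} {t x2 X2 V2 W2 : ℝ} (hV : 0 < V t) (hW : 0 < W t)
    (hVW : 1 ≤ W t * V t)
    (hx : HasDerivAt x (x1 t) t) (hX : HasDerivAt X (X1 t) t) (hV1 : HasDerivAt V (V1 t) t)
    (hW1 : HasDerivAt W (W1 t) t)
    (hx2 : HasDerivAt x1 x2 t) (hX2 : HasDerivAt X1 X2 t) (hV2 : HasDerivAt V1 V2 t)
    (hW2 : HasDerivAt W1 W2 t) :
    HasDerivAt (fun s => B1 (x s) (X s) (V s) (W s) (x1 s) (X1 s) (V1 s) (W1 s))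
      (B2 (x t) (X t) (V t) (W t) (x1 t) (X1 t) (V1 t) (W1 t) x2 X2 V2 W2) t := by
  have hM := be_M_pos hV hW hVW
  have hm := be_M1 hV.ne' hW.ne' hV1 hW1
  have hm2 := be_M2 hV.ne' hW.ne' hV1 hW1 hV2 hW2
  have h1 := be_q2 hV.ne' hx hV1 hx2 hV2
  have h2 := be_q2 (M := fun s => Mf (V s) (W s))
    (m1 := fun s => M1 (V s) (W s) (V1 s) (W1 s)) hM.ne' hx hm hx2 hm2
  have h := ((hX2.const_mul 2).fun_sub h1).fun_sub h2
  refine h.congr_deriv ?_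
  unfold B2
  ring

/-- the estimate for one direction -/
theorem be_dir {Q x V W x1 V1 W1 : ℝ} (hV : 0 < V) (hW : 0 < W)
    (h1 : 1 ≤ W * V) (hQ : W * V ≤ Q) :
    W / (8 * Q ^ 3) * x1 ^ 2 ≤
      2 / V * (x1 - x * V1 / V) ^ 2 + 2 / Mf V W * (x1 - x * M1 V W V1 W1 / Mf V W) ^ 2 +
      (x ^ 2 / Mf V W ^ 2) *
        (((2 * W1 / W + V1 / V) ^ 2 + 2 * (W1 / W) ^ 2 + (V1 / V) ^ 2) / (W ^ 2 * V)) := by
  have hM := be_M_pos hV hW h1
  have hM2 := be_M_le hV hW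
  have hQ1 : 1 ≤ Q := h1.trans hQ
  have hQ0 : 0 < Q := by linarith
  set M := Mf V W with hMdef
  set b := V1 / V with hb
  have e1 : x * V1 / V = x * b := by rw [hb]; ring
  rw [e1]
  have t2 : 0 ≤ 2 / M * (x1 - x * M1 V W V1 W1 / M) ^ 2 := by positivity
  -- the third term
  have t3 : W / (4 * Q ^ 3) * (x * b) ^ 2 ≤ (x ^ 2 / M ^ 2) *
        (((2 * W1 / W + b) ^ 2 + 2 * (W1 / W) ^ 2 + b ^ 2) / (W ^ 2 * V)) := by
    have s1 : b ^ 2 / (W ^ 2 * V) ≤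
        ((2 * W1 / W + b) ^ 2 + 2 * (W1 / W) ^ 2 + b ^ 2) / (W ^ 2 * V) := by
      apply div_le_div_of_nonneg_right _ (by positivity)
      nlinarith [sq_nonneg (2 * W1 / W + b), sq_nonneg (W1 / W)]
    have s2 : x ^ 2 / (2 * V) ^ 2 ≤ x ^ 2 / M ^ 2 := by
      apply div_le_div_of_nonneg_left (sq_nonneg x) (by positivity)
      exact pow_le_pow_left₀ hM.le hM2 2
    have s3 : x ^ 2 / (2 * V) ^ 2 * (b ^ 2 / (W ^ 2 * V)) ≤ (x ^ 2 / M ^ 2) *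
        (((2 * W1 / W + b) ^ 2 + 2 * (W1 / W) ^ 2 + b ^ 2) / (W ^ 2 * V)) :=
      mul_le_mul s2 s1 (by positivity) (by positivity)
    refine le_trans ?_ s3
    have s4 : x ^ 2 / (2 * V) ^ 2 * (b ^ 2 / (W ^ 2 * V)) =
        W / (4 * (W * V) ^ 3) * (x * b) ^ 2 := by
      field_simp
      ring
    rw [s4]
    apply mul_le_mul_of_nonneg_right _ (sq_nonneg _)
    apply div_le_div_of_nonneg_left hW.le (by positivity)
    have := pow_le_pow_left₀ (by positivity : (0 : ℝ) ≤ W * V) hQ 3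
    linarith
  have t1 : W / (4 * Q ^ 3) * (x1 - x * b) ^ 2 ≤ 2 / V * (x1 - x * b) ^ 2 := by
    apply mul_le_mul_of_nonneg_right _ (sq_nonneg _)
    rw [div_le_div_iff₀ (by positivity) hV]
    have : Q ≤ Q ^ 3 := by
      calc Q = Q * 1 := by ring
        _ ≤ Q * Q ^ 2 := mul_le_mul_of_nonneg_left (one_le_pow₀ hQ1) hQ0.le
        _ = Q ^ 3 := by ring
    nlinarith
  have t0 : W / (8 * Q ^ 3) * x1 ^ 2 ≤
      W / (4 * Q ^ 3) * (x1 - x * b) ^ 2 + W / (4 * Q ^ 3) * (x * b) ^ 2 := by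
    have e : W / (4 * Q ^ 3) = 2 * (W / (8 * Q ^ 3)) := by
      field_simp
      ring
    rw [e]
    have hp : 0 ≤ W / (8 * Q ^ 3) := by positivity
    have : x1 ^ 2 ≤ 2 * (x1 - x * b) ^ 2 + 2 * (x * b) ^ 2 := by
      nlinarith [sq_nonneg (x1 - 2 * (x * b))]
    nlinarith [mul_le_mul_of_nonneg_left this hp]
  linarith

theorem bell_ineq {Q x X V W xz Xz Vz Wz xy Xy Vy Wy x2 X2 V2 W2 : ℝ} (hV : 0 < V) (hW : 0 < W)
    (h1 : 1 ≤ W * V) (hQ : W * V ≤ Q) :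
    B2 x X V W xz Xz Vz Wz x2 X2 V2 W2 + B2 x X V W xy Xy Vy Wy (-x2) (-X2) (-V2) (-W2) ≤
      -(W / (8 * Q ^ 3) * (xz ^ 2 + xy ^ 2)) := by
  have a := be_dir (Q := Q) (x := x) (x1 := xz) (V1 := Vz) (W1 := Wz) hV hW h1 hQ
  have b := be_dir (Q := Q) (x := x) (x1 := xy) (V1 := Vy) (W1 := Wy) hV hW h1 hQ
  have e : B2 x X V W xz Xz Vz Wz x2 X2 V2 W2 + B2 x X V W xy Xy Vy Wy (-x2) (-X2) (-V2) (-W2) =
      -(2 / V * (xz - x * Vz / V) ^ 2 + 2 / Mf V W * (xz - x * M1 V W Vz Wz / Mf V W) ^ 2 +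
      (x ^ 2 / Mf V W ^ 2) *
        (((2 * Wz / W + Vz / V) ^ 2 + 2 * (Wz / W) ^ 2 + (Vz / V) ^ 2) / (W ^ 2 * V))) -
      (2 / V * (xy - x * Vy / V) ^ 2 + 2 / Mf V W * (xy - x * M1 V W Vy Wy / Mf V W) ^ 2 +
      (x ^ 2 / Mf V W ^ 2) *
        (((2 * Wy / W + Vy / V) ^ 2 + 2 * (Wy / W) ^ 2 + (Vy / V) ^ 2) / (W ^ 2 * V))) := by
    unfold B2
    ring
  rw [e]
  linarith

theorem be_X_nonneg {x X V : ℝ} (hV : 0 < V) (hx : x ^ 2 ≤ X * V) : 0 ≤ X := by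
  have h : 0 ≤ X * V := (sq_nonneg x).trans hx
  exact nonneg_of_mul_nonneg_left h hV

theorem be_x2V {x X V : ℝ} (hV : 0 < V) (hx : x ^ 2 ≤ X * V) : x ^ 2 / V ≤ X := by
  rwa [div_le_iff₀ hV]

theorem bell_range {x X V W : ℝ} (hV : 0 < V) (hW : 0 < W) (h1 : 1 ≤ W * V)
    (hx : x ^ 2 ≤ X * V) : 0 ≤ Bf x X V W ∧ Bf x X V W ≤ 2 * X := by
  have hM := be_M_pos hV hW h1
  have hVM := be_V_le_M hV hW h1
  have a := be_x2V hV hx
  have b : x ^ 2 / Mf V W ≤ x ^ 2 / V := div_le_div_of_nonneg_left (sq_nonneg x) hV hVM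
  have c : 0 ≤ x ^ 2 / V := by positivity
  have d : 0 ≤ x ^ 2 / Mf V W := by positivity
  unfold Bf
  constructor <;> linarith

theorem bell_B1 {r x X V W x1 X1 V1 W1 : ℝ} (hr : 0 ≤ r) (hV : 0 < V) (hW : 0 < W)
    (h1 : 1 ≤ W * V) (hx : x ^ 2 ≤ X * V) (hx1 : x1 ^ 2 ≤ r ^ 2 * (X * V)) (hX1 : |X1| ≤ r * X)
    (hV1 : |V1| ≤ r * V) (hW1 : |W1| ≤ r * W) :
    |B1 x X V W x1 X1 V1 W1| ≤ 12 * r * X := by
  have hM := be_M_pos hV hW h1
  have hVM := be_V_le_M hV hW h1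
  have hN := be_N_le hV hW h1
  have hN0 := be_N_pos hV hW
  have hX := be_X_nonneg hV hx
  set M := Mf V W with hMdef
  have hxx : |x * x1| ≤ r * X * V := by
    apply abs_le_of_sq_le_sq _ (by positivity)
    have := mul_le_mul hx hx1 (sq_nonneg _) (by positivity)
    calc (x * x1) ^ 2 = x ^ 2 * x1 ^ 2 := by ring
      _ ≤ X * V * (r ^ 2 * (X * V)) := this
      _ = (r * X * V) ^ 2 := by ring
  have p1 : |2 * x * x1 / V| ≤ 2 * r * X := by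
    rw [abs_div, abs_of_pos hV, div_le_iff₀ hV]
    calc |2 * x * x1| = 2 * |x * x1| := by rw [mul_assoc, abs_mul, abs_of_pos (by norm_num)]
      _ ≤ 2 * (r * X * V) := by linarith
      _ = 2 * r * X * V := by ring
  have p2 : |2 * x * x1 / M| ≤ 2 * r * X := by
    rw [abs_div, abs_of_pos hM, div_le_iff₀ hM]
    calc |2 * x * x1| = 2 * |x * x1| := by rw [mul_assoc, abs_mul, abs_of_pos (by norm_num)]
      _ ≤ 2 * (r * X * V) := by linarith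
      _ = 2 * r * X * V := by ring
      _ ≤ 2 * r * X * M := mul_le_mul_of_nonneg_left hVM (by positivity)
  have p3 : |x ^ 2 * V1 / V ^ 2| ≤ r * X := by
    rw [abs_div, abs_of_pos (by positivity : (0 : ℝ) < V ^ 2), div_le_iff₀ (by positivity),
      abs_mul, abs_of_nonneg (sq_nonneg x)]
    calc x ^ 2 * |V1| ≤ X * V * (r * V) := mul_le_mul hx hV1 (abs_nonneg _) (by positivity)
      _ = r * X * V ^ 2 := by ring
  have hM1 : |M1 V W V1 W1| ≤ 5 * r * V := by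
    have q1 : |W1 / W| ≤ r := by
      rw [abs_div, abs_of_pos hW, div_le_iff₀ hW]
      exact hW1
    have q2 : |V1 / V| ≤ r := by
      rw [abs_div, abs_of_pos hV, div_le_iff₀ hV]
      exact hV1
    have q3 : |2 * W1 / W + V1 / V| ≤ 3 * r := by
      have := abs_le.1 q1
      have := abs_le.1 q2
      rw [mul_div_assoc]
      rw [abs_le]
      constructor <;> linarith
    have q4 : |(2 * W1 / W + V1 / V) / (W ^ 2 * V)| ≤ 3 * r * V := by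
      rw [div_eq_mul_one_div, abs_mul, abs_of_pos hN0]
      exact mul_le_mul q3 hN hN0.le (by positivity)
    have q5 := abs_le.1 q4
    have q6 := abs_le.1 hV1
    unfold M1
    rw [abs_le]
    constructor <;> nlinarith
  have p4 : |x ^ 2 * M1 V W V1 W1 / M ^ 2| ≤ 5 * r * X := by
    rw [abs_div, abs_of_pos (by positivity : (0 : ℝ) < M ^ 2), div_le_iff₀ (by positivity),
      abs_mul, abs_of_nonneg (sq_nonneg x)]
    calc x ^ 2 * |M1 V W V1 W1| ≤ X * V * (5 * r * V) :=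
          mul_le_mul hx hM1 (abs_nonneg _) (by positivity)
      _ = 5 * r * X * V ^ 2 := by ring
      _ ≤ 5 * r * X * M ^ 2 :=
          mul_le_mul_of_nonneg_left (pow_le_pow_left₀ hV.le hVM 2) (by positivity)
  have a0 := abs_le.1 hX1
  have a1 := abs_le.1 p1
  have a2 := abs_le.1 p2
  have a3 := abs_le.1 p3
  have a4 := abs_le.1 p4
  unfold B1
  rw [← hMdef, abs_le]
  constructor <;> linarith

end Pool.Agent.TH407.GS
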