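import Pool.Agent.TH407.GS.Defs

/-!
# GS-INT: measurability, integral in `z` and decay of Poisson integrals (job 3846, helper986)
-/

set_option autoImplicit false
open MeasureTheory Set Filter Topology
open scoped ENNReal NNReal
open Pool.Agent.TH280.MZ
namespace Pool.Agent.TH407.GS

theorem nt_meas {g : ℝ → ℝ} (hg : Measurable g) {k : ℝ → ℝ → ℝ}
    (hk : Measurable (fun p : ℝ × ℝ => k p.1 p.2)) :
    Measurable (fun q : ℝ × ℝ => ∫ t, k (t - q.1) q.2 * g t) := by
  have h1 : Measurable (fun p : (ℝ × ℝ) × ℝ => k (p.2 - p.1.1) p.1.2 * g p.2) := by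
    have h2 : Measurable (fun p : (ℝ × ℝ) × ℝ => ((p.2 - p.1.1, p.1.2) : ℝ × ℝ)) := by fun_prop
    have h3 : Measurable (fun p : (ℝ × ℝ) × ℝ => g p.2) := hg.comp measurable_snd
    exact (hk.comp h2).mul h3
  exact (h1.stronglyMeasurable.integral_prod_right' (ν := volume)).measurable

theorem measurable_PI {g : ℝ → ℝ} (hg : Measurable g) :
    Measurable (fun q : ℝ × ℝ => PI g q.1 q.2) ∧ Measurable (fun q : ℝ × ℝ => PIz g q.1 q.2) ∧
    Measurable (fun q : ℝ × ℝ => PIy g q.1 q.2) ∧ Measurable (fun q : ℝ × ℝ => PIzz g q.1 q.2) := by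
  refine ⟨nt_meas hg ?_, nt_meas hg ?_, nt_meas hg ?_, nt_meas hg ?_⟩
  · unfold pk
    fun_prop
  · unfold pkz
    fun_prop
  · unfold pky
    fun_prop
  · unfold pkzz
    fun_prop

theorem nt_pk_cont {y : ℝ} (hy : 0 < y) : Continuous (fun s : ℝ => pk s y) := by
  unfold pk
  apply continuous_const.mul
  apply Continuous.div continuous_const (by fun_prop)
  intro s
  positivity

theorem nt_pk_nonneg (s : ℝ) {y : ℝ} (hy : 0 < y) : 0 ≤ pk s y := by
  unfold pk
  positivity

theorem nt_pk_le (s : ℝ) {y : ℝ} (hy : 0 < y) : pk s y ≤ 1 / (Real.pi * y) := by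
  unfold pk
  rw [one_div_mul_eq_div, div_div, div_le_div_iff₀ (by positivity) (by positivity)]
  nlinarith [mul_nonneg Real.pi_pos.le (sq_nonneg s)]

theorem nt_pk_even (s y : ℝ) : pk (-s) y = pk s y := by
  unfold pk
  rw [neg_sq]

theorem nt_pk_eq (s : ℝ) {y : ℝ} (hy : 0 < y) :
    pk s y = (1 / (Real.pi * y)) * (1 + (s / y) ^ 2)⁻¹ := by
  unfold pk
  have := Real.pi_pos
  field_simp
  ring

theorem nt_pk_int {y : ℝ} (hy : 0 < y) : Integrable (fun s : ℝ => pk s y) := by
  have h1 : (fun s : ℝ => pk s y) = fun s => (1 / (Real.pi * y)) * (1 + (s / y) ^ 2)⁻¹ := by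
    funext s
    exact nt_pk_eq s hy
  rw [h1]
  exact (integrable_inv_one_add_sq.comp_div hy.ne').const_mul _

theorem nt_pk_integral {y : ℝ} (hy : 0 < y) : ∫ s : ℝ, pk s y = 1 := by
  have h1 : (fun s : ℝ => pk s y) = fun s => (1 / (Real.pi * y)) * (1 + (s / y) ^ 2)⁻¹ := by
    funext s
    exact nt_pk_eq s hy
  have h2 := Measure.integral_comp_div (fun u : ℝ => (1 + u ^ 2)⁻¹) y
  rw [h1, integral_const_mul, h2, integral_univ_inv_one_add_sq, abs_of_pos hy, smul_eq_mul]
  have := Real.pi_pos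
  field_simp

theorem nt_pk_lint {y : ℝ} (hy : 0 < y) : ∫⁻ s : ℝ, ENNReal.ofReal (pk s y) = 1 := by
  rw [← ofReal_integral_eq_lintegral_ofReal (nt_pk_int hy)
    (Eventually.of_forall fun s => nt_pk_nonneg s hy), nt_pk_integral hy, ENNReal.ofReal_one]

theorem nt_int {g : ℝ → ℝ} (hi : Integrable g) {y : ℝ} (hy : 0 < y) (z : ℝ) :
    Integrable (fun t => pk (t - z) y * g t) := by
  apply hi.bdd_mul (c := 1 / (Real.pi * y))
  · exact ((nt_pk_cont hy).comp (continuous_id.sub continuous_const)).aestronglyMeasurable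
  · refine Eventually.of_forall fun t => ?_
    rw [Real.norm_eq_abs, abs_of_nonneg (nt_pk_nonneg _ hy)]
    exact nt_pk_le _ hy

theorem lint_PI {g : ℝ → ℝ} (hg : ∀ t, 0 ≤ g t) (hi : Integrable g) {y : ℝ} (hy : 0 < y) :
    ∫⁻ z, ENNReal.ofReal (PI g z y) = ∫⁻ t, ENNReal.ofReal (g t) := by
  have h1 : ∀ z, ENNReal.ofReal (PI g z y) =
      ∫⁻ t, ENNReal.ofReal (pk (t - z) y) * ENNReal.ofReal (g t) := by
    intro z
    unfold PI
    rw [ofReal_integral_eq_lintegral_ofReal (nt_int hi hy z)
      (Eventually.of_forall fun t => mul_nonneg (nt_pk_nonneg _ hy) (hg t))]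
    refine lintegral_congr fun t => ?_
    rw [ENNReal.ofReal_mul (nt_pk_nonneg _ hy)]
  simp only [h1]
  have hm1 : Measurable (fun p : ℝ × ℝ => ENNReal.ofReal (pk (p.2 - p.1) y)) :=
    ((nt_pk_cont hy).measurable.comp (measurable_snd.sub measurable_fst)).ennreal_ofReal
  rw [lintegral_lintegral_swap]
  · refine lintegral_congr fun t => ?_
    rw [lintegral_mul_const, lintegral_sub_left_eq_self (fun s => ENNReal.ofReal (pk s y)) t,
      nt_pk_lint hy, one_mul]
    exact ((nt_pk_cont hy).measurable.comp (measurable_const.sub measurable_id)).ennreal_ofReal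
  · apply hm1.aemeasurable.mul
    exact hi.aemeasurable.ennreal_ofReal.comp_quasiMeasurePreserving
      Measure.quasiMeasurePreserving_snd

theorem nt_tendsto (a : ℝ) :
    Tendsto (fun s : ℝ => pk s a) atTop (𝓝 0) := by
  have h1 : Tendsto (fun s : ℝ => s ^ 2 + a ^ 2) atTop atTop :=
    tendsto_atTop_add_const_right _ _ (tendsto_pow_atTop two_ne_zero)
  have h2 : Tendsto (fun s : ℝ => a / (s ^ 2 + a ^ 2)) atTop (𝓝 0) :=
    tendsto_const_nhds.div_atTop h1
  have h3 := h2.const_mul (1 / Real.pi)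
  rw [mul_zero] at h3
  exact h3

theorem nt_decay {g : ℝ → ℝ} (hg : ∀ t, 0 ≤ g t) (hi : Integrable g) {a : ℝ} (ha : 0 < a)
    (u : ℝ → ℝ) (hu : ∀ t : ℝ, Tendsto (fun R => pk (t - u R) a) atTop (𝓝 0)) :
    Tendsto (fun R : ℝ => PI g (u R) a) atTop (𝓝 0) := by
  have h := tendsto_integral_filter_of_dominated_convergence (μ := volume) (l := atTop)
    (F := fun (R : ℝ) (t : ℝ) => pk (t - u R) a * g t) (f := fun _ => (0 : ℝ))
    (fun t => (1 / (Real.pi * a)) * g t)
    (Eventually.of_forall fun R => (nt_int hi ha (u R)).aestronglyMeasurable)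
    (Eventually.of_forall fun R => Eventually.of_forall fun t => by
      rw [Real.norm_eq_abs, abs_of_nonneg (mul_nonneg (nt_pk_nonneg _ ha) (hg t))]
      exact mul_le_mul_of_nonneg_right (nt_pk_le _ ha) (hg t))
    (hi.const_mul _)
    (Eventually.of_forall fun t => by
      have h1 := (hu t).mul_const (g t)
      rw [zero_mul] at h1
      exact h1)
  rw [integral_zero] at h
  exact h

theorem decay {g : ℝ → ℝ} (hg : ∀ t, 0 ≤ g t) (hi : Integrable g) {a c ε : ℝ} (ha : 0 < a)
    (hε : 0 < ε) : ∀ᶠ R in atTop, ∀ y ∈ Icc a c, PI g R y ≤ ε ∧ PI g (-R) y ≤ ε := by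
  have h1 : Tendsto (fun R : ℝ => PI g R a) atTop (𝓝 0) := by
    apply nt_decay hg hi ha (fun R => R)
    intro t
    have h2 : (fun R : ℝ => pk (t - R) a) = fun R => (fun s => pk s a) (R + -t) := by
      funext R
      show pk (t - R) a = pk (R + -t) a
      rw [← nt_pk_even]
      congr 1
      ring
    rw [h2]
    exact (nt_tendsto a).comp (tendsto_atTop_add_const_right _ _ tendsto_id)
  have h2 : Tendsto (fun R : ℝ => PI g (-R) a) atTop (𝓝 0) := by
    apply nt_decay hg hi ha (fun R => -R)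
    intro t
    have h2 : (fun R : ℝ => pk (t - -R) a) = fun R => (fun s => pk s a) (R + t) := by
      funext R
      show pk (t - -R) a = pk (R + t) a
      congr 1
      ring
    rw [h2]
    exact (nt_tendsto a).comp (tendsto_atTop_add_const_right _ _ tendsto_id)
  rcases lt_or_ge c a with hca | hca
  · refine Eventually.of_forall fun R y hy => ?_
    exact absurd (hy.1.trans hy.2) (not_le.2 hca)
  · have hc : 0 < c := lt_of_lt_of_le ha hca
    have hε' : 0 < ε * (a / c) := by positivity
    filter_upwards [h1.eventually_le_const hε', h2.eventually_le_const hε'] with R hR1 hR2 y hy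
    have hy0 : 0 < y := lt_of_lt_of_le ha hy.1
    have hcmp : ∀ s, pk s y ≤ (c / a) * pk s a := by
      intro s
      unfold pk
      have hpi := Real.pi_pos
      have e1 : y / (s ^ 2 + y ^ 2) ≤ c / (s ^ 2 + a ^ 2) := by
        apply div_le_div₀ hc.le hy.2 (by positivity)
        have := mul_self_le_mul_self ha.le hy.1
        nlinarith
      have e2 : (c / a) * (1 / Real.pi * (a / (s ^ 2 + a ^ 2))) =
          1 / Real.pi * (c / (s ^ 2 + a ^ 2)) := by
        field_simp
      rw [e2]
      exact mul_le_mul_of_nonneg_left e1 (by positivity)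
    have hPI : ∀ z, PI g z y ≤ (c / a) * PI g z a := by
      intro z
      unfold PI
      rw [← integral_const_mul]
      apply integral_mono (nt_int hi hy0 z) ((nt_int hi ha z).const_mul _)
      intro t
      show pk (t - z) y * g t ≤ c / a * (pk (t - z) a * g t)
      rw [← mul_assoc]
      exact mul_le_mul_of_nonneg_right (hcmp _) (hg t)
    have hca' : (c / a) * (ε * (a / c)) = ε := by
      field_simp
    constructor
    · refine (hPI R).trans ?_
      rw [← hca']
      exact mul_le_mul_of_nonneg_left hR1 (by positivity)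
    · refine (hPI (-R)).trans ?_
      rw [← hca']
      exact mul_le_mul_of_nonneg_left hR2 (by positivity)

end Pool.Agent.TH407.GS
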