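import Pool.Agent.TH407.GS.Diff
import Pool.Agent.TH407.GS.Bds
import Pool.Agent.TH407.GS.Int
import Pool.Agent.TH407.GS.Bel
import Pool.Agent.TH407.GS.AreaA
import Pool.Agent.TH407.GS.AreaB

/-!
The weighted area integral inequality for `A_2` weights by the Bellman function.
-/

set_option autoImplicit false
open MeasureTheory Set Filter Topology
open scoped ENNReal NNReal
namespace Pool.Agent.TH407.GS

theorem ar_Mf_pos {V W : ℝ} (hV : 0 < V) (hW : 0 < W) (h1 : 1 ≤ W * V) : 0 < Mf V W := by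
  unfold Mf
  have h2 : 1 / (W ^ 2 * V) ≤ V := by
    rw [div_le_iff₀ (by positivity)]
    nlinarith [mul_pos hW hV]
  linarith

theorem ar_Bf_cont {S : Set (ℝ × ℝ)} {x X V W : ℝ × ℝ → ℝ} (hx : ContinuousOn x S)
    (hX : ContinuousOn X S) (hVc : ContinuousOn V S) (hWc : ContinuousOn W S)
    (hV : ∀ q ∈ S, 0 < V q) (hW : ∀ q ∈ S, 0 < W q) (h1 : ∀ q ∈ S, 1 ≤ W q * V q) :
    ContinuousOn (fun q => Bf (x q) (X q) (V q) (W q)) S := by
  have hV' : ∀ q ∈ S, V q ≠ 0 := fun q hq => (hV q hq).ne'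
  have hWV : ∀ q ∈ S, W q ^ 2 * V q ≠ 0 := fun q hq => by
    have := hV q hq; have := hW q hq; positivity
  have hM : ∀ q ∈ S, 2 * V q - 1 / (W q ^ 2 * V q) ≠ 0 := fun q hq =>
    (ar_Mf_pos (hV q hq) (hW q hq) (h1 q hq)).ne'
  unfold Bf Mf
  fun_prop (disch := assumption)

theorem ar_B2_cont {S : Set (ℝ × ℝ)} {x X V W x1 X1 V1 W1 x2 X2 V2 W2 : ℝ × ℝ → ℝ}
    (hx : ContinuousOn x S) (hVc : ContinuousOn V S) (hWc : ContinuousOn W S)
    (hx1 : ContinuousOn x1 S) (hVc1 : ContinuousOn V1 S)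
    (hWc1 : ContinuousOn W1 S)
    (hx2 : ContinuousOn x2 S) (hX2 : ContinuousOn X2 S) (hVc2 : ContinuousOn V2 S)
    (hWc2 : ContinuousOn W2 S)
    (hV : ∀ q ∈ S, 0 < V q) (hW : ∀ q ∈ S, 0 < W q) (h1 : ∀ q ∈ S, 1 ≤ W q * V q) :
    ContinuousOn (fun q => B2 (x q) (X q) (V q) (W q) (x1 q) (X1 q) (V1 q) (W1 q)
      (x2 q) (X2 q) (V2 q) (W2 q)) S := by
  have hV' : ∀ q ∈ S, V q ≠ 0 := fun q hq => (hV q hq).ne'
  have hV2 : ∀ q ∈ S, V q ^ 2 ≠ 0 := fun q hq => pow_ne_zero _ (hV' q hq)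
  have hW' : ∀ q ∈ S, W q ≠ 0 := fun q hq => (hW q hq).ne'
  have hWV : ∀ q ∈ S, W q ^ 2 * V q ≠ 0 := fun q hq => by
    have := hV q hq; have := hW q hq; positivity
  have hM : ∀ q ∈ S, 2 * V q - 1 / (W q ^ 2 * V q) ≠ 0 := fun q hq =>
    (ar_Mf_pos (hV q hq) (hW q hq) (h1 q hq)).ne'
  have hM2 : ∀ q ∈ S, (2 * V q - 1 / (W q ^ 2 * V q)) ^ 2 ≠ 0 := fun q hq =>
    pow_ne_zero _ (hM q hq)
  unfold B2 M1 Mf
  fun_prop (disch := assumption)

/-- hypotheses -/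
structure ArHyp (Q : ℝ) (w f : ℝ → ℝ) : Prop where
  Q1 : 1 ≤ Q
  wm : Measurable w
  w0 : ∀ t, 0 < w t
  p1 : PT w
  p2 : PT (fun t => (w t)⁻¹)
  pQ : ∀ z y, 0 < y → PI w z y * PI (fun t => (w t)⁻¹) z y ≤ Q
  fm : Measurable f
  fX : Integrable (fun t => f t ^ 2 * w t)

variable {Q : ℝ} {w f : ℝ → ℝ}

namespace ArHyp

theorem ptf (H : ArHyp Q w f) : PT f := pt_of_cs H.fm H.w0 H.fX H.p2

theorem ptX (H : ArHyp Q w f) : PT (fun t => f t ^ 2 * w t) := by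
  unfold PT
  have h2 : Continuous (fun t : ℝ => (1 + t ^ 2)⁻¹) := by
    apply Continuous.inv₀ (by fun_prop)
    intro t
    positivity
  have := H.fX.mul_bdd (c := 1) (g := fun t : ℝ => (1 + t ^ 2)⁻¹) h2.aestronglyMeasurable
    (Eventually.of_forall fun t => by
      rw [Real.norm_eq_abs, abs_of_pos (by positivity)]
      exact inv_le_one_of_one_le₀ (by nlinarith [sq_nonneg t]))
  simpa only [div_eq_mul_inv] using this

theorem X0 (H : ArHyp Q w f) (t : ℝ) : 0 ≤ f t ^ 2 * w t := mul_nonneg (sq_nonneg _) (H.w0 t).le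

theorem one_le (H : ArHyp Q w f) {y : ℝ} (hy : 0 < y) (z : ℝ) :
    1 ≤ PI w z y * PI (fun t => (w t)⁻¹) z y := cs_one H.w0 H.p1 H.p2 hy z

theorem Wpos (H : ArHyp Q w f) {y : ℝ} (hy : 0 < y) (z : ℝ) : 0 < PI w z y := by
  have h1 := H.one_le hy z
  have h2 : 0 ≤ PI w z y := PI_nonneg (fun t => (H.w0 t).le) hy z
  rcases h2.eq_or_lt with h | h
  · rw [← h] at h1; norm_num at h1
  · exact h

theorem Vpos (H : ArHyp Q w f) {y : ℝ} (hy : 0 < y) (z : ℝ) :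
    0 < PI (fun t => (w t)⁻¹) z y := by
  have h1 := H.one_le hy z
  have h2 : 0 ≤ PI (fun t => (w t)⁻¹) z y := PI_nonneg (fun t => (inv_pos.2 (H.w0 t)).le) hy z
  rcases h2.eq_or_lt with h | h
  · rw [← h] at h1; norm_num at h1
  · exact h

theorem Xnn (H : ArHyp Q w f) {y : ℝ} (hy : 0 < y) (z : ℝ) :
    0 ≤ PI (fun t => f t ^ 2 * w t) z y := PI_nonneg H.X0 hy z

theorem xsq (H : ArHyp Q w f) {y : ℝ} (hy : 0 < y) (z : ℝ) :
    PI f z y ^ 2 ≤ PI (fun t => f t ^ 2 * w t) z y * PI (fun t => (w t)⁻¹) z y := by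
  have h1 := cs_two H.fm H.w0 H.fX H.p2 hy z
  have h2 := abs_PI_le (g := f) hy z
  calc PI f z y ^ 2 = |PI f z y| ^ 2 := (sq_abs _).symm
    _ ≤ PI (fun t => |f t|) z y ^ 2 := by gcongr
    _ ≤ _ := h1

theorem xzsq (H : ArHyp Q w f) {y : ℝ} (hy : 0 < y) (z : ℝ) :
    PIz f z y ^ 2 ≤ (1 / y) ^ 2 *
      (PI (fun t => f t ^ 2 * w t) z y * PI (fun t => (w t)⁻¹) z y) := by
  have h1 := cs_two H.fm H.w0 H.fX H.p2 hy z
  have h2 := abs_PIz_le H.ptf hy z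
  calc PIz f z y ^ 2 = |PIz f z y| ^ 2 := (sq_abs _).symm
    _ ≤ (PI (fun t => |f t|) z y / y) ^ 2 := by gcongr
    _ = (1 / y) ^ 2 * PI (fun t => |f t|) z y ^ 2 := by ring
    _ ≤ _ := by gcongr

end ArHyp

/-- the Bellman function along the harmonic extensions, and its derivatives -/
noncomputable def arB (w f : ℝ → ℝ) (z y : ℝ) : ℝ :=
  Bf (PI f z y) (PI (fun t => f t ^ 2 * w t) z y) (PI (fun t => (w t)⁻¹) z y) (PI w z y)

noncomputable def arBz (w f : ℝ → ℝ) (z y : ℝ) : ℝ :=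
  B1 (PI f z y) (PI (fun t => f t ^ 2 * w t) z y) (PI (fun t => (w t)⁻¹) z y) (PI w z y)
    (PIz f z y) (PIz (fun t => f t ^ 2 * w t) z y) (PIz (fun t => (w t)⁻¹) z y) (PIz w z y)

noncomputable def arBy (w f : ℝ → ℝ) (z y : ℝ) : ℝ :=
  B1 (PI f z y) (PI (fun t => f t ^ 2 * w t) z y) (PI (fun t => (w t)⁻¹) z y) (PI w z y)
    (PIy f z y) (PIy (fun t => f t ^ 2 * w t) z y) (PIy (fun t => (w t)⁻¹) z y) (PIy w z y)

noncomputable def arBzz (w f : ℝ → ℝ) (z y : ℝ) : ℝ :=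
  B2 (PI f z y) (PI (fun t => f t ^ 2 * w t) z y) (PI (fun t => (w t)⁻¹) z y) (PI w z y)
    (PIz f z y) (PIz (fun t => f t ^ 2 * w t) z y) (PIz (fun t => (w t)⁻¹) z y) (PIz w z y)
    (PIzz f z y) (PIzz (fun t => f t ^ 2 * w t) z y) (PIzz (fun t => (w t)⁻¹) z y) (PIzz w z y)

noncomputable def arByy (w f : ℝ → ℝ) (z y : ℝ) : ℝ :=
  B2 (PI f z y) (PI (fun t => f t ^ 2 * w t) z y) (PI (fun t => (w t)⁻¹) z y) (PI w z y)
    (PIy f z y) (PIy (fun t => f t ^ 2 * w t) z y) (PIy (fun t => (w t)⁻¹) z y) (PIy w z y)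
    (-PIzz f z y) (-PIzz (fun t => f t ^ 2 * w t) z y) (-PIzz (fun t => (w t)⁻¹) z y)
    (-PIzz w z y)

noncomputable def arh (Q : ℝ) (w f : ℝ → ℝ) (z y : ℝ) : ℝ :=
  PI w z y / (8 * Q ^ 3) * (PIz f z y ^ 2 + PIy f z y ^ 2)

namespace ArHyp

theorem h_nonneg (H : ArHyp Q w f) {y : ℝ} (hy : 0 < y) (z : ℝ) : 0 ≤ arh Q w f z y := by
  have := H.Wpos hy z
  have := H.Q1
  unfold arh
  positivity

theorem h_le (H : ArHyp Q w f) {y : ℝ} (hy : 0 < y) (z : ℝ) :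
    arh Q w f z y ≤ -(arBzz w f z y + arByy w f z y) := by
  have h := bell_ineq (x := PI f z y) (X := PI (fun t => f t ^ 2 * w t) z y)
    (xz := PIz f z y) (Xz := PIz (fun t => f t ^ 2 * w t) z y) (Vz := PIz (fun t => (w t)⁻¹) z y)
    (Wz := PIz w z y) (xy := PIy f z y) (Xy := PIy (fun t => f t ^ 2 * w t) z y)
    (Vy := PIy (fun t => (w t)⁻¹) z y) (Wy := PIy w z y)
    (x2 := PIzz f z y) (X2 := PIzz (fun t => f t ^ 2 * w t) z y)
    (V2 := PIzz (fun t => (w t)⁻¹) z y) (W2 := PIzz w z y)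
    (H.Vpos hy z) (H.Wpos hy z) (H.one_le hy z) (H.pQ z y hy)
  unfold arh arBzz arByy
  linarith

theorem B_range (H : ArHyp Q w f) {y : ℝ} (hy : 0 < y) (z : ℝ) :
    0 ≤ arB w f z y ∧ arB w f z y ≤ 2 * PI (fun t => f t ^ 2 * w t) z y :=
  bell_range (H.Vpos hy z) (H.Wpos hy z) (H.one_le hy z) (H.xsq hy z)

theorem Bz_le (H : ArHyp Q w f) {y : ℝ} (hy : 0 < y) (z : ℝ) :
    |arBz w f z y| ≤ 12 * (1 / y) * PI (fun t => f t ^ 2 * w t) z y := by
  have h1 := abs_PIz_le H.ptX hy z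
  have h2 := abs_PIz_le H.p2 hy z
  have h3 := abs_PIz_le H.p1 hy z
  have e1 : (fun t => |f t ^ 2 * w t|) = fun t => f t ^ 2 * w t :=
    funext fun t => abs_of_nonneg (H.X0 t)
  have e2 : (fun t => |(w t)⁻¹|) = fun t => (w t)⁻¹ :=
    funext fun t => abs_of_pos (inv_pos.2 (H.w0 t))
  have e3 : (fun t => |w t|) = w := funext fun t => abs_of_pos (H.w0 t)
  rw [e1] at h1
  rw [e2] at h2
  rw [e3] at h3
  exact bell_B1 (r := 1 / y) (by positivity) (H.Vpos hy z) (H.Wpos hy z) (H.one_le hy z)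
    (H.xsq hy z) (H.xzsq hy z) (by rw [one_div_mul_eq_div]; exact h1)
    (by rw [one_div_mul_eq_div]; exact h2) (by rw [one_div_mul_eq_div]; exact h3)

theorem d_z2 (H : ArHyp Q w f) {y : ℝ} (hy : 0 < y) (z : ℝ) :
    HasDerivAt (fun s => arBz w f s y) (arBzz w f z y) z := by
  have h1 := har H.ptf hy z
  have h2 := har H.ptX hy z
  have h3 := har H.p2 hy z
  have h4 := har H.p1 hy z
  exact bell_d2 (t := z) (x := fun s => PI f s y) (X := fun s => PI (fun t => f t ^ 2 * w t) s y)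
    (V := fun s => PI (fun t => (w t)⁻¹) s y) (W := fun s => PI w s y)
    (x1 := fun s => PIz f s y) (X1 := fun s => PIz (fun t => f t ^ 2 * w t) s y)
    (V1 := fun s => PIz (fun t => (w t)⁻¹) s y) (W1 := fun s => PIz w s y)
    (H.Vpos hy z) (H.Wpos hy z) (H.one_le hy z) h1.1 h2.1 h3.1 h4.1
    h1.2.2.1 h2.2.2.1 h3.2.2.1 h4.2.2.1

theorem d_y1 (H : ArHyp Q w f) {y : ℝ} (hy : 0 < y) (z : ℝ) :
    HasDerivAt (fun t => arB w f z t) (arBy w f z y) y := by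
  have h1 := har H.ptf hy z
  have h2 := har H.ptX hy z
  have h3 := har H.p2 hy z
  have h4 := har H.p1 hy z
  exact bell_d1 (t := y) (x := fun s => PI f z s) (X := fun s => PI (fun t => f t ^ 2 * w t) z s)
    (V := fun s => PI (fun t => (w t)⁻¹) z s) (W := fun s => PI w z s)
    (H.Vpos hy z) (H.Wpos hy z) (H.one_le hy z) h1.2.1 h2.2.1 h3.2.1 h4.2.1

theorem d_y2 (H : ArHyp Q w f) {y : ℝ} (hy : 0 < y) (z : ℝ) :
    HasDerivAt (fun t => arBy w f z t) (arByy w f z y) y := by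
  have h1 := har H.ptf hy z
  have h2 := har H.ptX hy z
  have h3 := har H.p2 hy z
  have h4 := har H.p1 hy z
  exact bell_d2 (t := y) (x := fun s => PI f z s) (X := fun s => PI (fun t => f t ^ 2 * w t) z s)
    (V := fun s => PI (fun t => (w t)⁻¹) z s) (W := fun s => PI w z s)
    (x1 := fun s => PIy f z s) (X1 := fun s => PIy (fun t => f t ^ 2 * w t) z s)
    (V1 := fun s => PIy (fun t => (w t)⁻¹) z s) (W1 := fun s => PIy w z s)
    (H.Vpos hy z) (H.Wpos hy z) (H.one_le hy z) h1.2.1 h2.2.1 h3.2.1 h4.2.1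
    h1.2.2.2 h2.2.2.2 h3.2.2.2 h4.2.2.2

theorem conts (H : ArHyp Q w f) {R a c : ℝ} (ha : 0 < a) (hc : 0 ≤ c) :
    ContinuousOn (fun q : ℝ × ℝ => arB w f q.1 q.2) (Icc (-R) R ×ˢ Icc a c) ∧
    ContinuousOn (fun q : ℝ × ℝ => arBzz w f q.1 q.2) (Icc (-R) R ×ˢ Icc a c) ∧
    ContinuousOn (fun q : ℝ × ℝ => arByy w f q.1 q.2) (Icc (-R) R ×ˢ Icc a c) ∧
    ContinuousOn (fun q : ℝ × ℝ => arh Q w f q.1 q.2) (Icc (-R) R ×ˢ Icc a c) := by
  obtain ⟨a1, a2, a3, a4⟩ := ar_PIcont H.ptf (R := R) ha hc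
  obtain ⟨b1, b2, b3, b4⟩ := ar_PIcont H.ptX (R := R) ha hc
  obtain ⟨c1, c2, c3, c4⟩ := ar_PIcont H.p2 (R := R) ha hc
  obtain ⟨d1, d2, d3, d4⟩ := ar_PIcont H.p1 (R := R) ha hc
  have hy : ∀ q ∈ Icc (-R) R ×ˢ Icc a c, 0 < q.2 := fun q hq => lt_of_lt_of_le ha hq.2.1
  have hV : ∀ q ∈ Icc (-R) R ×ˢ Icc a c, 0 < PI (fun t => (w t)⁻¹) q.1 q.2 :=
    fun q hq => H.Vpos (hy q hq) q.1
  have hW : ∀ q ∈ Icc (-R) R ×ˢ Icc a c, 0 < PI w q.1 q.2 := fun q hq => H.Wpos (hy q hq) q.1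
  have h1 : ∀ q ∈ Icc (-R) R ×ˢ Icc a c, 1 ≤ PI w q.1 q.2 * PI (fun t => (w t)⁻¹) q.1 q.2 :=
    fun q hq => H.one_le (hy q hq) q.1
  refine ⟨ar_Bf_cont a1 b1 c1 d1 hV hW h1, ?_, ?_, ?_⟩
  · exact ar_B2_cont (X := fun q => PI (fun t => f t ^ 2 * w t) q.1 q.2)
      (X1 := fun q => PIz (fun t => f t ^ 2 * w t) q.1 q.2) a1 c1 d1 a2 c2 d2 a4 b4 c4 d4 hV hW h1
  · exact ar_B2_cont (X := fun q => PI (fun t => f t ^ 2 * w t) q.1 q.2)
      (X1 := fun q => PIy (fun t => f t ^ 2 * w t) q.1 q.2) a1 c1 d1 a3 c3 d3 a4.neg b4.neg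
      c4.neg d4.neg hV hW h1
  · unfold arh
    exact (d1.div_const _).mul ((a2.pow 2).add (a3.pow 2))

theorem intX (H : ArHyp Q w f) {R b : ℝ} (hb : 0 < b) :
    ∫ z in Icc (-R) R, PI (fun t => f t ^ 2 * w t) z b ≤ ∫ t, f t ^ 2 * w t := by
  have hc : ContinuousOn (fun z => PI (fun t => f t ^ 2 * w t) z b) (Icc (-R) R) :=
    (ar_PIcont H.ptX (R := R) hb hb.le).1.comp (f := fun z : ℝ => (z, b)) (by fun_prop)
      (fun z hz => ⟨hz, le_rfl, le_rfl⟩)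
  have hi : IntegrableOn (fun z => PI (fun t => f t ^ 2 * w t) z b) (Icc (-R) R) :=
    hc.integrableOn_compact isCompact_Icc
  have h0 : 0 ≤ ∫ t, f t ^ 2 * w t := integral_nonneg H.X0
  rw [← ENNReal.ofReal_le_ofReal_iff h0, ofReal_integral_eq_lintegral_ofReal hi
    (Eventually.of_forall fun z => H.Xnn hb z),
    ofReal_integral_eq_lintegral_ofReal H.fX (Eventually.of_forall H.X0), ← lint_PI H.X0 H.fX hb]
  exact setLIntegral_le_lintegral _ _

theorem rect (H : ArHyp Q w f) {a b : ℝ} (ha : 0 < a) (hab : a ≤ b) (R0 : ℝ) :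
    ∫⁻ q in Icc (-R0) R0 ×ˢ Icc a b, ENNReal.ofReal ((q.2 - a) * arh Q w f q.1 q.2)
      ∂(volume.prod volume) ≤ ENNReal.ofReal (4 * ∫ t, f t ^ 2 * w t) := by
  apply ENNReal.le_of_forall_pos_le_add
  intro δ hδ _
  have hδ' : (0 : ℝ) < δ := hδ
  set c := 2 * b - a with hc
  have hc0 : 0 ≤ c := by linarith
  set K := 4 * (12 * (1 / a)) * (b - a) ^ 2 + 1 with hK
  have hK0 : 0 < K := by positivity
  set ε := (δ : ℝ) / K with hε
  have hε0 : 0 < ε := by positivity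
  obtain ⟨R, hR⟩ := ((decay H.X0 H.fX (a := a) (c := c) ha hε0).and
    (eventually_ge_atTop (max R0 0))).exists
  obtain ⟨hdec, hRge⟩ := hR
  have hR0 : 0 ≤ R := (le_max_right _ _).trans hRge
  have hRR : R0 ≤ R := (le_max_left _ _).trans hRge
  obtain ⟨cB, cz, cy, ch⟩ := H.conts (R := R) ha hc0
  have hypos : ∀ y ∈ Icc a c, 0 < y := fun y hy => lt_of_lt_of_le ha hy.1
  have hbound : ∀ y ∈ Icc a c, ∀ z, PI (fun t => f t ^ 2 * w t) z y ≤ ε →
      |arBz w f z y| ≤ 12 * (1 / a) * ε := by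
    intro y hy z hz
    refine (H.Bz_le (hypos y hy) z).trans ?_
    have h1 : 1 / y ≤ 1 / a := one_div_le_one_div_of_le ha hy.1
    have h2 := H.Xnn (hypos y hy) z
    have h3 : 0 < 1 / y := by have := hypos y hy; positivity
    gcongr
  have key := ar_rect (M := 12 * (1 / a) * ε) hab hR0
    (fun z _ y hy => H.d_z2 (hypos y hy) z) (fun z _ y hy => H.d_y1 (hypos y hy) z)
    (fun z _ y hy => H.d_y2 (hypos y hy) z) cB cz cy ch
    (fun z _ y hy => H.h_le (hypos y hy) z)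
    (fun z _ => ⟨(H.B_range ha z).1, (H.B_range (hypos c ⟨by linarith, le_rfl⟩) z).1⟩)
    (fun y hy => ⟨hbound y hy R (hdec y hy).1, hbound y hy (-R) (hdec y hy).2⟩)
  have hb0 : 0 < b := lt_of_lt_of_le ha hab
  have hBint : ∫ z in Icc (-R) R, arB w f z b ≤ 2 * ∫ t, f t ^ 2 * w t := by
    have hcB : ContinuousOn (fun z => arB w f z b) (Icc (-R) R) :=
      cB.comp (f := fun z : ℝ => (z, b)) (by fun_prop) (fun z hz => ⟨hz, hab, by linarith⟩)
    have hcX : ContinuousOn (fun z => PI (fun t => f t ^ 2 * w t) z b) (Icc (-R) R) :=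
      (ar_PIcont H.ptX (R := R) hb0 hb0.le).1.comp (f := fun z : ℝ => (z, b)) (by fun_prop)
        (fun z hz => ⟨hz, le_rfl, le_rfl⟩)
    calc ∫ z in Icc (-R) R, arB w f z b
        ≤ ∫ z in Icc (-R) R, 2 * PI (fun t => f t ^ 2 * w t) z b :=
          setIntegral_mono_on (hcB.integrableOn_compact isCompact_Icc)
            ((hcX.integrableOn_compact isCompact_Icc).const_mul 2) measurableSet_Icc
            fun z _ => (H.B_range hb0 z).2
      _ = 2 * ∫ z in Icc (-R) R, PI (fun t => f t ^ 2 * w t) z b := integral_const_mul _ _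
      _ ≤ _ := by have := H.intX (R := R) hb0; linarith
  have hfin : ∫ q in Icc (-R) R ×ˢ Icc a c, ar_tent a b q.2 * arh Q w f q.1 q.2
      ∂(volume.prod volume) ≤ 4 * (∫ t, f t ^ 2 * w t) + δ := by
    have e1 : 4 * (12 * (1 / a) * ε) * (b - a) ^ 2 = (K - 1) * ε := by rw [hK]; ring
    have e2 : K * ε = δ := by rw [hε]; field_simp
    rw [e1] at key
    have : (K - 1) * ε ≤ δ := by
      rw [sub_mul, e2]; linarith
    linarith
  have hSm : MeasurableSet (Icc (-R) R ×ˢ Icc a c) := measurableSet_Icc.prod measurableSet_Icc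
  have hint : IntegrableOn (fun q : ℝ × ℝ => ar_tent a b q.2 * arh Q w f q.1 q.2)
      (Icc (-R) R ×ˢ Icc a c) (volume.prod volume) :=
    ((((ar_tent_cont a b).comp continuous_snd).continuousOn).mul ch).integrableOn_compact
      (isCompact_Icc.prod isCompact_Icc)
  have hnn : 0 ≤ᵐ[(volume.prod volume).restrict (Icc (-R) R ×ˢ Icc a c)]
      (fun q : ℝ × ℝ => ar_tent a b q.2 * arh Q w f q.1 q.2) := by
    filter_upwards [ae_restrict_mem hSm] with q hq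
    exact mul_nonneg (ar_tent_nonneg hq.2) (H.h_nonneg (hypos _ hq.2) _)
  calc ∫⁻ q in Icc (-R0) R0 ×ˢ Icc a b, ENNReal.ofReal ((q.2 - a) * arh Q w f q.1 q.2)
        ∂(volume.prod volume)
      = ∫⁻ q in Icc (-R0) R0 ×ˢ Icc a b, ENNReal.ofReal (ar_tent a b q.2 * arh Q w f q.1 q.2)
        ∂(volume.prod volume) := by
        apply setLIntegral_congr_fun (measurableSet_Icc.prod measurableSet_Icc)
        intro q hq
        have : ar_tent a b q.2 = q.2 - a := by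
          unfold ar_tent
          exact min_eq_left (by linarith [hq.2.2])
        simp only [this]
    _ ≤ ∫⁻ q in Icc (-R) R ×ˢ Icc a c, ENNReal.ofReal (ar_tent a b q.2 * arh Q w f q.1 q.2)
        ∂(volume.prod volume) := by
        apply lintegral_mono_set
        exact prod_mono (Icc_subset_Icc (by linarith) hRR) (Icc_subset_Icc le_rfl (by linarith))
    _ = ENNReal.ofReal (∫ q in Icc (-R) R ×ˢ Icc a c, ar_tent a b q.2 * arh Q w f q.1 q.2
        ∂(volume.prod volume)) := (ofReal_integral_eq_lintegral_ofReal hint hnn).symm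
    _ ≤ ENNReal.ofReal (4 * (∫ t, f t ^ 2 * w t) + δ) := ENNReal.ofReal_le_ofReal hfin
    _ ≤ ENNReal.ofReal (4 * ∫ t, f t ^ 2 * w t) + δ := by
        refine ENNReal.ofReal_add_le.trans ?_
        rw [ENNReal.ofReal_coe_nnreal]

theorem meas_h (H : ArHyp Q w f) : Measurable (fun q : ℝ × ℝ => arh Q w f q.1 q.2) := by
  obtain ⟨-, h1, h2, -⟩ := measurable_PI H.fm
  obtain ⟨h3, -, -, -⟩ := measurable_PI H.wm
  unfold arh
  exact (h3.div_const _).mul ((h1.pow_const 2).add (h2.pow_const 2))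

theorem total (H : ArHyp Q w f) :
    ∫⁻ z, ∫⁻ y in Ioi (0 : ℝ), ENNReal.ofReal (y * arh Q w f z y) ≤
      ENNReal.ofReal (4 * ∫ t, f t ^ 2 * w t) := by
  have hm := H.meas_h
  have hG : Measurable (fun q : ℝ × ℝ => ENNReal.ofReal (q.2 * arh Q w f q.1 q.2)) :=
    (measurable_snd.mul hm).ennreal_ofReal
  have e1 : ∫⁻ z, ∫⁻ y in Ioi (0 : ℝ), ENNReal.ofReal (y * arh Q w f z y) =
      ∫⁻ q, ENNReal.ofReal (q.2 * arh Q w f q.1 q.2)
        ∂((volume : Measure ℝ).prod ((volume : Measure ℝ).restrict (Ioi 0))) :=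
    (lintegral_prod _ hG.aemeasurable).symm
  rw [e1]
  set μ := (volume : Measure ℝ).prod ((volume : Measure ℝ).restrict (Ioi 0)) with hμ
  have hμ' : μ = ((volume : Measure ℝ).prod (volume : Measure ℝ)).restrict (univ ×ˢ Ioi 0) := by
    rw [← Measure.prod_restrict, Measure.restrict_univ]
  have hμle : μ ≤ (volume : Measure ℝ).prod (volume : Measure ℝ) := by
    rw [hμ']; exact Measure.restrict_le_self
  let al : ℕ → ℝ := fun n => 1 / ((n : ℝ) + 1)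
  let S : ℕ → Set (ℝ × ℝ) := fun n => Icc (-(n : ℝ)) n ×ˢ Icc (al n) ((n : ℝ) + 1)
  let F : ℕ → ℝ × ℝ → ℝ≥0∞ := fun n =>
    (S n).indicator (fun q => ENNReal.ofReal ((q.2 - al n) * arh Q w f q.1 q.2))
  have hSm : ∀ n, MeasurableSet (S n) := fun n => measurableSet_Icc.prod measurableSet_Icc
  have hFm : ∀ n, Measurable (F n) := fun n =>
    (((measurable_snd.sub_const _).mul hm).ennreal_ofReal).indicator (hSm n)
  have hlim : ∀ᵐ q ∂μ, Tendsto (fun n => F n q) atTop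
      (𝓝 (ENNReal.ofReal (q.2 * arh Q w f q.1 q.2))) := by
    rw [hμ']
    filter_upwards [ae_restrict_mem (MeasurableSet.univ.prod measurableSet_Ioi)] with q hq
    have hq2 : 0 < q.2 := hq.2
    have hal : Tendsto al atTop (𝓝 0) := tendsto_one_div_add_atTop_nhds_zero_nat
    have hev : ∀ᶠ n : ℕ in atTop, F n q =
        ENNReal.ofReal ((q.2 - al n) * arh Q w f q.1 q.2) := by
      filter_upwards [eventually_ge_atTop ⌈|q.1|⌉₊, eventually_ge_atTop ⌈|q.2|⌉₊,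
        hal.eventually (gt_mem_nhds hq2)] with n h1 h2 h3
      apply indicator_of_mem
      refine ⟨?_, ⟨le_of_lt h3, ?_⟩⟩
      · have : |q.1| ≤ n := (Nat.le_ceil _).trans (by exact_mod_cast h1)
        exact abs_le.1 this
      · have : |q.2| ≤ n := (Nat.le_ceil _).trans (by exact_mod_cast h2)
        linarith [le_abs_self q.2]
    have ht : Tendsto (fun n => ENNReal.ofReal ((q.2 - al n) * arh Q w f q.1 q.2)) atTop
        (𝓝 (ENNReal.ofReal ((q.2 - 0) * arh Q w f q.1 q.2))) :=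
      (ENNReal.continuous_ofReal.tendsto _).comp ((tendsto_const_nhds.sub hal).mul_const _)
    rw [sub_zero] at ht
    exact ht.congr' (hev.mono fun n hn => hn.symm)
  have hFle : ∀ n, ∫⁻ q, F n q ∂μ ≤ ENNReal.ofReal (4 * ∫ t, f t ^ 2 * w t) := by
    intro n
    have hn : (0 : ℝ) < (n : ℝ) + 1 := by positivity
    have hal0 : 0 < al n := by positivity
    have hal1 : al n ≤ (n : ℝ) + 1 := by
      show 1 / ((n : ℝ) + 1) ≤ (n : ℝ) + 1
      rw [div_le_iff₀ hn]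
      have : (0 : ℝ) ≤ n := Nat.cast_nonneg n
      nlinarith
    calc ∫⁻ q, F n q ∂μ ≤ ∫⁻ q, F n q ∂((volume : Measure ℝ).prod (volume : Measure ℝ)) :=
          lintegral_mono' hμle le_rfl
      _ = ∫⁻ q in S n, ENNReal.ofReal ((q.2 - al n) * arh Q w f q.1 q.2)
            ∂((volume : Measure ℝ).prod (volume : Measure ℝ)) := lintegral_indicator (hSm n) _
      _ ≤ _ := H.rect hal0 hal1 n
  calc ∫⁻ q, ENNReal.ofReal (q.2 * arh Q w f q.1 q.2) ∂μ
      = ∫⁻ q, liminf (fun n => F n q) atTop ∂μ := by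
        apply lintegral_congr_ae
        filter_upwards [hlim] with q hq
        exact hq.liminf_eq.symm
    _ ≤ liminf (fun n => ∫⁻ q, F n q ∂μ) atTop := lintegral_liminf_le hFm
    _ ≤ ENNReal.ofReal (4 * ∫ t, f t ^ 2 * w t) :=
        liminf_le_of_le (by isBoundedDefault) (fun b hb => by
          obtain ⟨n, hn⟩ := hb.exists
          exact hn.trans (hFle n))

end ArHyp

/-- the weighted area integral inequality for `A_2` weights -/
theorem area2 (Q : ℝ) (hQ : 1 ≤ Q) : ∃ C : ℝ≥0∞, C ≠ ⊤ ∧ ∀ w : ℝ → ℝ, Measurable w →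
    (∀ t, 0 < w t) → PT w → PT (fun t => (w t)⁻¹) →
    (∀ z y, 0 < y → PI w z y * PI (fun t => (w t)⁻¹) z y ≤ Q) →
    ∀ f : ℝ → ℝ, Measurable f → Integrable (fun t => f t ^ 2 * w t) →
    ∫⁻ z, ∫⁻ y in Ioi (0 : ℝ), ENNReal.ofReal (y * PI w z y) * GR f z y ≤
      C * ∫⁻ t, ENNReal.ofReal (f t ^ 2 * w t) := by
  refine ⟨ENNReal.ofReal (32 * Q ^ 3), ENNReal.ofReal_ne_top, ?_⟩
  intro w hw hw0 p1 p2 pQ f hf hfX
  have H : ArHyp Q w f := ⟨hQ, hw, hw0, p1, p2, pQ, hf, hfX⟩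
  have hQ3 : (0 : ℝ) < 8 * Q ^ 3 := by positivity
  have e : ∀ z : ℝ, ∫⁻ y in Ioi (0 : ℝ), ENNReal.ofReal (y * PI w z y) * GR f z y =
      ENNReal.ofReal (8 * Q ^ 3) * ∫⁻ y in Ioi (0 : ℝ), ENNReal.ofReal (y * arh Q w f z y) := by
    intro z
    rw [← lintegral_const_mul' _ _ ENNReal.ofReal_ne_top]
    apply setLIntegral_congr_fun measurableSet_Ioi
    intro y hy
    have hy0 : (0 : ℝ) < y := hy
    have hW := H.Wpos hy0 z
    simp only [GR]
    rw [← ENNReal.ofReal_mul (by positivity), ← ENNReal.ofReal_mul hQ3.le]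
    congr 1
    unfold arh
    field_simp
  simp only [e]
  rw [lintegral_const_mul' _ _ ENNReal.ofReal_ne_top]
  calc ENNReal.ofReal (8 * Q ^ 3) * ∫⁻ z, ∫⁻ y in Ioi (0 : ℝ),
        ENNReal.ofReal (y * arh Q w f z y)
      ≤ ENNReal.ofReal (8 * Q ^ 3) * ENNReal.ofReal (4 * ∫ t, f t ^ 2 * w t) := by
        gcongr
        exact H.total
    _ = ENNReal.ofReal (32 * Q ^ 3) * ∫⁻ t, ENNReal.ofReal (f t ^ 2 * w t) := by
        rw [← ofReal_integral_eq_lintegral_ofReal hfX (Eventually.of_forall H.X0),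
          ← ENNReal.ofReal_mul hQ3.le, ← ENNReal.ofReal_mul (by positivity)]
        congr 1
        ring

end Pool.Agent.TH407.GS
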