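import Mathlib

/-!
# Weights for the weighted `g_λ^*` inequality: definitions of the statement
-/

set_option autoImplicit false
open MeasureTheory Set
open scoped ENNReal NNReal

namespace Pool.Agent.TH407.GS

section
variable {E : Type} [NormedAddCommGroup E] [NormedSpace ℝ E]

/-- The Poisson integral `f(z,y) = (1/π) ∫ y f(z-x) / (x² + y²) dx`. -/
noncomputable def poisson (f : ℝ → E) (z y : ℝ) : E :=
  (1 / Real.pi) • ∫ x, (y / (x ^ 2 + y ^ 2)) • f (z - x)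

/-- `|∇f(z,y)|²`, the square of the gradient of the Poisson integral in `(z,y)`. -/
noncomputable def gradSq (f : ℝ → E) (z y : ℝ) : ℝ :=
  ‖deriv (fun s => poisson f s y) z‖ ^ 2 + ‖deriv (fun t => poisson f z t) y‖ ^ 2

/-- The Littlewood-Paley function
`g_λ^*(x) = (∫_ℝ ∫_0^∞ (y / (|x-z| + y))^λ |∇f(z,y)|² dy dz)^{1/2}`, with values in `[0,∞]`. -/
noncomputable def gstar (lam : ℝ) (f : ℝ → E) (x : ℝ) : ℝ≥0∞ :=
  (∫⁻ z, ∫⁻ y in Ioi (0 : ℝ),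
    ENNReal.ofReal ((y / (|x - z| + y)) ^ lam * gradSq f z y)) ^ (1 / 2 : ℝ)

end

/-- A weight on the line: a nonnegative locally integrable function. -/
def IsWeight (U : ℝ → ℝ) : Prop := (∀ x, 0 ≤ U x) ∧ LocallyIntegrable U

/-- The weighted inequality `∫ (g_λ^* f)^p U ≤ C ∫ |f|^p U` for all measurable `f : ℝ → E` with
finite right side. -/
def GStarIneq (E : Type) [NormedAddCommGroup E] [NormedSpace ℝ E] (lam p : ℝ) (U : ℝ → ℝ) : Prop :=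
  ∃ C : ℝ≥0, ∀ f : ℝ → E, AEStronglyMeasurable f →
    ∫⁻ x, ‖f x‖ₑ ^ p * ENNReal.ofReal (U x) < ⊤ →
    ∫⁻ x, gstar lam f x ^ p * ENNReal.ofReal (U x) ≤
      C * ∫⁻ x, ‖f x‖ₑ ^ p * ENNReal.ofReal (U x)

/-- The Muckenhoupt condition `A_p`: the products
`(|I|⁻¹ ∫_I U) (|I|⁻¹ ∫_I U^{-1/(p-1)})^{p-1}` are bounded over all bounded intervals `I`. -/
def CondA (p : ℝ) (U : ℝ → ℝ) : Prop :=
  ∃ C : ℝ≥0, ∀ a b : ℝ, a < b →
    (∫⁻ x in Ioo a b, ENNReal.ofReal (U x)) / ENNReal.ofReal (b - a) *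
      ((∫⁻ x in Ioo a b, ENNReal.ofReal (U x) ^ (-(1 / (p - 1)))) /
        ENNReal.ofReal (b - a)) ^ (p - 1) ≤ C

/-- The condition `B_r`: for every interval `I` with centre `c` and length `L`,
`∫ L^{r-1} U(x) / (L^r + |x-c|^r) dx ≤ (C / L) ∫_I U`. -/
def CondB (r : ℝ) (U : ℝ → ℝ) : Prop :=
  ∃ C : ℝ≥0, ∀ c L : ℝ, 0 < L →
    ∫⁻ x, ENNReal.ofReal (L ^ (r - 1) * U x / (L ^ r + |x - c| ^ r)) ≤
      C * ((∫⁻ x in Ioo (c - L / 2) (c + L / 2), ENNReal.ofReal (U x)) / ENNReal.ofReal L)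

end Pool.Agent.TH407.GS
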