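import Pool.Agent.TH407.GS.Diff
import Pool.Agent.TH407.GS.Pub

/-!
# The Poisson integral and gradient of the statement are `PI` and `GR`
-/

set_option autoImplicit false
open MeasureTheory Set Filter Topology
open scoped ENNReal NNReal
open Pool.Agent.TH280.MZ
namespace Pool.Agent.TH407.GS

section
variable {E : Type} [NormedAddCommGroup E] [NormedSpace ℝ E]

theorem br_subst (f : ℝ → E) (z y : ℝ) :
    poisson f z y = (1 / Real.pi) • ∫ t, (y / ((t - z) ^ 2 + y ^ 2)) • f t := by
  unfold poisson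
  congr 1
  rw [← integral_sub_left_eq_self (fun t => (y / ((t - z) ^ 2 + y ^ 2)) • f t) volume z]
  apply integral_congr_ae
  filter_upwards with x
  have h : (z - x - z) ^ 2 = x ^ 2 := by ring
  simp only [h]

/-- change of the multiplier -/
theorem br_mult {f : ℝ → E} {a b : ℝ → ℝ} {C : ℝ} (ha : Continuous a) (hb : Continuous b)
    (hpa : ∀ t, 0 < a t) (hpb : ∀ t, 0 < b t) (hC : ∀ t, b t ≤ C * a t)
    (hi : Integrable (fun t => a t • f t)) : Integrable (fun t => b t • f t) := by
  have h1 : (fun t => b t • f t) = fun t => (b t / a t) • (a t • f t) := by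
    funext t
    rw [smul_smul, div_mul_cancel₀ _ (hpa t).ne']
  have hm : AEStronglyMeasurable (fun t => b t • f t) volume := by
    rw [h1]
    exact (hb.div ha (fun t => (hpa t).ne')).aestronglyMeasurable.smul hi.aestronglyMeasurable
  refine (hi.norm.const_mul C).mono' hm ?_
  filter_upwards with t
  rw [norm_smul, norm_smul, Real.norm_of_nonneg (hpb t).le, Real.norm_of_nonneg (hpa t).le,
    ← mul_assoc]
  exact mul_le_mul_of_nonneg_right (hC t) (norm_nonneg _)

theorem br_cont {y : ℝ} (hy : 0 < y) (z : ℝ) :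
    Continuous (fun t : ℝ => y / ((t - z) ^ 2 + y ^ 2)) := by
  apply Continuous.div (by fun_prop) (by fun_prop)
  intro t
  positivity

theorem br_cont1 : Continuous (fun t : ℝ => 1 / (1 + t ^ 2)) := by
  apply Continuous.div (by fun_prop) (by fun_prop)
  intro t
  positivity

theorem br_int {f : ℝ → E} {y : ℝ} (hy : 0 < y) (z : ℝ) :
    Integrable (fun t => (1 / (1 + t ^ 2)) • f t) ↔
      Integrable (fun t => (y / ((t - z) ^ 2 + y ^ 2)) • f t) := by
  constructor
  · refine br_mult (C := y * (2 + (1 + 2 * z ^ 2) / y ^ 2)) br_cont1 (br_cont hy z)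
      (fun t => by positivity) (fun t => by positivity) (fun t => ?_)
    have h1 : 0 < (t - z) ^ 2 + y ^ 2 := by positivity
    have h2 : (0 : ℝ) < 1 + t ^ 2 := by positivity
    rw [mul_one_div, div_le_div_iff₀ h1 h2, mul_assoc]
    apply mul_le_mul_of_nonneg_left _ hy.le
    have h3 : (2 + (1 + 2 * z ^ 2) / y ^ 2) * ((t - z) ^ 2 + y ^ 2) =
        2 * (t - z) ^ 2 + 2 * y ^ 2 + (1 + 2 * z ^ 2) / y ^ 2 * (t - z) ^ 2 + (1 + 2 * z ^ 2) := by
      field_simp
      ring
    rw [h3]
    have h4 : 0 ≤ (1 + 2 * z ^ 2) / y ^ 2 * (t - z) ^ 2 := by positivity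
    nlinarith [sq_nonneg (t - 2 * z), sq_nonneg y]
  · refine br_mult (C := (2 + 2 * z ^ 2 + y ^ 2) / y) (br_cont hy z) br_cont1
      (fun t => by positivity) (fun t => by positivity) (fun t => ?_)
    have h1 : 0 < (t - z) ^ 2 + y ^ 2 := by positivity
    have h2 : (0 : ℝ) < 1 + t ^ 2 := by positivity
    have h3 : (2 + 2 * z ^ 2 + y ^ 2) / y * (y / ((t - z) ^ 2 + y ^ 2)) =
        (2 + 2 * z ^ 2 + y ^ 2) / ((t - z) ^ 2 + y ^ 2) := by
      field_simp
    rw [h3, div_le_div_iff₀ h2 h1, one_mul]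
    nlinarith [sq_nonneg (t + z), sq_nonneg (t * z), sq_nonneg (t * y), sq_nonneg t, sq_nonneg z]

theorem br_zero {f : ℝ → E} (h : ¬ Integrable (fun t => (1 / (1 + t ^ 2)) • f t)) {y : ℝ}
    (hy : 0 < y) (z : ℝ) : poisson f z y = 0 := by
  rw [br_subst, integral_undef (fun h' => h ((br_int hy z).2 h')), smul_zero]

theorem br_grad_zero {f : ℝ → E} (h : ¬ Integrable (fun t => (1 / (1 + t ^ 2)) • f t)) {y : ℝ}
    (hy : 0 < y) (z : ℝ) : gradSq f z y = 0 := by
  unfold gradSq
  have h1 : (fun s => poisson f s y) = fun _ => 0 := by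
    funext s
    exact br_zero h hy s
  have h2 : (fun t => poisson f z t) =ᶠ[𝓝 y] fun _ => 0 := by
    filter_upwards [lt_mem_nhds hy] with t ht
    exact br_zero h ht z
  rw [h1, h2.deriv_eq, deriv_const, deriv_const]
  simp

end

theorem poisson_eq (f : ℝ → ℝ) (z y : ℝ) : poisson f z y = PI f z y := by
  rw [br_subst]
  unfold PI pk
  rw [smul_eq_mul, ← integral_const_mul]
  apply integral_congr_ae
  filter_upwards with t
  rw [smul_eq_mul, mul_assoc]

theorem br_PT {f : ℝ → ℝ} : PT f ↔ Integrable (fun t => (1 / (1 + t ^ 2)) • f t) := by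
  unfold PT
  have h : (fun t => f t / (1 + t ^ 2)) = fun t => (1 / (1 + t ^ 2)) • f t := by
    funext t
    rw [smul_eq_mul, one_div_mul_eq_div]
  rw [h]

theorem gradSq_eq {f : ℝ → ℝ} (hf : PT f) {y : ℝ} (hy : 0 < y) (z : ℝ) :
    ENNReal.ofReal (gradSq f z y) = GR f z y := by
  unfold gradSq GR
  have h1 : (fun s => poisson f s y) = fun s => PI f s y := by
    funext s
    exact poisson_eq f s y
  have h2 : (fun t => poisson f z t) = fun t => PI f z t := by
    funext t
    exact poisson_eq f z t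
  obtain ⟨h3, h4, -, -⟩ := har hf hy z
  rw [h1, h2, h3.deriv, h4.deriv, Real.norm_eq_abs, Real.norm_eq_abs, sq_abs, sq_abs]

theorem gradSq_le {f : ℝ → ℝ} (hf : AEStronglyMeasurable f) {y : ℝ} (hy : 0 < y) (z : ℝ) :
    ENNReal.ofReal (gradSq f z y) ≤ GR f z y := by
  by_cases h : PT f
  · exact (gradSq_eq h hy z).le
  · rw [br_PT] at h
    rw [br_grad_zero h hy z, ENNReal.ofReal_zero]
    exact zero_le

theorem br_split {f : ℝ → ℂ} (h : Integrable (fun t => (1 / (1 + t ^ 2) : ℝ) • f t)) {y : ℝ}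
    (hy : 0 < y) (z : ℝ) : poisson f z y =
      ((PI (fun t => (f t).re) z y : ℝ) : ℂ) +
        ((PI (fun t => (f t).im) z y : ℝ) : ℂ) * Complex.I := by
  have h1 := (br_int hy z).1 h
  have h2 := integral_re_add_im (𝕜 := ℂ) h1
  rw [br_subst, ← poisson_eq, ← poisson_eq, br_subst, br_subst, ← h2]
  simp only [RCLike.re_to_complex, RCLike.im_to_complex, Complex.smul_re, Complex.smul_im,
    RCLike.I_to_complex, smul_eq_mul]
  rw [Complex.real_smul]
  push_cast
  simp only [Complex.coe_algebraMap]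
  ring

theorem gradSq_le_complex {f : ℝ → ℂ} (hf : AEStronglyMeasurable f) {y : ℝ} (hy : 0 < y) (z : ℝ) :
    ENNReal.ofReal (gradSq f z y) ≤
      GR (fun t => (f t).re) z y + GR (fun t => (f t).im) z y := by
  by_cases h : Integrable (fun t => (1 / (1 + t ^ 2) : ℝ) • f t)
  · have hre : PT (fun t => (f t).re) := by
      rw [br_PT]
      have h' := h.re
      simp only [RCLike.re_to_complex, Complex.smul_re] at h'
      exact h'
    have him : PT (fun t => (f t).im) := by
      rw [br_PT]
      have h' := h.im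
      simp only [RCLike.im_to_complex, Complex.smul_im] at h'
      exact h'
    obtain ⟨a1, a2, -, -⟩ := har hre hy z
    obtain ⟨b1, b2, -, -⟩ := har him hy z
    have h1 : (fun s => poisson f s y) = fun s => ((PI (fun t => (f t).re) s y : ℝ) : ℂ) +
        ((PI (fun t => (f t).im) s y : ℝ) : ℂ) * Complex.I := by
      funext s
      exact br_split h hy s
    have h2 : (fun t => poisson f z t) =ᶠ[𝓝 y]
        fun s => ((PI (fun t => (f t).re) z s : ℝ) : ℂ) +
          ((PI (fun t => (f t).im) z s : ℝ) : ℂ) * Complex.I := by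
      filter_upwards [lt_mem_nhds hy] with t ht
      exact br_split h ht z
    have c1 := a1.ofReal_comp.add (b1.ofReal_comp.mul_const Complex.I)
    have c2 := a2.ofReal_comp.add (b2.ofReal_comp.mul_const Complex.I)
    have e1 : deriv (fun s => poisson f s y) z = ((PIz (fun t => (f t).re) z y : ℝ) : ℂ) +
        ((PIz (fun t => (f t).im) z y : ℝ) : ℂ) * Complex.I := by
      rw [h1]
      exact c1.deriv
    have e2 : deriv (fun t => poisson f z t) y = ((PIy (fun t => (f t).re) z y : ℝ) : ℂ) +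
        ((PIy (fun t => (f t).im) z y : ℝ) : ℂ) * Complex.I := by
      rw [h2.deriv_eq]
      exact c2.deriv
    unfold gradSq GR
    rw [e1, e2, Complex.sq_norm, Complex.sq_norm, Complex.normSq_add_mul_I,
      Complex.normSq_add_mul_I, ← ENNReal.ofReal_add (by positivity) (by positivity)]
    apply ENNReal.ofReal_le_ofReal
    apply le_of_eq
    ring
  · rw [br_grad_zero h hy z, ENNReal.ofReal_zero]
    exact zero_le

end Pool.Agent.TH407.GS
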