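import Mathlib
import Pool.Agent.TH280.MZ.Muck

/-!
Weighted norm inequalities for the Littlewood-Paley function `g_λ^*`: notation for the proof.
-/

set_option autoImplicit false
open MeasureTheory Set Filter Topology
open scoped ENNReal NNReal

namespace Pool.Agent.TH407.GS

/-! ### The Poisson kernel and its derivatives (variables `s = t - z` and `y`) -/

/-- the Poisson kernel -/
noncomputable def pk (s y : ℝ) : ℝ := (1 / Real.pi) * (y / (s ^ 2 + y ^ 2))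

/-- `∂_z` of `pk (t - z) y` -/
noncomputable def pkz (s y : ℝ) : ℝ := (1 / Real.pi) * (2 * y * s / (s ^ 2 + y ^ 2) ^ 2)

/-- `∂_y` of `pk (t - z) y` -/
noncomputable def pky (s y : ℝ) : ℝ := (1 / Real.pi) * ((s ^ 2 - y ^ 2) / (s ^ 2 + y ^ 2) ^ 2)

/-- `∂_z ∂_z` of `pk (t - z) y`; `∂_y ∂_y` of it is `-pkzz` -/
noncomputable def pkzz (s y : ℝ) : ℝ :=
  (1 / Real.pi) * (2 * y * (3 * s ^ 2 - y ^ 2) / (s ^ 2 + y ^ 2) ^ 3)

/-- Poisson integral -/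
noncomputable def PI (g : ℝ → ℝ) (z y : ℝ) : ℝ := ∫ t, pk (t - z) y * g t

noncomputable def PIz (g : ℝ → ℝ) (z y : ℝ) : ℝ := ∫ t, pkz (t - z) y * g t

noncomputable def PIy (g : ℝ → ℝ) (z y : ℝ) : ℝ := ∫ t, pky (t - z) y * g t

noncomputable def PIzz (g : ℝ → ℝ) (z y : ℝ) : ℝ := ∫ t, pkzz (t - z) y * g t

/-- functions that have a Poisson integral -/
def PT (g : ℝ → ℝ) : Prop := Integrable (fun t => g t / (1 + t ^ 2))

/-! ### The Bellman function -/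

noncomputable def Mf (V W : ℝ) : ℝ := 2 * V - 1 / (W ^ 2 * V)

noncomputable def M1 (V W V1 W1 : ℝ) : ℝ := 2 * V1 + (2 * W1 / W + V1 / V) / (W ^ 2 * V)

noncomputable def Bf (x X V W : ℝ) : ℝ := 2 * X - x ^ 2 / V - x ^ 2 / Mf V W

/-- first derivative of `Bf` along a curve -/
noncomputable def B1 (x _X V W x1 X1 V1 W1 : ℝ) : ℝ :=
  2 * X1 - (2 * x * x1 / V - x ^ 2 * V1 / V ^ 2) -
    (2 * x * x1 / Mf V W - x ^ 2 * M1 V W V1 W1 / Mf V W ^ 2)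

/-- second derivative of `Bf` along a curve -/
noncomputable def B2 (x _X V W x1 _X1 V1 W1 x2 X2 V2 W2 : ℝ) : ℝ :=
  2 * X2 - (2 * x / V + 2 * x / Mf V W) * x2 + (x ^ 2 / V ^ 2) * V2 +
    (x ^ 2 / Mf V W ^ 2) * (2 * V2 + (2 * W2 / W + V2 / V) / (W ^ 2 * V)) -
    2 / V * (x1 - x * V1 / V) ^ 2 - 2 / Mf V W * (x1 - x * M1 V W V1 W1 / Mf V W) ^ 2 -
    (x ^ 2 / Mf V W ^ 2) *
      (((2 * W1 / W + V1 / V) ^ 2 + 2 * (W1 / W) ^ 2 + (V1 / V) ^ 2) / (W ^ 2 * V))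

/-! ### Square functions of a nonnegative function on the upper half plane -/

/-- square of the gradient of the Poisson integral -/
noncomputable def GR (f : ℝ → ℝ) (z y : ℝ) : ℝ≥0∞ :=
  ENNReal.ofReal ((PIz f z y) ^ 2 + (PIy f z y) ^ 2)

open Classical in
/-- square of the area function of aperture `a` -/
noncomputable def SQ (a : ℝ) (G : ℝ → ℝ → ℝ≥0∞) (x : ℝ) : ℝ≥0∞ :=
  ∫⁻ z, ∫⁻ y in Ioi (0 : ℝ), if |x - z| < a * y then G z y else 0

/-- square of `g_λ^*` -/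
noncomputable def GLs (lam : ℝ) (G : ℝ → ℝ → ℝ≥0∞) (x : ℝ) : ℝ≥0∞ :=
  ∫⁻ z, ∫⁻ y in Ioi (0 : ℝ), ENNReal.ofReal ((y / (|x - z| + y)) ^ lam) * G z y

end Pool.Agent.TH407.GS
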