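import Pool.Agent.TH280.MZ.Max
import Pool.Agent.TH407.GS.Defs

/-!
Change of aperture for area functions: the level set step.
-/

set_option autoImplicit false
open MeasureTheory Set Filter Topology
open scoped ENNReal NNReal
open Pool.Agent.TH280.MZ
namespace Pool.Agent.TH407.GS

theorem cs_inner (μ : Measure ℝ) (g : ℝ≥0∞) (z r : ℝ) {S : Set ℝ} :
    ∫⁻ x in S, (if |x - z| < r then g else 0) ∂μ = g * μ (Ioo (z - r) (z + r) ∩ S) := by
  have h : (fun x : ℝ => if |x - z| < r then g else 0) =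
      (Ioo (z - r) (z + r)).indicator (fun _ => g) := by
    funext x
    unfold Set.indicator
    have e : (|x - z| < r) ↔ (x ∈ Ioo (z - r) (z + r)) := by
      rw [abs_lt, mem_Ioo]
      constructor
      · rintro ⟨h1, h2⟩
        exact ⟨by linarith, by linarith⟩
      · rintro ⟨h1, h2⟩
        exact ⟨by linarith, by linarith⟩
    by_cases hx : |x - z| < r
    · rw [if_pos hx, if_pos (e.1 hx)]
    · rw [if_neg hx, if_neg (fun h => hx (e.2 h))]
  rw [h, lintegral_indicator_const measurableSet_Ioo, Measure.restrict_apply measurableSet_Ioo]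

theorem cs_swap (μ : Measure ℝ) [SigmaFinite μ] {G : ℝ → ℝ → ℝ≥0∞}
    (hG : Measurable (Function.uncurry G)) (a : ℝ) (S : Set ℝ) :
    ∫⁻ x in S, SQ a G x ∂μ =
      ∫⁻ z, ∫⁻ y in Ioi (0 : ℝ), G z y * μ (Ioo (z - a * y) (z + a * y) ∩ S) := by
  have hm : Measurable (fun p : (ℝ × ℝ) × ℝ =>
      if |p.1.1 - p.1.2| < a * p.2 then G p.1.2 p.2 else 0) := by
    refine Measurable.ite ?_ ?_ measurable_const
    · exact measurableSet_lt (by fun_prop) (by fun_prop)
    · exact hG.comp (by fun_prop : Measurable (fun p : (ℝ × ℝ) × ℝ => (p.1.2, p.2)))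
  have h1 : Measurable (fun p : ℝ × ℝ => ∫⁻ y in Ioi (0 : ℝ),
      if |p.1 - p.2| < a * y then G p.2 y else 0) := hm.lintegral_prod_right'
  calc ∫⁻ x in S, SQ a G x ∂μ
      = ∫⁻ x in S, (∫⁻ z, ∫⁻ y in Ioi (0 : ℝ), if |x - z| < a * y then G z y else 0) ∂μ := by
        unfold SQ
        rfl
    _ = ∫⁻ z, ∫⁻ x in S, (∫⁻ y in Ioi (0 : ℝ), if |x - z| < a * y then G z y else 0) ∂μ :=
        lintegral_lintegral_swap h1.aemeasurable
    _ = ∫⁻ z, ∫⁻ y in Ioi (0 : ℝ), ∫⁻ x in S, (if |x - z| < a * y then G z y else 0) ∂μ := by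
        apply lintegral_congr
        intro z
        apply lintegral_lintegral_swap
        apply Measurable.aemeasurable
        exact hm.comp (by fun_prop : Measurable (fun p : ℝ × ℝ => ((p.1, z), p.2)))
    _ = _ := by
        apply lintegral_congr
        intro z
        apply lintegral_congr
        intro y
        exact cs_inner μ (G z y) z (a * y)

theorem cs_key {q D : ℝ} (hq : 0 ≤ q) (hD : 1 ≤ D) (μ : Measure ℝ)
    (h0 : ∀ a b : ℝ, a < b → μ (Ioo a b) ≠ 0) (ht : ∀ a b : ℝ, a < b → μ (Ioo a b) ≠ ⊤)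
    (hd : ∀ c L t : ℝ, 0 < L → 1 ≤ t → μ (Ioo (c - t * L) (c + t * L)) ≤
      ENNReal.ofReal (D * t ^ q) * μ (Ioo (c - L) (c + L)))
    {a : ℝ} (ha : 1 ≤ a) {E : Set ℝ} (hE : MeasurableSet E) (z y : ℝ) (hy : 0 < y) :
    μ (Ioo (z - a * y) (z + a * y) ∩
      {x | ENNReal.ofReal (1 / (2 * D * a ^ q)) < MX μ (E.indicator 1) x}ᶜ) ≤
      ENNReal.ofReal (2 * D * a ^ q) * μ (Ioo (z - 1 * y) (z + 1 * y) ∩ Eᶜ) := by
  have haq : 1 ≤ a ^ q := Real.one_le_rpow ha hq
  have hay : 0 < a * y := by positivity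
  rcases Set.eq_empty_or_nonempty (Ioo (z - a * y) (z + a * y) ∩
      {x | ENNReal.ofReal (1 / (2 * D * a ^ q)) < MX μ (E.indicator 1) x}ᶜ) with he | ⟨x, hx1, hx2⟩
  · rw [he, measure_empty]
    exact zero_le
  · rw [one_mul]
    have hx3 : MX μ (E.indicator 1) x ≤ ENNReal.ofReal (1 / (2 * D * a ^ q)) := not_lt.1 hx2
    have h1 := (le_MX μ (E.indicator 1) hx1.1 hx1.2).trans hx3
    have hlt : z - a * y < z + a * y := by linarith
    rw [ENNReal.div_le_iff (h0 _ _ hlt) (ht _ _ hlt), lintegral_indicator_one hE,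
      Measure.restrict_apply hE] at h1
    have h2 := hd z y a hy ha
    have hB : μ (Ioo (z - y) (z + y)) ≠ ⊤ := ht _ _ (by linarith)
    have h3 : μ (Ioo (z - y) (z + y) ∩ E) ≤ (1 / 2) * μ (Ioo (z - y) (z + y)) := by
      calc μ (Ioo (z - y) (z + y) ∩ E) ≤ μ (E ∩ Ioo (z - a * y) (z + a * y)) := by
            apply measure_mono
            rintro t ⟨⟨ht1, ht2⟩, ht3⟩
            have : y ≤ a * y := by nlinarith
            exact ⟨ht3, by linarith, by linarith⟩
        _ ≤ ENNReal.ofReal (1 / (2 * D * a ^ q)) * μ (Ioo (z - a * y) (z + a * y)) := h1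
        _ ≤ ENNReal.ofReal (1 / (2 * D * a ^ q)) *
            (ENNReal.ofReal (D * a ^ q) * μ (Ioo (z - y) (z + y))) := by gcongr
        _ = (1 / 2) * μ (Ioo (z - y) (z + y)) := by
            rw [← mul_assoc, ← ENNReal.ofReal_mul (by positivity)]
            congr 1
            have e : 1 / (2 * D * a ^ q) * (D * a ^ q) = 1 / 2 := by
              field_simp
            rw [e, ENNReal.ofReal_div_of_pos (by norm_num)]
            simp
    have h4 : μ (Ioo (z - y) (z + y)) ≤ 2 * μ (Ioo (z - y) (z + y) ∩ Eᶜ) := by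
      have h5 : μ (Ioo (z - y) (z + y)) = μ (Ioo (z - y) (z + y) ∩ E) +
          μ (Ioo (z - y) (z + y) ∩ Eᶜ) := by
        rw [← Set.sdiff_eq]
        exact (measure_inter_add_sdiff _ hE).symm
      have h6 : (1 / 2) * μ (Ioo (z - y) (z + y)) + (1 / 2) * μ (Ioo (z - y) (z + y)) ≤
          (1 / 2) * μ (Ioo (z - y) (z + y)) + μ (Ioo (z - y) (z + y) ∩ Eᶜ) := by
        have e : (1 / 2 : ℝ≥0∞) * μ (Ioo (z - y) (z + y)) + (1 / 2) * μ (Ioo (z - y) (z + y)) =
            μ (Ioo (z - y) (z + y)) := by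
          rw [← add_mul, ENNReal.add_halves, one_mul]
        rw [e]
        calc μ (Ioo (z - y) (z + y)) = _ := h5
          _ ≤ _ := by gcongr
      have h7 := (ENNReal.add_le_add_iff_left
        (ENNReal.mul_ne_top (by norm_num) hB)).1 h6
      calc μ (Ioo (z - y) (z + y)) = 2 * ((1 / 2) * μ (Ioo (z - y) (z + y))) := by
            rw [← mul_assoc, one_div, ENNReal.mul_inv_cancel (by norm_num) (by norm_num), one_mul]
        _ ≤ _ := by gcongr
    calc μ (Ioo (z - a * y) (z + a * y) ∩ _) ≤ μ (Ioo (z - a * y) (z + a * y)) :=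
          measure_mono inter_subset_left
      _ ≤ ENNReal.ofReal (D * a ^ q) * μ (Ioo (z - y) (z + y)) := h2
      _ ≤ ENNReal.ofReal (D * a ^ q) * (2 * μ (Ioo (z - y) (z + y) ∩ Eᶜ)) := by gcongr
      _ = ENNReal.ofReal (2 * D * a ^ q) * μ (Ioo (z - y) (z + y) ∩ Eᶜ) := by
          rw [← mul_assoc]
          congr 1
          have e2 : (2 : ℝ≥0∞) = ENNReal.ofReal 2 := by norm_num
          rw [e2, ← ENNReal.ofReal_mul (by positivity)]
          congr 1
          ring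

-- GS-CA1
theorem ca_set {q D : ℝ} (hq : 0 ≤ q) (hD : 1 ≤ D) (μ : Measure ℝ) [SigmaFinite μ]
    (h0 : ∀ a b : ℝ, a < b → μ (Ioo a b) ≠ 0) (ht : ∀ a b : ℝ, a < b → μ (Ioo a b) ≠ ⊤)
    (hd : ∀ c L t : ℝ, 0 < L → 1 ≤ t → μ (Ioo (c - t * L) (c + t * L)) ≤
      ENNReal.ofReal (D * t ^ q) * μ (Ioo (c - L) (c + L)))
    {G : ℝ → ℝ → ℝ≥0∞} (hG : Measurable (Function.uncurry G)) {a : ℝ} (ha : 1 ≤ a)
    {E : Set ℝ} (hE : MeasurableSet E) :
    ∃ E' : Set ℝ, MeasurableSet E' ∧ μ E' ≤ ENNReal.ofReal (4 * D * a ^ q) * μ E ∧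
      ∫⁻ x in E'ᶜ, SQ a G x ∂μ ≤ ENNReal.ofReal (2 * D * a ^ q) * ∫⁻ x in Eᶜ, SQ 1 G x ∂μ := by
  have haq : 1 ≤ a ^ q := Real.one_le_rpow ha hq
  refine ⟨{x | ENNReal.ofReal (1 / (2 * D * a ^ q)) < MX μ (E.indicator 1) x},
    (isOpen_lt_MX _ _).measurableSet, ?_, ?_⟩
  · have hc0 : 0 < 1 / (2 * D * a ^ q) := by positivity
    have h1 := weak_MX h0 ht (E.indicator 1) (l := ENNReal.ofReal (1 / (2 * D * a ^ q)))
      (by rw [Ne, ENNReal.ofReal_eq_zero, not_le]; exact hc0) ENNReal.ofReal_ne_top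
    rw [lintegral_indicator_one hE] at h1
    refine h1.trans (le_of_eq ?_)
    congr 1
    rw [← ENNReal.ofReal_inv_of_pos hc0]
    have e2 : (2 : ℝ≥0∞) = ENNReal.ofReal 2 := by norm_num
    rw [e2, ← ENNReal.ofReal_mul (by positivity)]
    congr 1
    rw [one_div, inv_inv]
    ring
  · rw [cs_swap μ hG, cs_swap μ hG, ← lintegral_const_mul' _ _ ENNReal.ofReal_ne_top]
    apply lintegral_mono
    intro z
    simp only
    rw [← lintegral_const_mul' _ _ ENNReal.ofReal_ne_top]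
    apply setLIntegral_mono' measurableSet_Ioi
    intro y hy
    calc G z y * μ (Ioo (z - a * y) (z + a * y) ∩
          {x | ENNReal.ofReal (1 / (2 * D * a ^ q)) < MX μ (E.indicator 1) x}ᶜ)
        ≤ G z y * (ENNReal.ofReal (2 * D * a ^ q) * μ (Ioo (z - 1 * y) (z + 1 * y) ∩ Eᶜ)) := by
          gcongr
          exact cs_key hq hD μ h0 ht hd ha hE z y hy
      _ = _ := by ring

end Pool.Agent.TH407.GS
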