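import Pool.Agent.TH407.GS.Muck

/-!
# An `A_2` weight satisfies the Poisson `A_2` condition

The constant depends only on the `A_2` constant of the weight. The proof applies Muckenhoupt's
theorem to the indicator of an interval.
-/

set_option autoImplicit false
open MeasureTheory Set Filter Topology
open scoped ENNReal NNReal
open Pool.Agent.TH280.MZ

namespace Pool.Agent.TH407.GS

/-- The maximal function of the indicator of `(z - y, z + y)`. -/
theorem po_MX (z y x : ℝ) (hy : 0 < y) :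
    ENNReal.ofReal (y / (2 * (y + |x - z|))) ≤
      MX volume ((Ioo (z - y) (z + y)).indicator 1) x := by
  set r : ℝ := 2 * (y + |x - z|) with hr
  have hab : 0 ≤ |x - z| := abs_nonneg _
  have hr0 : 0 < r := by rw [hr]; linarith
  have h1 : z - r < x := by
    have := neg_abs_le (x - z)
    rw [hr]; linarith
  have h2 : x < z + r := by
    have := le_abs_self (x - z)
    rw [hr]; linarith
  refine le_trans ?_ (le_MX volume _ h1 h2)
  have h3 : ∫⁻ t in Ioo (z - r) (z + r), (Ioo (z - y) (z + y)).indicator (1 : ℝ → ℝ≥0∞) t =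
      ENNReal.ofReal (2 * y) := by
    rw [lintegral_indicator_one measurableSet_Ioo,
      Measure.restrict_apply measurableSet_Ioo]
    have h4 : Ioo (z - y) (z + y) ∩ Ioo (z - r) (z + r) = Ioo (z - y) (z + y) := by
      apply inter_eq_left.2
      apply Ioo_subset_Ioo <;> (rw [hr]; linarith)
    rw [h4, Real.volume_Ioo]
    congr 1
    ring
  rw [h3, Real.volume_Ioo, ← ENNReal.ofReal_div_of_pos (by linarith)]
  apply le_of_eq
  congr 1
  have h5 : z + r - (z - r) = 2 * r := by ring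
  rw [h5, div_eq_div_iff hr0.ne' (by positivity)]
  ring

/-- The Poisson kernel against the square of the lower bound of `po_MX`. -/
theorem po_pk (s y : ℝ) (hy : 0 < y) :
    pk s y ≤ (8 / (Real.pi * y)) * (y / (2 * (y + |s|))) ^ 2 := by
  have hab : 0 ≤ |s| := abs_nonneg _
  have hpi := Real.pi_pos
  have h0 : 0 < y + |s| := by linarith
  have h1 : (y + |s|) ^ 2 ≤ 2 * (s ^ 2 + y ^ 2) := by
    have := sq_abs s
    nlinarith [sq_nonneg (y - |s|)]
  have e : (8 / (Real.pi * y)) * (y / (2 * (y + |s|))) ^ 2 =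
      (1 / Real.pi) * (y * (2 / (y + |s|) ^ 2)) := by
    field_simp
    ring
  rw [e, pk]
  have h2 : 0 < s ^ 2 + y ^ 2 := by positivity
  gcongr ?_ * ?_
  rw [div_eq_mul_inv]
  gcongr ?_ * ?_
  rw [inv_eq_one_div, div_le_div_iff₀ h2 (by positivity)]
  linarith

theorem po_pk_nonneg (s y : ℝ) (hy : 0 < y) : 0 ≤ pk s y := by
  unfold pk
  have := Real.pi_pos
  positivity

theorem po_pk_meas (z y : ℝ) : Measurable (fun t : ℝ => pk (t - z) y) := by
  unfold pk
  fun_prop

/-- The Poisson integral of an `A_2` weight against its mass on the interval. -/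
theorem po_lint {C : ℝ≥0∞} {w : ℝ → ℝ≥0∞}
    (hC : ∀ F : ℝ → ℝ≥0∞, Measurable F →
      ∫⁻ x, MX volume F x ^ (2 : ℝ) * w x ≤ C * ∫⁻ x, F x ^ (2 : ℝ) * w x)
    (z y : ℝ) (hy : 0 < y) :
    ∫⁻ x, ENNReal.ofReal (pk (x - z) y) * w x ≤
      ENNReal.ofReal (8 / (Real.pi * y)) * (C * ∫⁻ x in Ioo (z - y) (z + y), w x) := by
  have hm : Measurable ((Ioo (z - y) (z + y)).indicator (1 : ℝ → ℝ≥0∞)) :=
    measurable_one.indicator measurableSet_Ioo
  have h1 := hC _ hm
  have h2 : ∫⁻ x, ((Ioo (z - y) (z + y)).indicator (1 : ℝ → ℝ≥0∞)) x ^ (2 : ℝ) * w x =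
      ∫⁻ x in Ioo (z - y) (z + y), w x := by
    rw [← lintegral_indicator measurableSet_Ioo]
    apply lintegral_congr
    intro x
    by_cases hx : x ∈ Ioo (z - y) (z + y)
    · rw [indicator_of_mem hx, indicator_of_mem hx]
      simp
    · rw [indicator_of_notMem hx, indicator_of_notMem hx]
      simp
  rw [h2] at h1
  refine le_trans ?_ (mul_le_mul_right h1 (ENNReal.ofReal (8 / (Real.pi * y))))
  rw [← lintegral_const_mul' _ _ ENNReal.ofReal_ne_top]
  apply lintegral_mono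
  intro x
  have h3 := po_MX z y x hy
  have hpi := Real.pi_pos
  have h4 : ENNReal.ofReal (pk (x - z) y) ≤ ENNReal.ofReal (8 / (Real.pi * y)) *
      MX volume ((Ioo (z - y) (z + y)).indicator 1) x ^ (2 : ℝ) := by
    calc ENNReal.ofReal (pk (x - z) y)
        ≤ ENNReal.ofReal ((8 / (Real.pi * y)) * (y / (2 * (y + |x - z|))) ^ 2) :=
          ENNReal.ofReal_le_ofReal (po_pk _ _ hy)
      _ = ENNReal.ofReal (8 / (Real.pi * y)) *
          ENNReal.ofReal (y / (2 * (y + |x - z|))) ^ (2 : ℝ) := by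
          rw [ENNReal.ofReal_mul (by positivity), ENNReal.ofReal_pow (by positivity)]
          congr 1
          exact (ENNReal.rpow_two _).symm
      _ ≤ _ := by
          gcongr
  calc ENNReal.ofReal (pk (x - z) y) * w x
      ≤ (ENNReal.ofReal (8 / (Real.pi * y)) *
        MX volume ((Ioo (z - y) (z + y)).indicator 1) x ^ (2 : ℝ)) * w x := by
        gcongr
    _ = _ := by ring

/-- The upper bound is finite. -/
theorem po_lint_lt {C A : ℝ≥0∞} (hCt : C ≠ ⊤) {w : ℝ → ℝ≥0∞} (h : ApW 2 w A)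
    (hC : ∀ F : ℝ → ℝ≥0∞, Measurable F →
      ∫⁻ x, MX volume F x ^ (2 : ℝ) * w x ≤ C * ∫⁻ x, F x ^ (2 : ℝ) * w x)
    (z y : ℝ) (hy : 0 < y) :
    ∫⁻ x, ENNReal.ofReal (pk (x - z) y) * w x < ⊤ := by
  refine lt_of_le_of_lt (po_lint hC z y hy) ?_
  apply ENNReal.mul_lt_top ENNReal.ofReal_lt_top
  apply ENNReal.mul_lt_top hCt.lt_top
  exact (int_w_ne_top (by norm_num) h (by linarith)).lt_top

/-- The dual weight for `p = 2` is the inverse. -/
theorem po_sg (w : ℝ → ℝ) (hw : ∀ t, 0 < w t) (x : ℝ) :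
    sg 2 (fun t => ENNReal.ofReal (w t)) x = ENNReal.ofReal ((w x)⁻¹) := by
  unfold sg
  have e : (-(1 / ((2 : ℝ) - 1))) = -1 := by norm_num
  rw [e, ENNReal.rpow_neg_one, ENNReal.ofReal_inv_of_pos (hw x)]

/-- The inverse of an `A_2` weight is an `A_2` weight with the same constant. -/
theorem po_inv {A : ℝ≥0∞} {w : ℝ → ℝ} (hwm : Measurable w) (hw : ∀ t, 0 < w t)
    (h : ApW 2 (fun t => ENNReal.ofReal (w t)) A) :
    ApW 2 (fun t => ENNReal.ofReal ((w t)⁻¹)) A := by
  have hw' : ∀ t, 0 < (w t)⁻¹ := fun t => inv_pos.2 (hw t)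
  refine ⟨hwm.inv.ennreal_ofReal, fun x => ENNReal.ofReal_ne_top, ?_, h.A_fin, ?_⟩
  · intro h0
    have h1 : ∀ᵐ x : ℝ, False := by
      filter_upwards [h0] with x hx
      have h2 : ENNReal.ofReal ((w x)⁻¹) = 0 := hx
      rw [ENNReal.ofReal_eq_zero] at h2
      linarith [hw' x]
    have h3 := ae_iff.1 h1
    simp at h3
  · intro a b hab
    have h1 := h.bd a b hab
    have e1 : ∫⁻ x in Ioo a b, sg 2 (fun t => ENNReal.ofReal (w t)) x =
        ∫⁻ x in Ioo a b, ENNReal.ofReal ((w x)⁻¹) :=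
      lintegral_congr (fun x => po_sg w hw x)
    have e2 : ∫⁻ x in Ioo a b, sg 2 (fun t => ENNReal.ofReal ((w t)⁻¹)) x =
        ∫⁻ x in Ioo a b, ENNReal.ofReal (w x) := by
      apply lintegral_congr
      intro x
      have := po_sg (fun t => (w t)⁻¹) hw' x
      rw [this, inv_inv]
    have e3 : ((2 : ℝ) - 1) = 1 := by norm_num
    rw [e1, e3, ENNReal.rpow_one] at h1
    rw [e2, e3, ENNReal.rpow_one, mul_comm]
    exact h1

/-- `PT` from a finite Poisson integral at `(0, 1)`. -/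
theorem po_PT {w : ℝ → ℝ} (hwm : Measurable w) (hw : ∀ t, 0 < w t)
    (h : ∫⁻ x, ENNReal.ofReal (pk (x - 0) 1) * ENNReal.ofReal (w x) < ⊤) : PT w := by
  have hpi := Real.pi_pos
  have h1 : Integrable (fun t => pk (t - 0) 1 * w t) := by
    refine ⟨((po_pk_meas 0 1).mul hwm).aestronglyMeasurable, ?_⟩
    rw [hasFiniteIntegral_iff_ofReal]
    · refine lt_of_le_of_lt (le_of_eq ?_) h
      apply lintegral_congr
      intro x
      rw [ENNReal.ofReal_mul (po_pk_nonneg _ _ one_pos)]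
    · exact Filter.Eventually.of_forall
        (fun t => mul_nonneg (po_pk_nonneg _ _ one_pos) (hw t).le)
  have h2 := h1.const_mul Real.pi
  unfold PT
  refine h2.congr (Filter.Eventually.of_forall (fun t => ?_))
  simp only [pk]
  have : (0 : ℝ) < 1 + t ^ 2 := by positivity
  have h3 : (t - 0) ^ 2 + 1 ^ 2 = 1 + t ^ 2 := by ring
  rw [h3]
  field_simp

/-- The Poisson integral as a lower integral. -/
theorem po_PI {w : ℝ → ℝ} (hwm : Measurable w) (hw : ∀ t, 0 < w t) (z y : ℝ) (hy : 0 < y) :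
    PI w z y = (∫⁻ x, ENNReal.ofReal (pk (x - z) y) * ENNReal.ofReal (w x)).toReal := by
  unfold PI
  rw [integral_eq_lintegral_of_nonneg_ae
    (Filter.Eventually.of_forall (fun t => mul_nonneg (po_pk_nonneg _ _ hy) (hw t).le))
    ((po_pk_meas z y).mul hwm).aestronglyMeasurable]
  congr 1
  apply lintegral_congr
  intro x
  rw [ENNReal.ofReal_mul (po_pk_nonneg _ _ hy)]

/-- An `A_2` weight satisfies the Poisson `A_2` condition, with a constant that depends only on
the `A_2` constant. -/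
theorem pois2 (A : ℝ≥0∞) (hA : A ≠ ⊤) : ∃ Q : ℝ, 1 ≤ Q ∧ ∀ w : ℝ → ℝ, Measurable w →
    (∀ t, 0 < w t) → ApW 2 (fun t => ENNReal.ofReal (w t)) A →
    PT w ∧ PT (fun t => (w t)⁻¹) ∧
      ∀ z y, 0 < y → PI w z y * PI (fun t => (w t)⁻¹) z y ≤ Q := by
  obtain ⟨C, hCt, hC⟩ := muck_unif (p := 2) (by norm_num) A hA
  have hpi := Real.pi_pos
  set K : ℝ≥0∞ := C * C * A * ENNReal.ofReal (256 / Real.pi ^ 2) with hK
  have hKt : K ≠ ⊤ := by
    apply ENNReal.mul_ne_top _ ENNReal.ofReal_ne_top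
    apply ENNReal.mul_ne_top (ENNReal.mul_ne_top hCt hCt) hA
  refine ⟨max 1 K.toReal, le_max_left _ _, ?_⟩
  intro w hwm hw h
  have hw' : ∀ t, 0 < (w t)⁻¹ := fun t => inv_pos.2 (hw t)
  have hwm' : Measurable (fun t => (w t)⁻¹) := hwm.inv
  have h' := po_inv hwm hw h
  have hC1 := hC _ h
  have hC2 := hC _ h'
  refine ⟨po_PT hwm hw (po_lint_lt hCt h hC1 0 1 one_pos),
    po_PT hwm' hw' (po_lint_lt hCt h' hC2 0 1 one_pos), ?_⟩
  intro z y hy
  refine le_trans ?_ (le_max_right _ _)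
  rw [po_PI hwm hw z y hy, po_PI hwm' hw' z y hy, ← ENNReal.toReal_mul]
  apply ENNReal.toReal_mono hKt
  refine le_trans (mul_le_mul' (po_lint hC1 z y hy) (po_lint hC2 z y hy)) ?_
  have hbd := h.bd (z - y) (z + y) (by linarith)
  have e1 : ∫⁻ x in Ioo (z - y) (z + y), sg 2 (fun t => ENNReal.ofReal (w t)) x =
      ∫⁻ x in Ioo (z - y) (z + y), ENNReal.ofReal ((w x)⁻¹) :=
    lintegral_congr (fun x => po_sg w hw x)
  have e3 : ((2 : ℝ) - 1) = 1 := by norm_num
  rw [e1, e3, ENNReal.rpow_one] at hbd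
  have e4 : z + y - (z - y) = 2 * y := by ring
  rw [e4, ENNReal.rpow_two] at hbd
  calc (ENNReal.ofReal (8 / (Real.pi * y)) *
        (C * ∫⁻ x in Ioo (z - y) (z + y), ENNReal.ofReal (w x))) *
      (ENNReal.ofReal (8 / (Real.pi * y)) *
        (C * ∫⁻ x in Ioo (z - y) (z + y), ENNReal.ofReal ((w x)⁻¹)))
      = (ENNReal.ofReal (8 / (Real.pi * y)) ^ 2 * (C * C)) *
        ((∫⁻ x in Ioo (z - y) (z + y), ENNReal.ofReal (w x)) *
          (∫⁻ x in Ioo (z - y) (z + y), ENNReal.ofReal ((w x)⁻¹))) := by ring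
    _ ≤ (ENNReal.ofReal (8 / (Real.pi * y)) ^ 2 * (C * C)) *
        (A * ENNReal.ofReal (2 * y) ^ 2) := by
        gcongr
    _ = C * C * A * (ENNReal.ofReal (8 / (Real.pi * y)) ^ 2 * ENNReal.ofReal (2 * y) ^ 2) := by
        ring
    _ = K := by
        rw [hK, ← ENNReal.ofReal_pow (by positivity), ← ENNReal.ofReal_pow (by positivity),
          ← ENNReal.ofReal_mul (by positivity)]
        congr 2
        field_simp
        norm_num

end Pool.Agent.TH407.GS
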