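import Pool.Agent.TH407.GS.Area
import Pool.Agent.TH407.GS.Pois
import Pool.Agent.TH407.GS.Bds
import Pool.Agent.TH407.GS.Int

/-!
`A_2` bound for the area function of aperture one, from the bound of the Littlewood-Paley
integral with the Poisson extension of the weight.
-/

set_option autoImplicit false
open MeasureTheory Set Filter Topology
open scoped ENNReal NNReal
open Pool.Agent.TH280.MZ
namespace Pool.Agent.TH407.GS

theorem co_meas_GR {f : ℝ → ℝ} (hf : Measurable f) :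
    Measurable (fun q : ℝ × ℝ => GR f q.1 q.2) := by
  obtain ⟨-, h1, h2, -⟩ := measurable_PI hf
  exact ((h1.pow_const 2).add (h2.pow_const 2)).ennreal_ofReal

/-- the integrand -/
noncomputable def co_K (f w : ℝ → ℝ) (x z y : ℝ) : ℝ≥0∞ :=
  {q : ℝ × ℝ × ℝ | |q.1 - q.2.1| < 1 * q.2.2}.indicator
    (fun q => GR f q.2.1 q.2.2) (x, z, y) * ENNReal.ofReal (w x)

theorem co_meas_K {f w : ℝ → ℝ} (hf : Measurable f) (hw : Measurable w) :
    Measurable (fun q : ℝ × ℝ × ℝ => co_K f w q.1 q.2.1 q.2.2) := by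
  have h1 : MeasurableSet {q : ℝ × ℝ × ℝ | |q.1 - q.2.1| < 1 * q.2.2} :=
    measurableSet_lt (by fun_prop) (by fun_prop)
  have h2 : Measurable fun q : ℝ × ℝ × ℝ => GR f q.2.1 q.2.2 :=
    (co_meas_GR hf).comp measurable_snd
  have h3 : Measurable fun q : ℝ × ℝ × ℝ => ENNReal.ofReal (w q.1) :=
    (hw.comp measurable_fst).ennreal_ofReal
  exact (h2.indicator h1).mul h3

theorem co_swap {f w : ℝ → ℝ} (hf : Measurable f) (hw : Measurable w) :
    ∫⁻ x, SQ 1 (GR f) x * ENNReal.ofReal (w x) =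
      ∫⁻ z, ∫⁻ y in Ioi (0 : ℝ), ∫⁻ x, co_K f w x z y := by
  have hK := co_meas_K hf hw
  have h1 : ∀ x, SQ 1 (GR f) x * ENNReal.ofReal (w x) =
      ∫⁻ z, ∫⁻ y in Ioi (0 : ℝ), co_K f w x z y := by
    intro x
    unfold SQ
    rw [← lintegral_mul_const' _ _ ENNReal.ofReal_ne_top]
    apply lintegral_congr
    intro z
    rw [← lintegral_mul_const' _ _ ENNReal.ofReal_ne_top]
    apply lintegral_congr
    intro y
    unfold co_K
    congr 1
  simp_rw [h1]
  have h2 : Measurable (fun q : ℝ × ℝ => ∫⁻ y in Ioi (0 : ℝ), co_K f w q.1 q.2 y) := by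
    have h3 : Measurable (fun q : (ℝ × ℝ) × ℝ => co_K f w q.1.1 q.1.2 q.2) :=
      hK.comp (by fun_prop : Measurable fun q : (ℝ × ℝ) × ℝ => (q.1.1, q.1.2, q.2))
    exact h3.lintegral_prod_right'
  rw [lintegral_lintegral_swap h2.aemeasurable]
  apply lintegral_congr
  intro z
  have h4 : Measurable (fun q : ℝ × ℝ => co_K f w q.1 z q.2) :=
    hK.comp (by fun_prop : Measurable fun q : ℝ × ℝ => (q.1, z, q.2))
  rw [lintegral_lintegral_swap h4.aemeasurable]

theorem co_inner {f w : ℝ → ℝ} (hw : ∀ t, 0 < w t) (hm : Measurable w) (h1 : PT w) {y : ℝ}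
    (hy : 0 < y) (z : ℝ) :
    ∫⁻ x, co_K f w x z y ≤
      ENNReal.ofReal (2 * Real.pi) * (ENNReal.ofReal (y * PI w z y) * GR f z y) := by
  have h2 : ∀ x, co_K f w x z y =
      (Ioo (z - y) (z + y)).indicator (fun x => GR f z y * ENNReal.ofReal (w x)) x := by
    intro x
    unfold co_K
    have hiff : |x - z| < 1 * y ↔ x ∈ Ioo (z - y) (z + y) := by
      rw [one_mul, abs_lt, mem_Ioo]
      constructor
      · intro h
        constructor <;> linarith [h.1, h.2]
      · intro h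
        constructor <;> linarith [h.1, h.2]
    by_cases h : |x - z| < 1 * y
    · rw [indicator_of_mem (show (x, z, y) ∈
        {q : ℝ × ℝ × ℝ | |q.1 - q.2.1| < 1 * q.2.2} from h), indicator_of_mem (hiff.mp h)]
    · rw [indicator_of_notMem (show (x, z, y) ∉
        {q : ℝ × ℝ × ℝ | |q.1 - q.2.1| < 1 * q.2.2} from h),
        indicator_of_notMem (fun h' => h (hiff.mpr h')), zero_mul]
  simp_rw [h2]
  rw [lintegral_indicator measurableSet_Ioo, lintegral_const_mul' _ _ (by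
    unfold GR; exact ENNReal.ofReal_ne_top)]
  calc GR f z y * ∫⁻ x in Ioo (z - y) (z + y), ENNReal.ofReal (w x)
      ≤ GR f z y * ENNReal.ofReal (2 * Real.pi * (y * PI w z y)) :=
        mul_le_mul_right (ball_le hw hm h1 hy z) _
    _ = ENNReal.ofReal (2 * Real.pi) * (ENNReal.ofReal (y * PI w z y) * GR f z y) := by
        rw [ENNReal.ofReal_mul (by positivity)]
        ring

-- GS-CONE
theorem cone2 (A : ℝ≥0∞) (hA : A ≠ ⊤) : ∃ C : ℝ≥0∞, C ≠ ⊤ ∧ ∀ w : ℝ → ℝ, Measurable w →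
    (∀ t, 0 < w t) → ApW 2 (fun t => ENNReal.ofReal (w t)) A →
    ∀ f : ℝ → ℝ, Measurable f → Integrable (fun t => f t ^ 2 * w t) →
    ∫⁻ x, SQ 1 (GR f) x * ENNReal.ofReal (w x) ≤
      C * ∫⁻ t, ENNReal.ofReal (f t ^ 2 * w t) := by
  obtain ⟨Q, hQ, hpois⟩ := pois2 A hA
  obtain ⟨C0, hC0, harea⟩ := area2 Q hQ
  refine ⟨ENNReal.ofReal (2 * Real.pi) * C0, ENNReal.mul_ne_top ENNReal.ofReal_ne_top hC0, ?_⟩
  intro w hw hw0 hap f hf hi
  obtain ⟨p1, p2, p3⟩ := hpois w hw hw0 hap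
  rw [co_swap hf hw]
  calc ∫⁻ z, ∫⁻ y in Ioi (0 : ℝ), ∫⁻ x, co_K f w x z y
      ≤ ∫⁻ z, ∫⁻ y in Ioi (0 : ℝ),
          ENNReal.ofReal (2 * Real.pi) * (ENNReal.ofReal (y * PI w z y) * GR f z y) := by
        apply lintegral_mono
        intro z
        apply setLIntegral_mono' measurableSet_Ioi
        intro y hy
        exact co_inner hw0 hw p1 hy z
    _ = ENNReal.ofReal (2 * Real.pi) *
          ∫⁻ z, ∫⁻ y in Ioi (0 : ℝ), ENNReal.ofReal (y * PI w z y) * GR f z y := by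
        rw [← lintegral_const_mul' _ _ ENNReal.ofReal_ne_top]
        apply lintegral_congr
        intro z
        rw [lintegral_const_mul' _ _ ENNReal.ofReal_ne_top]
    _ ≤ ENNReal.ofReal (2 * Real.pi) * (C0 * ∫⁻ t, ENNReal.ofReal (f t ^ 2 * w t)) :=
        mul_le_mul_right (harea w hw hw0 p1 p2 p3 f hf hi) _
    _ = ENNReal.ofReal (2 * Real.pi) * C0 * ∫⁻ t, ENNReal.ofReal (f t ^ 2 * w t) := by
        rw [mul_assoc]

end Pool.Agent.TH407.GS
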