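import Pool.Agent.TH407.GS.Defs

/-!
Differentiation of the Poisson integral under the integral sign.
-/

set_option autoImplicit false
open MeasureTheory Set Filter Topology
open scoped ENNReal NNReal
open Pool.Agent.TH280.MZ

namespace Pool.Agent.TH407.GS

/-! ### Derivatives of the kernels -/

lemma df_pos (s : ℝ) {y : ℝ} (hy : 0 < y) : 0 < s ^ 2 + y ^ 2 := by positivity

lemma df_z (t : ℝ) {y : ℝ} (hy : 0 < y) (z : ℝ) :
    HasDerivAt (fun s => pk (t - s) y) (pkz (t - z) y) z := by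
  have hD := (df_pos (t - z) hy).ne'
  have h1 : HasDerivAt (fun s : ℝ => (t - s) ^ 2 + y ^ 2) (2 * (t - z) * (-1)) z := by
    have h := (((hasDerivAt_id z).const_sub t).pow 2).add_const (y ^ 2)
    refine h.congr_deriv ?_
    simp
  have h2 := ((hasDerivAt_const z y).div h1 hD).const_mul (1 / Real.pi)
  refine h2.congr_deriv ?_
  unfold pkz
  field_simp
  ring

lemma df_y (s : ℝ) {y : ℝ} (hy : 0 < y) :
    HasDerivAt (fun u => pk s u) (pky s y) y := by
  have hD := (df_pos s hy).ne'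
  have h1 : HasDerivAt (fun u : ℝ => s ^ 2 + u ^ 2) (2 * y) y := by
    have h := ((hasDerivAt_id y).pow 2).const_add (s ^ 2)
    refine h.congr_deriv ?_
    simp
  have h2 := ((hasDerivAt_id y).div h1 hD).const_mul (1 / Real.pi)
  refine h2.congr_deriv ?_
  unfold pky
  simp only [id]
  field_simp
  ring

lemma df_zz (t : ℝ) {y : ℝ} (hy : 0 < y) (z : ℝ) :
    HasDerivAt (fun s => pkz (t - s) y) (pkzz (t - z) y) z := by
  have hD := (df_pos (t - z) hy).ne'
  have h1 : HasDerivAt (fun s : ℝ => (t - s) ^ 2 + y ^ 2) (2 * (t - z) * (-1)) z := by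
    have h := (((hasDerivAt_id z).const_sub t).pow 2).add_const (y ^ 2)
    refine h.congr_deriv ?_
    simp
  have h3 : HasDerivAt (fun s : ℝ => 2 * y * (t - s)) (2 * y * (-1)) z :=
    ((hasDerivAt_id z).const_sub t).const_mul (2 * y)
  have h2 := (h3.div (h1.pow 2) (pow_ne_zero 2 hD)).const_mul (1 / Real.pi)
  refine h2.congr_deriv ?_
  unfold pkzz
  simp only [Pi.pow_apply]
  field_simp
  ring

lemma df_yy (s : ℝ) {y : ℝ} (hy : 0 < y) :
    HasDerivAt (fun u => pky s u) (-pkzz s y) y := by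
  have hD := (df_pos s hy).ne'
  have h1 : HasDerivAt (fun u : ℝ => s ^ 2 + u ^ 2) (2 * y) y := by
    have h := ((hasDerivAt_id y).pow 2).const_add (s ^ 2)
    refine h.congr_deriv ?_
    simp
  have h3 : HasDerivAt (fun u : ℝ => s ^ 2 - u ^ 2) (-(2 * y)) y := by
    have h := ((hasDerivAt_id y).pow 2).const_sub (s ^ 2)
    refine h.congr_deriv ?_
    simp
  have h2 := (h3.div (h1.pow 2) (pow_ne_zero 2 hD)).const_mul (1 / Real.pi)
  refine h2.congr_deriv ?_
  unfold pkzz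
  simp only [Pi.pow_apply]
  field_simp
  ring

/-! ### Bounds for the kernels -/

lemma df_pi : 0 < 1 / Real.pi ∧ 1 / Real.pi ≤ 1 := by
  have := Real.pi_gt_three
  constructor
  · positivity
  · rw [div_le_one (by linarith)]
    linarith

lemma df_bk (s : ℝ) {y : ℝ} (hy : 0 < y) : |pk s y| ≤ y * (1 / (s ^ 2 + y ^ 2)) := by
  have hD := df_pos s hy
  unfold pk
  rw [abs_of_nonneg (mul_nonneg df_pi.1.le (by positivity))]
  calc 1 / Real.pi * (y / (s ^ 2 + y ^ 2)) ≤ 1 * (y / (s ^ 2 + y ^ 2)) :=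
        mul_le_mul_of_nonneg_right df_pi.2 (by positivity)
    _ = y * (1 / (s ^ 2 + y ^ 2)) := by ring

lemma df_bz (s : ℝ) {y : ℝ} (hy : 0 < y) : |pkz s y| ≤ 1 / (s ^ 2 + y ^ 2) := by
  have hD := df_pos s hy
  unfold pkz
  rw [abs_mul, abs_of_pos df_pi.1, abs_div, abs_of_pos (pow_pos hD 2)]
  calc 1 / Real.pi * (|2 * y * s| / (s ^ 2 + y ^ 2) ^ 2) ≤
        1 * (|2 * y * s| / (s ^ 2 + y ^ 2) ^ 2) :=
        mul_le_mul_of_nonneg_right df_pi.2 (by positivity)
    _ ≤ 1 * ((s ^ 2 + y ^ 2) / (s ^ 2 + y ^ 2) ^ 2) := by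
        refine mul_le_mul_of_nonneg_left (div_le_div_of_nonneg_right ?_ (by positivity)) (by norm_num)
        rw [abs_le]
        constructor <;> nlinarith [sq_nonneg (s + y), sq_nonneg (s - y)]
    _ = 1 / (s ^ 2 + y ^ 2) := by field_simp

lemma df_by (s : ℝ) {y : ℝ} (hy : 0 < y) : |pky s y| ≤ 1 / (s ^ 2 + y ^ 2) := by
  have hD := df_pos s hy
  unfold pky
  rw [abs_mul, abs_of_pos df_pi.1, abs_div, abs_of_pos (pow_pos hD 2)]
  calc 1 / Real.pi * (|s ^ 2 - y ^ 2| / (s ^ 2 + y ^ 2) ^ 2) ≤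
        1 * (|s ^ 2 - y ^ 2| / (s ^ 2 + y ^ 2) ^ 2) :=
        mul_le_mul_of_nonneg_right df_pi.2 (by positivity)
    _ ≤ 1 * ((s ^ 2 + y ^ 2) / (s ^ 2 + y ^ 2) ^ 2) := by
        refine mul_le_mul_of_nonneg_left (div_le_div_of_nonneg_right ?_ (by positivity)) (by norm_num)
        rw [abs_le]
        constructor <;> nlinarith [sq_nonneg s, sq_nonneg y]
    _ = 1 / (s ^ 2 + y ^ 2) := by field_simp

lemma df_bzz (s : ℝ) {y : ℝ} (hy : 0 < y) : |pkzz s y| ≤ 6 / y * (1 / (s ^ 2 + y ^ 2)) := by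
  have hD := df_pos s hy
  unfold pkzz
  rw [abs_mul, abs_of_pos df_pi.1, abs_div, abs_of_pos (pow_pos hD 3)]
  calc 1 / Real.pi * (|2 * y * (3 * s ^ 2 - y ^ 2)| / (s ^ 2 + y ^ 2) ^ 3) ≤
        1 * (|2 * y * (3 * s ^ 2 - y ^ 2)| / (s ^ 2 + y ^ 2) ^ 3) :=
        mul_le_mul_of_nonneg_right df_pi.2 (by positivity)
    _ ≤ 1 * ((6 / y * (s ^ 2 + y ^ 2) ^ 2) / (s ^ 2 + y ^ 2) ^ 3) := by
        refine mul_le_mul_of_nonneg_left (div_le_div_of_nonneg_right ?_ (by positivity)) (by norm_num)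
        rw [abs_mul, abs_of_pos (by positivity : 0 < 2 * y)]
        have h1 : |3 * s ^ 2 - y ^ 2| ≤ 3 * (s ^ 2 + y ^ 2) := by
          rw [abs_le]
          constructor <;> nlinarith [sq_nonneg s, sq_nonneg y]
        calc 2 * y * |3 * s ^ 2 - y ^ 2| ≤ 2 * y * (3 * (s ^ 2 + y ^ 2)) :=
              mul_le_mul_of_nonneg_left h1 (by positivity)
          _ = 6 / y * ((s ^ 2 + y ^ 2) * y ^ 2) := by field_simp; ring
          _ ≤ 6 / y * ((s ^ 2 + y ^ 2) * (s ^ 2 + y ^ 2)) := by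
              refine mul_le_mul_of_nonneg_left ?_ (by positivity)
              refine mul_le_mul_of_nonneg_left ?_ hD.le
              nlinarith [sq_nonneg s]
          _ = 6 / y * (s ^ 2 + y ^ 2) ^ 2 := by ring
    _ = 6 / y * (1 / (s ^ 2 + y ^ 2)) := by field_simp

/-- comparison of the denominators -/
lemma df_cmp {z y z' y' : ℝ} (hy : 0 < y) (hz' : |z' - z| < 1) (hy' : y / 2 < y') (t : ℝ) :
    1 / ((t - z') ^ 2 + y' ^ 2) ≤ (2 + (2 * (|z| + 1) ^ 2 + 1) * 4 / y ^ 2) / (1 + t ^ 2) := by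
  have hy'0 : 0 < y' := by linarith
  have hD := df_pos (t - z') hy'0
  rw [div_le_div_iff₀ hD (by positivity), one_mul]
  have h1 : |z'| ≤ |z| + 1 := by
    have := abs_add_le (z' - z) z
    rw [sub_add_cancel] at this
    linarith
  have h2 : z' ^ 2 ≤ (|z| + 1) ^ 2 := by
    rw [← sq_abs z']
    exact pow_le_pow_left₀ (abs_nonneg _) h1 2
  have h3 : t ^ 2 ≤ 2 * (t - z') ^ 2 + 2 * z' ^ 2 := by nlinarith [sq_nonneg (t - 2 * z')]
  have h4 : y ^ 2 / 4 ≤ y' ^ 2 := by nlinarith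
  have h5 : 2 * (|z| + 1) ^ 2 + 1 ≤ (2 * (|z| + 1) ^ 2 + 1) * 4 / y ^ 2 * y' ^ 2 := by
    calc 2 * (|z| + 1) ^ 2 + 1 = (2 * (|z| + 1) ^ 2 + 1) * 4 / y ^ 2 * (y ^ 2 / 4) := by
          field_simp
      _ ≤ _ := mul_le_mul_of_nonneg_left h4 (by positivity)
  have h6 : 0 ≤ (2 * (|z| + 1) ^ 2 + 1) * 4 / y ^ 2 * (t - z') ^ 2 := by positivity
  nlinarith [sq_nonneg y']

/-! ### Measurability -/

lemma df_meas {g : ℝ → ℝ} (hg : PT g) : AEStronglyMeasurable g volume := by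
  have h1 : AEStronglyMeasurable (fun t => g t / (1 + t ^ 2) * (1 + t ^ 2)) volume :=
    hg.aestronglyMeasurable.mul (by fun_prop)
  refine h1.congr (Eventually.of_forall fun t => ?_)
  have : (1 + t ^ 2 : ℝ) ≠ 0 := by positivity
  field_simp

lemma df_mk (z y : ℝ) : Measurable (fun t => pk (t - z) y) := by unfold pk; fun_prop

lemma df_mz (z y : ℝ) : Measurable (fun t => pkz (t - z) y) := by unfold pkz; fun_prop

lemma df_my (z y : ℝ) : Measurable (fun t => pky (t - z) y) := by unfold pky; fun_prop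

lemma df_mzz (z y : ℝ) : Measurable (fun t => pkzz (t - z) y) := by unfold pkzz; fun_prop

/-- the general statement -/
lemma df_gen {g : ℝ → ℝ} (hg : PT g) {F F' : ℝ → ℝ → ℝ} {u0 C : ℝ} {U : Set ℝ} (hU : U ∈ 𝓝 u0)
    (hm : ∀ u, Measurable (F u)) (hm' : Measurable (F' u0))
    (hd : ∀ u ∈ U, ∀ t, HasDerivAt (fun u => F u t) (F' u t) u)
    (hb : ∀ t, |F u0 t| ≤ C / (1 + t ^ 2)) (hb' : ∀ u ∈ U, ∀ t, |F' u t| ≤ C / (1 + t ^ 2)) :
    HasDerivAt (fun u => ∫ t, F u t * g t) (∫ t, F' u0 t * g t) u0 := by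
  have hgm := df_meas hg
  have hbd : Integrable (fun t => C * |g t / (1 + t ^ 2)|) volume := (hg.abs).const_mul C
  have hle : ∀ (a t : ℝ), |a| ≤ C / (1 + t ^ 2) → ‖a * g t‖ ≤ C * |g t / (1 + t ^ 2)| := by
    intro a t ha
    have h0 : (0 : ℝ) < 1 + t ^ 2 := by positivity
    rw [Real.norm_eq_abs, abs_mul, abs_div, abs_of_pos h0]
    calc |a| * |g t| ≤ C / (1 + t ^ 2) * |g t| := mul_le_mul_of_nonneg_right ha (abs_nonneg _)
      _ = C * (|g t| / (1 + t ^ 2)) := by ring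
  refine (hasDerivAt_integral_of_dominated_loc_of_deriv_le (F := fun u t => F u t * g t)
    (F' := fun u t => F' u t * g t) (bound := fun t => C * |g t / (1 + t ^ 2)|) hU ?_ ?_ ?_ ?_ hbd
    ?_).2
  · exact Eventually.of_forall fun u => (hm u).aestronglyMeasurable.mul hgm
  · refine hbd.mono' ((hm u0).aestronglyMeasurable.mul hgm) (Eventually.of_forall fun t => ?_)
    exact hle _ _ (hb t)
  · exact hm'.aestronglyMeasurable.mul hgm
  · exact Eventually.of_forall fun t u hu => hle _ _ (hb' u hu t)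
  · exact Eventually.of_forall fun t u hu => (hd u hu t).mul_const (g t)

-- GS-DIFF
theorem har {g : ℝ → ℝ} (hg : PT g) {y : ℝ} (hy : 0 < y) (z : ℝ) :
    HasDerivAt (fun s => PI g s y) (PIz g z y) z ∧
    HasDerivAt (fun t => PI g z t) (PIy g z y) y ∧
    HasDerivAt (fun s => PIz g s y) (PIzz g z y) z ∧
    HasDerivAt (fun t => PIy g z t) (-PIzz g z y) y := by
  set D : ℝ := 2 + (2 * (|z| + 1) ^ 2 + 1) * 4 / y ^ 2 with hD
  have hD0 : 0 < D := by positivity
  set C : ℝ := (2 * y + 1 + 12 / y) * D with hC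
  have hz1 : |z - z| < 1 := by simp
  have hy1 : y / 2 < y := by linarith
  have key : ∀ (a : ℝ), a ≤ 2 * y + 1 + 12 / y → ∀ z' y' : ℝ, |z' - z| < 1 → y / 2 < y' →
      ∀ t : ℝ, ∀ b : ℝ, b ≤ a * (1 / ((t - z') ^ 2 + y' ^ 2)) → 0 ≤ a → b ≤ C / (1 + t ^ 2) := by
    intro a ha z' y' hz' hy' t b hb ha0
    have h1 := df_cmp hy hz' hy' t
    have h0 : (0 : ℝ) < 1 + t ^ 2 := by positivity
    calc b ≤ a * (1 / ((t - z') ^ 2 + y' ^ 2)) := hb
      _ ≤ a * (D / (1 + t ^ 2)) := mul_le_mul_of_nonneg_left h1 ha0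
      _ ≤ (2 * y + 1 + 12 / y) * (D / (1 + t ^ 2)) :=
          mul_le_mul_of_nonneg_right ha (by positivity)
      _ = C / (1 + t ^ 2) := by rw [hC]; ring
  have h12 : 0 < 12 / y := by positivity
  -- the four bounds
  have bk : ∀ z' y' : ℝ, |z' - z| < 1 → y / 2 < y' → y' < 2 * y → ∀ t, |pk (t - z') y'| ≤
      C / (1 + t ^ 2) := by
    intro z' y' hz' hy' hy'' t
    exact key y' (by linarith) z' y' hz' hy' t _ (df_bk (t - z') (by linarith)) (by linarith)
  have bz : ∀ z' y' : ℝ, |z' - z| < 1 → y / 2 < y' → y' < 2 * y → ∀ t, |pkz (t - z') y'| ≤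
      C / (1 + t ^ 2) := by
    intro z' y' hz' hy' hy'' t
    refine key 1 (by linarith) z' y' hz' hy' t _ ?_ (by norm_num)
    rw [one_mul]
    exact df_bz (t - z') (by linarith)
  have bym : ∀ z' y' : ℝ, |z' - z| < 1 → y / 2 < y' → y' < 2 * y → ∀ t, |pky (t - z') y'| ≤
      C / (1 + t ^ 2) := by
    intro z' y' hz' hy' hy'' t
    refine key 1 (by linarith) z' y' hz' hy' t _ ?_ (by norm_num)
    rw [one_mul]
    exact df_by (t - z') (by linarith)
  have bzz : ∀ z' y' : ℝ, |z' - z| < 1 → y / 2 < y' → y' < 2 * y → ∀ t, |pkzz (t - z') y'| ≤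
      C / (1 + t ^ 2) := by
    intro z' y' hz' hy' hy'' t
    have hy0 : 0 < y' := by linarith
    refine key (6 / y') ?_ z' y' hz' hy' t _ (df_bzz (t - z') hy0) (by positivity)
    have : 6 / y' ≤ 12 / y := by
      rw [div_le_div_iff₀ hy0 hy]
      linarith
    linarith
  have nz : {u : ℝ | |u - z| < 1} ∈ 𝓝 z := by
    have := Metric.ball_mem_nhds z one_pos
    refine Filter.mem_of_superset this fun u hu => ?_
    rw [Metric.mem_ball, Real.dist_eq] at hu
    exact hu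
  have ny : Ioo (y / 2) (2 * y) ∈ 𝓝 y := Ioo_mem_nhds (by linarith) (by linarith)
  refine ⟨?_, ?_, ?_, ?_⟩
  · exact df_gen (F := fun s t => pk (t - s) y) (F' := fun s t => pkz (t - s) y) hg nz
      (fun u => df_mk u y) (df_mz z y) (fun u _ t => df_z t hy u)
      (bk z y hz1 hy1 (by linarith)) (fun u hu t => bz u y hu hy1 (by linarith) t)
  · exact df_gen (F := fun s t => pk (t - z) s) (F' := fun s t => pky (t - z) s) hg ny
      (fun u => df_mk z u) (df_my z y) (fun u hu t => df_y (t - z) (by linarith [hu.1]))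
      (bk z y hz1 hy1 (by linarith)) (fun u hu t => bym z u hz1 hu.1 hu.2 t)
  · exact df_gen (F := fun s t => pkz (t - s) y) (F' := fun s t => pkzz (t - s) y) hg nz
      (fun u => df_mz u y) (df_mzz z y) (fun u _ t => df_zz t hy u)
      (bz z y hz1 hy1 (by linarith)) (fun u hu t => bzz u y hu hy1 (by linarith) t)
  · have h := df_gen (F := fun s t => pky (t - z) s) (F' := fun s t => -pkzz (t - z) s) hg ny
      (fun u => df_my z u) (df_mzz z y).neg (fun u hu t => df_yy (t - z) (by linarith [hu.1]))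
      (bym z y hz1 hy1 (by linarith)) (fun u hu t => by
        rw [abs_neg]
        exact bzz z u hz1 hu.1 hu.2 t)
    have h2 : ∫ t, -pkzz (t - z) y * g t = -PIzz g z y := by
      unfold PIzz
      rw [← integral_neg]
      congr 1
      funext t
      ring
    rw [h2] at h
    exact h

end Pool.Agent.TH407.GS
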