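import Pool.Agent.TH280.MZ.Muck
import Pool.Agent.TH407.GS.Defs
set_option autoImplicit false
open MeasureTheory Set Filter Topology
open scoped ENNReal NNReal
open Pool.Agent.TH280.MZ
namespace Pool.Agent.TH407.GS

/-- a function with no zero is not almost everywhere zero on an interval -/
lemma ew_int_ne_zero {R : ℝ → ℝ≥0∞} (hR : Measurable R) (h0 : ∀ x, R x ≠ 0) {a b : ℝ}
    (hab : a < b) : ∫⁻ x in Ioo a b, R x ≠ 0 := by
  intro h
  rw [lintegral_eq_zero_iff hR] at h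
  have h1 : (volume.restrict (Ioo a b)) univ = 0 := by
    have : ∀ᵐ x ∂(volume.restrict (Ioo a b)), False := by
      filter_upwards [h] with x hx
      exact h0 x hx
    have h2 := ae_iff.1 this
    have e : {x : ℝ | ¬ False} = univ := by
      ext x
      constructor
      · intro _; trivial
      · intro _ hf; exact hf
    rwa [e] at h2
  rw [Measure.restrict_apply_univ, Real.volume_Ioo] at h1
  simp only [ENNReal.ofReal_eq_zero] at h1
  linarith

/-- a property that holds almost everywhere holds somewhere in an interval -/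
lemma ew_exists {P : ℝ → Prop} (hP : ∀ᵐ x, P x) {a b : ℝ} (hab : a < b) :
    ∃ x ∈ Ioo a b, P x := by
  by_contra hcon
  push Not at hcon
  have h1 : volume (Ioo a b) = 0 := by
    refine measure_mono_null ?_ (ae_iff.1 hP)
    intro x hx
    exact hcon x hx
  rw [Real.volume_Ioo] at h1
  simp only [ENNReal.ofReal_eq_zero] at h1
  linarith

lemma ew_bd {p : ℝ} (hp1 : 1 < p) (hp2 : p < 2) {U : ℝ → ℝ≥0∞} {A : ℝ≥0∞} (h : ApW p U A)
    {B : ℝ} (hB : 1 ≤ B) {R : ℝ → ℝ≥0∞} (hR : Measurable R)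
    (h0 : ∀ x, R x ≠ 0) (hRt : ∀ᵐ x, R x ≠ ⊤)
    (hM : ∀ x, MX volume R x ≤ ENNReal.ofReal B * R x) {w : ℝ → ℝ≥0∞}
    (hw : ∀ᵐ x, w x = R x ^ (p - 2) * U x) {a b : ℝ} (hab : a < b) :
    (∫⁻ x in Ioo a b, w x) * (∫⁻ x in Ioo a b, sg 2 w x) ^ ((2 : ℝ) - 1) ≤
      (ENNReal.ofReal B ^ (2 - p) * A) * ENNReal.ofReal (b - a) ^ (2 : ℝ) := by
  have h2p : 0 < 2 - p := by linarith
  have hp1' : 0 < p - 1 := by linarith
  set L : ℝ≥0∞ := ENNReal.ofReal (b - a) with hL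
  have hL0 : L ≠ 0 := by
    rw [hL]; simp only [ne_eq, ENNReal.ofReal_eq_zero, not_le]; linarith
  have hLt : L ≠ ⊤ := ENNReal.ofReal_ne_top
  have hvol : volume (Ioo a b) = L := by rw [Real.volume_Ioo]
  set J : ℝ≥0∞ := ∫⁻ x in Ioo a b, R x with hJ
  have hJ0 : J ≠ 0 := ew_int_ne_zero hR h0 hab
  set m : ℝ≥0∞ := J / L with hm
  have hmle : ∀ x ∈ Ioo a b, m ≤ ENNReal.ofReal B * R x := by
    intro x hx
    refine le_trans ?_ (hM x)
    have := le_MX volume R hx.1 hx.2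
    rw [hvol] at this
    exact this
  have hmt : m ≠ ⊤ := by
    obtain ⟨x, hx, hxt⟩ := ew_exists hRt hab
    exact ne_top_of_le_ne_top (ENNReal.mul_ne_top ENNReal.ofReal_ne_top hxt) (hmle x hx)
  have hm0 : m ≠ 0 := by
    rw [hm]
    exact ENNReal.div_ne_zero.2 ⟨hJ0, hLt⟩
  have hJm : J = m * L := by
    rw [hm, ENNReal.div_mul_cancel hL0 hLt]
  set c : ℝ≥0∞ := m ^ (2 - p) with hc
  have hc0 : c ≠ 0 := by
    rw [hc]
    intro hh
    rw [ENNReal.rpow_eq_zero_iff] at hh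
    rcases hh with hh | hh
    · exact hm0 hh.1
    · exact hmt hh.1
  have hct : c ≠ ⊤ := ENNReal.rpow_ne_top_of_nonneg h2p.le hmt
  set β : ℝ≥0∞ := ENNReal.ofReal B ^ (2 - p) with hβ
  have hβt : β ≠ ⊤ := ENNReal.rpow_ne_top_of_nonneg h2p.le ENNReal.ofReal_ne_top
  have hβ0 : β ≠ 0 := by
    rw [hβ]
    intro hh
    rw [ENNReal.rpow_eq_zero_iff] at hh
    rcases hh with hh | hh
    · have := hh.1
      rw [ENNReal.ofReal_eq_zero] at this
      linarith
    · exact ENNReal.ofReal_ne_top hh.1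
  -- pointwise bound
  have hpt : ∀ x ∈ Ioo a b, R x ^ (p - 2) ≤ β * c⁻¹ := by
    intro x hx
    have h1 : c ≤ β * R x ^ (2 - p) := by
      rw [hc, hβ, ← ENNReal.mul_rpow_of_nonneg _ _ h2p.le]
      exact ENNReal.rpow_le_rpow (hmle x hx) h2p.le
    have h2 : R x ^ (p - 2) = (R x ^ (2 - p))⁻¹ := by
      rw [← ENNReal.rpow_neg]
      congr 1
      ring
    rw [h2]
    have h3 : (β * R x ^ (2 - p))⁻¹ ≤ c⁻¹ := ENNReal.inv_le_inv.2 h1
    calc (R x ^ (2 - p))⁻¹ = β * (β * R x ^ (2 - p))⁻¹ := by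
          rw [ENNReal.mul_inv (Or.inl hβ0) (Or.inl hβt), ← mul_assoc,
            ENNReal.mul_inv_cancel hβ0 hβt, one_mul]
      _ ≤ β * c⁻¹ := by gcongr
  set S : ℝ≥0∞ := ∫⁻ x in Ioo a b, sg p U x with hS
  set W : ℝ≥0∞ := ∫⁻ x in Ioo a b, U x with hW
  have h1 : ∫⁻ x in Ioo a b, w x ≤ β * c⁻¹ * W := by
    rw [hW, ← lintegral_const_mul _ h.meas]
    apply lintegral_mono_ae
    filter_upwards [ae_restrict_of_ae hw, ae_restrict_mem measurableSet_Ioo] with x hx hxI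
    rw [hx]
    gcongr
    exact hpt x hxI
  have h2 : ∫⁻ x in Ioo a b, sg 2 w x ≤ J ^ (2 - p) * S ^ (p - 1) := by
    have hconj : Real.HolderConjugate (1 / (2 - p)) (1 / (p - 1)) := by
      rw [Real.holderConjugate_iff]
      refine ⟨?_, ?_⟩
      · rw [lt_div_iff₀ h2p]; linarith
      · field_simp
        ring
    have hh := ENNReal.lintegral_mul_le_Lp_mul_Lq (volume.restrict (Ioo a b)) hconj
      (f := fun x => R x ^ (2 - p)) (g := fun x => (U x)⁻¹)
      (hR.pow_const _).aemeasurable h.meas.inv.aemeasurable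
    have e1 : ∀ x, (R x ^ (2 - p)) ^ (2 - p)⁻¹ = R x := by
      intro x
      rw [← ENNReal.rpow_mul, mul_inv_cancel₀ h2p.ne', ENNReal.rpow_one]
    have e2 : ∀ x, ((U x)⁻¹) ^ (p - 1)⁻¹ = sg p U x := by
      intro x
      unfold sg
      rw [ENNReal.inv_rpow, ← ENNReal.rpow_neg, one_div]
    simp only [one_div, inv_inv] at hh
    simp only [e1, e2] at hh
    refine le_trans (le_of_eq ?_) hh
    apply lintegral_congr_ae
    filter_upwards [ae_restrict_of_ae hw, ae_restrict_of_ae hRt,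
      ae_restrict_of_ae (ae_ne_zero hp1 h)] with x hx hxt hxU
    simp only [Pi.mul_apply]
    unfold sg
    have e3 : -(1 / ((2 : ℝ) - 1)) = -1 := by norm_num
    rw [e3, ENNReal.rpow_neg_one, hx, ENNReal.mul_inv]
    · congr 1
      rw [← ENNReal.rpow_neg]
      congr 1
      ring
    · right
      exact h.fin x
    · right
      exact hxU
  have h3 : (∫⁻ x in Ioo a b, sg 2 w x) ^ ((2 : ℝ) - 1) = ∫⁻ x in Ioo a b, sg 2 w x := by
    have e3 : ((2 : ℝ) - 1) = 1 := by norm_num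
    rw [e3, ENNReal.rpow_one]
  rw [h3]
  have h4 : J ^ (2 - p) = c * L ^ (2 - p) := by
    rw [hJm, ENNReal.mul_rpow_of_nonneg _ _ h2p.le]
  calc (∫⁻ x in Ioo a b, w x) * ∫⁻ x in Ioo a b, sg 2 w x
      ≤ (β * c⁻¹ * W) * (J ^ (2 - p) * S ^ (p - 1)) := mul_le_mul' h1 h2
    _ = (β * L ^ (2 - p)) * (c⁻¹ * c) * (W * S ^ (p - 1)) := by rw [h4]; ring
    _ = (β * L ^ (2 - p)) * (W * S ^ (p - 1)) := by
        rw [ENNReal.inv_mul_cancel hc0 hct, mul_one]
    _ ≤ (β * L ^ (2 - p)) * (A * L ^ p) := mul_le_mul' le_rfl (h.bd a b hab)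
    _ = (β * A) * (L ^ (2 - p) * L ^ p) := by ring
    _ = (β * A) * L ^ (2 : ℝ) := by
        rw [← ENNReal.rpow_add _ _ hL0 hLt]
        congr 2
        ring

theorem exw {p : ℝ} (hp1 : 1 < p) (hp2 : p < 2) {U : ℝ → ℝ≥0∞} {A : ℝ≥0∞} (h : ApW p U A)
    {B : ℝ} (hB : 1 ≤ B) : ∃ A2 : ℝ≥0∞, A2 ≠ ⊤ ∧ ∀ R : ℝ → ℝ≥0∞, Measurable R →
      (∀ x, R x ≠ 0) → (∀ᵐ x, R x ≠ ⊤) → (∀ x, MX volume R x ≤ ENNReal.ofReal B * R x) →
      ∃ w : ℝ → ℝ, Measurable w ∧ (∀ x, 0 < w x) ∧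
        (∀ᵐ x, ENNReal.ofReal (w x) = R x ^ (p - 2) * U x) ∧
        ApW 2 (fun x => ENNReal.ofReal (w x)) A2 := by
  classical
  have h2p : 0 < 2 - p := by linarith
  refine ⟨ENNReal.ofReal B ^ (2 - p) * A,
    ENNReal.mul_ne_top (ENNReal.rpow_ne_top_of_nonneg h2p.le ENNReal.ofReal_ne_top) h.A_fin, ?_⟩
  intro R hR h0 hRt hM
  set v : ℝ → ℝ≥0∞ := fun x => R x ^ (p - 2) * U x with hv
  have hvm : Measurable v := (hR.pow_const _).mul h.meas
  have hv1 : ∀ x, R x ≠ ⊤ → U x ≠ 0 → v x ≠ 0 ∧ v x ≠ ⊤ := by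
    intro x hx hx'
    have e : R x ^ (p - 2) = (R x ^ (2 - p))⁻¹ := by
      rw [← ENNReal.rpow_neg]
      congr 1
      ring
    constructor
    · simp only [hv]
      rw [e]
      refine mul_ne_zero ?_ hx'
      rw [ne_eq, ENNReal.inv_eq_zero]
      exact ENNReal.rpow_ne_top_of_nonneg h2p.le hx
    · simp only [hv]
      rw [e]
      refine ENNReal.mul_ne_top ?_ (h.fin x)
      rw [ne_eq, ENNReal.inv_eq_top, ENNReal.rpow_eq_zero_iff]
      rintro (hh | hh)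
      · exact h0 x hh.1
      · exact hx hh.1
  set w : ℝ → ℝ := fun x => if R x = ⊤ ∨ U x = 0 then 1 else (v x).toReal with hw
  have hwm : Measurable w := by
    refine Measurable.ite ?_ measurable_const hvm.ennreal_toReal
    exact (hR (measurableSet_singleton ⊤)).union (h.meas (measurableSet_singleton 0))
  have hwpos : ∀ x, 0 < w x := by
    intro x
    simp only [hw]
    split_ifs with hx
    · norm_num
    · push Not at hx
      obtain ⟨h1, h2⟩ := hv1 x hx.1 hx.2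
      exact ENNReal.toReal_pos h1 h2
  have hae : ∀ᵐ x, ENNReal.ofReal (w x) = R x ^ (p - 2) * U x := by
    filter_upwards [hRt, ae_ne_zero hp1 h] with x hx hx'
    have hn : ¬ (R x = ⊤ ∨ U x = 0) := by
      push Not
      exact ⟨hx, hx'⟩
    simp only [hw]
    rw [if_neg hn, ENNReal.ofReal_toReal (hv1 x hx hx').2]
  refine ⟨w, hwm, hwpos, hae, ?_⟩
  refine ⟨hwm.ennreal_ofReal, fun x => ENNReal.ofReal_ne_top, ?_, ?_, ?_⟩
  · intro hh
    obtain ⟨x, _, hx⟩ := ew_exists hh (show (0 : ℝ) < 1 by norm_num)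
    simp only [Pi.zero_apply, ENNReal.ofReal_eq_zero] at hx
    linarith [hwpos x]
  · exact ENNReal.mul_ne_top (ENNReal.rpow_ne_top_of_nonneg h2p.le ENNReal.ofReal_ne_top) h.A_fin
  · intro a b hab
    exact ew_bd hp1 hp2 h hB hR h0 hRt hM hae hab

end Pool.Agent.TH407.GS
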