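import Pool.Agent.TH280.MZ.Muck

/-!
# Rubio de Francia majorants for the uncentred maximal function
-/

set_option autoImplicit false
open MeasureTheory Set Filter Topology
open scoped ENNReal NNReal
open Pool.Agent.TH280.MZ
namespace Pool.Agent.TH407.GS

/-- iterates of the maximal function -/
noncomputable def rd_it (F : ℝ → ℝ≥0∞) : ℕ → ℝ → ℝ≥0∞
  | 0 => F
  | k + 1 => MX volume (rd_it F k)

lemma rd_it_meas {F : ℝ → ℝ≥0∞} (hF : Measurable F) : ∀ k, Measurable (rd_it F k)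
  | 0 => hF
  | _ + 1 => measurable_MX _ _

/-- the maximal function is countably sublinear -/
lemma rd_MX_tsum (c : ℕ → ℝ≥0∞) (G : ℕ → ℝ → ℝ≥0∞) (hG : ∀ k, Measurable (G k)) (x : ℝ) :
    MX volume (fun y => ∑' k, c k * G k y) x ≤ ∑' k, c k * MX volume (G k) x := by
  unfold MX
  refine iSup_le fun a => iSup_le fun b => iSup_le fun hab => ?_
  rw [lintegral_tsum (fun k => ((hG k).const_mul (c k)).aemeasurable), ENNReal.div_eq_inv_mul,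
    ← ENNReal.tsum_mul_left]
  refine ENNReal.tsum_le_tsum fun k => ?_
  rw [lintegral_const_mul _ (hG k), mul_left_comm, ← ENNReal.div_eq_inv_mul]
  exact mul_le_mul' le_rfl (le_MX volume (G k) hab.1 hab.2)

lemma rd_half : (2 : ℝ≥0∞)⁻¹ + (2 : ℝ≥0∞)⁻¹ = 1 := ENNReal.inv_two_add_inv_two

/-- convexity, finite sums -/
lemma rd_fin {p : ℝ} (hp : 1 ≤ p) (n : ℕ) : ∀ z : ℕ → ℝ≥0∞,
    (∑ k ∈ Finset.range n, (2 : ℝ≥0∞)⁻¹ ^ (k + 1) * z k) ^ p ≤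
      ∑ k ∈ Finset.range n, (2 : ℝ≥0∞)⁻¹ ^ (k + 1) * z k ^ p := by
  induction n with
  | zero =>
    intro z
    rw [Finset.sum_range_zero, Finset.sum_range_zero, ENNReal.zero_rpow_of_pos (by linarith)]
  | succ n ih =>
    intro z
    rw [Finset.sum_range_succ', Finset.sum_range_succ']
    have e : ∀ w : ℕ → ℝ≥0∞, ∑ k ∈ Finset.range n, (2 : ℝ≥0∞)⁻¹ ^ (k + 1 + 1) * w (k + 1) =
        (2 : ℝ≥0∞)⁻¹ * ∑ k ∈ Finset.range n, (2 : ℝ≥0∞)⁻¹ ^ (k + 1) * w (k + 1) := by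
      intro w
      rw [Finset.mul_sum]
      refine Finset.sum_congr rfl fun k _ => ?_
      rw [pow_succ' (2 : ℝ≥0∞)⁻¹ (k + 1), mul_assoc]
    rw [e z, e (fun k => z k ^ p), zero_add, pow_one]
    refine (ENNReal.rpow_arith_mean_le_arith_mean2_rpow _ _ _ _ rd_half hp).trans ?_
    gcongr
    exact ih (fun k => z (k + 1))

/-- convexity, series -/
lemma rd_tsum {p : ℝ} (hp : 1 ≤ p) (z : ℕ → ℝ≥0∞) :
    (∑' k, (2 : ℝ≥0∞)⁻¹ ^ (k + 1) * z k) ^ p ≤ ∑' k, (2 : ℝ≥0∞)⁻¹ ^ (k + 1) * z k ^ p := by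
  have h1 : Tendsto (fun n => (∑ k ∈ Finset.range n, (2 : ℝ≥0∞)⁻¹ ^ (k + 1) * z k) ^ p) atTop
      (𝓝 ((∑' k, (2 : ℝ≥0∞)⁻¹ ^ (k + 1) * z k) ^ p)) :=
    (ENNReal.continuous_rpow_const.tendsto _).comp (ENNReal.tendsto_nat_tsum _)
  exact le_of_tendsto' h1 fun n => (rd_fin hp n z).trans (ENNReal.sum_le_tsum _)

/-- a function which does not vanish has a positive maximal function -/
lemma rd_MX_ne {F : ℝ → ℝ≥0∞} (hF : Measurable F) (h : ¬ F =ᵐ[volume] 0) (x : ℝ) :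
    MX volume F x ≠ 0 := by
  intro h0
  apply h
  have h1 : ∀ n : ℕ, ∀ᵐ y ∂(volume.restrict (Ioo (x - n - 1) (x + n + 1))), F y = 0 := by
    intro n
    have hn : (0 : ℝ) ≤ n := Nat.cast_nonneg n
    have h2 := le_MX volume F (a := x - n - 1) (b := x + n + 1) (x := x) (by linarith)
      (by linarith)
    rw [h0, nonpos_iff_eq_zero, ENNReal.div_eq_zero_iff] at h2
    rcases h2 with h2 | h2
    · exact (lintegral_eq_zero_iff hF).1 h2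
    · rw [Real.volume_Ioo] at h2
      exact absurd h2 ENNReal.ofReal_ne_top
  have hU : (univ : Set ℝ) = ⋃ n : ℕ, Ioo (x - n - 1) (x + n + 1) := by
    symm
    rw [eq_univ_iff_forall]
    intro y
    obtain ⟨n, hn⟩ := exists_nat_gt |y - x|
    rw [mem_iUnion]
    have := abs_lt.1 hn
    exact ⟨n, by linarith, by linarith⟩
  have h2 : ∀ᵐ y ∂(volume.restrict (⋃ n : ℕ, Ioo (x - n - 1) (x + n + 1))), F y = 0 := by
    rw [ae_restrict_iUnion_iff]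
    exact h1
  rw [← hU, Measure.restrict_univ] at h2
  exact h2

/-- the iterates are bounded -/
lemma rd_it_bd {p : ℝ} {U : ℝ → ℝ≥0∞} {C : ℝ≥0∞} (hC : ∀ F : ℝ → ℝ≥0∞,
    Measurable F → ∫⁻ x, MX volume F x ^ p * U x ≤ C * ∫⁻ x, F x ^ p * U x)
    {F : ℝ → ℝ≥0∞} (hF : Measurable F) (k : ℕ) :
    ∫⁻ x, rd_it F k x ^ p * U x ≤ C ^ k * ∫⁻ x, F x ^ p * U x := by
  induction k with
  | zero => rw [pow_zero, one_mul]; exact le_rfl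
  | succ k ih =>
    calc ∫⁻ x, rd_it F (k + 1) x ^ p * U x ≤ C * ∫⁻ x, rd_it F k x ^ p * U x :=
          hC _ (rd_it_meas hF k)
      _ ≤ C * (C ^ k * ∫⁻ x, F x ^ p * U x) := by gcongr
      _ = C ^ (k + 1) * ∫⁻ x, F x ^ p * U x := by rw [pow_succ', mul_assoc]

/-- the majorant -/
noncomputable def rd_R (K : ℝ≥0∞) (F : ℝ → ℝ≥0∞) (x : ℝ) : ℝ≥0∞ :=
  ∑' k, (2 * (2 : ℝ≥0∞)⁻¹ ^ (k + 1) * K⁻¹ ^ k) * rd_it F k x

lemma rd_R_meas {K : ℝ≥0∞} {F : ℝ → ℝ≥0∞} (hF : Measurable F) : Measurable (rd_R K F) :=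
  Measurable.ennreal_tsum fun k => (rd_it_meas hF k).const_mul _

lemma rd_le_R (K : ℝ≥0∞) (F : ℝ → ℝ≥0∞) (x : ℝ) : F x ≤ rd_R K F x := by
  refine le_trans (le_of_eq ?_)
    (ENNReal.le_tsum (f := fun k => (2 * (2 : ℝ≥0∞)⁻¹ ^ (k + 1) * K⁻¹ ^ k) * rd_it F k x) 0)
  simp only [zero_add, pow_one, pow_zero, mul_one]
  rw [ENNReal.mul_inv_cancel (by norm_num) (by norm_num), one_mul]
  rfl

lemma rd_R_ne {K : ℝ≥0∞} (hK : K ≠ ⊤) {F : ℝ → ℝ≥0∞} (hF : Measurable F)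
    (h : ¬ F =ᵐ[volume] 0) (x : ℝ) : rd_R K F x ≠ 0 := by
  intro h0
  unfold rd_R at h0
  rw [ENNReal.tsum_eq_zero] at h0
  have h1 := h0 1
  rw [mul_eq_zero] at h1
  rcases h1 with h1 | h1
  · rw [mul_eq_zero, mul_eq_zero] at h1
    rcases h1 with (h1 | h1) | h1
    · exact two_ne_zero h1
    · exact pow_ne_zero _ (ENNReal.inv_ne_zero.2 (by norm_num)) h1
    · exact pow_ne_zero _ (ENNReal.inv_ne_zero.2 hK) h1
  · exact rd_MX_ne hF h x h1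

lemma rd_MX_R {K : ℝ≥0∞} (hK : K ≠ ⊤) (hK0 : K ≠ 0) {F : ℝ → ℝ≥0∞} (hF : Measurable F) (x : ℝ) :
    MX volume (rd_R K F) x ≤ (2 * K) * rd_R K F x := by
  refine (rd_MX_tsum _ _ (rd_it_meas hF) x).trans ?_
  have h1 : ∀ k, (2 * (2 : ℝ≥0∞)⁻¹ ^ (k + 1) * K⁻¹ ^ k) * MX volume (rd_it F k) x =
      (2 * K) * ((2 * (2 : ℝ≥0∞)⁻¹ ^ (k + 1 + 1) * K⁻¹ ^ (k + 1)) * rd_it F (k + 1) x) := by
    intro k
    have e1 : (2 : ℝ≥0∞) * (2 : ℝ≥0∞)⁻¹ = 1 := ENNReal.mul_inv_cancel (by norm_num) (by norm_num)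
    have e2 : K * K⁻¹ = 1 := ENNReal.mul_inv_cancel hK0 hK
    have e3 : rd_it F (k + 1) x = MX volume (rd_it F k) x := rfl
    rw [e3, pow_succ (2 : ℝ≥0∞)⁻¹ (k + 1), pow_succ K⁻¹ k]
    calc (2 * (2 : ℝ≥0∞)⁻¹ ^ (k + 1) * K⁻¹ ^ k) * MX volume (rd_it F k) x =
        (2 * (2 : ℝ≥0∞)⁻¹) * (K * K⁻¹) *
          ((2 * (2 : ℝ≥0∞)⁻¹ ^ (k + 1) * K⁻¹ ^ k) * MX volume (rd_it F k) x) := by
          rw [e1, e2, one_mul, one_mul]
      _ = _ := by ring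
  rw [tsum_congr h1, ENNReal.tsum_mul_left]
  refine mul_le_mul' le_rfl ?_
  exact ENNReal.tsum_comp_le_tsum_of_injective (add_left_injective 1)
    (fun k => (2 * (2 : ℝ≥0∞)⁻¹ ^ (k + 1) * K⁻¹ ^ k) * rd_it F k x)

lemma rd_R_int {p : ℝ} (hp : 1 < p) {U : ℝ → ℝ≥0∞} (hU : Measurable U) {K C : ℝ≥0∞} (hK : K ≠ ⊤)
    (hK1 : 1 ≤ K) (hCK : C ≤ K) (hC : ∀ F : ℝ → ℝ≥0∞,
    Measurable F → ∫⁻ x, MX volume F x ^ p * U x ≤ C * ∫⁻ x, F x ^ p * U x)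
    {F : ℝ → ℝ≥0∞} (hF : Measurable F) :
    ∫⁻ x, rd_R K F x ^ p * U x ≤ 2 ^ p * ∫⁻ x, F x ^ p * U x := by
  have hp0 : 0 < p := by linarith
  have hK0 : K ≠ 0 := (lt_of_lt_of_le one_pos hK1).ne'
  have h1 : ∀ x, rd_R K F x ^ p ≤
      2 ^ p * ∑' k, (2 : ℝ≥0∞)⁻¹ ^ (k + 1) * (K⁻¹ ^ k * rd_it F k x) ^ p := by
    intro x
    have e : rd_R K F x = 2 * ∑' k, (2 : ℝ≥0∞)⁻¹ ^ (k + 1) * (K⁻¹ ^ k * rd_it F k x) := by
      unfold rd_R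
      rw [← ENNReal.tsum_mul_left]
      exact tsum_congr fun k => by ring
    rw [e, ENNReal.mul_rpow_of_nonneg _ _ hp0.le]
    exact mul_le_mul' le_rfl (rd_tsum hp.le _)
  have hm : ∀ k, Measurable fun x => (2 : ℝ≥0∞)⁻¹ ^ (k + 1) * (K⁻¹ ^ k * rd_it F k x) ^ p * U x :=
    fun k => ((((rd_it_meas hF k).const_mul _).pow_const p).const_mul _).mul hU
  have h2 : ∀ k, ∫⁻ x, (K⁻¹ ^ k * rd_it F k x) ^ p * U x ≤ ∫⁻ x, F x ^ p * U x := by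
    intro k
    have hKp : K ≤ K ^ p := by
      conv_lhs => rw [← ENNReal.rpow_one K]
      exact ENNReal.rpow_le_rpow_of_exponent_le hK1 hp.le
    have e1 : ∀ x, (K⁻¹ ^ k * rd_it F k x) ^ p * U x =
        ((K ^ p) ^ k)⁻¹ * (rd_it F k x ^ p * U x) := by
      intro x
      rw [ENNReal.mul_rpow_of_nonneg _ _ hp0.le, mul_assoc]
      congr 1
      rw [← ENNReal.inv_pow, ENNReal.inv_rpow, ← ENNReal.rpow_natCast, ← ENNReal.rpow_natCast,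
        ← ENNReal.rpow_mul, ← ENNReal.rpow_mul, mul_comm]
    have hm1 : Measurable fun x => rd_it F k x ^ p * U x := ((rd_it_meas hF k).pow_const p).mul hU
    simp_rw [e1]
    rw [lintegral_const_mul _ hm1]
    have hKpk0 : (K ^ p) ^ k ≠ 0 := pow_ne_zero _ (by
      rw [ne_eq, ENNReal.rpow_eq_zero_iff_of_pos hp0]
      exact hK0)
    have hKpkt : (K ^ p) ^ k ≠ ⊤ := ENNReal.pow_ne_top (ENNReal.rpow_ne_top_of_nonneg hp0.le hK)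
    calc ((K ^ p) ^ k)⁻¹ * ∫⁻ x, rd_it F k x ^ p * U x
        ≤ ((K ^ p) ^ k)⁻¹ * (C ^ k * ∫⁻ x, F x ^ p * U x) := by
          gcongr
          exact rd_it_bd hC hF k
      _ ≤ ((K ^ p) ^ k)⁻¹ * ((K ^ p) ^ k * ∫⁻ x, F x ^ p * U x) := by
          gcongr
          exact hCK.trans hKp
      _ = ∫⁻ x, F x ^ p * U x := by
          rw [← mul_assoc, ENNReal.inv_mul_cancel hKpk0 hKpkt, one_mul]
  calc ∫⁻ x, rd_R K F x ^ p * U x
      ≤ ∫⁻ x, 2 ^ p * ∑' k, (2 : ℝ≥0∞)⁻¹ ^ (k + 1) * (K⁻¹ ^ k * rd_it F k x) ^ p * U x := by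
        apply lintegral_mono
        intro x
        refine (mul_le_mul' (h1 x) le_rfl).trans (le_of_eq ?_)
        rw [mul_assoc, ← ENNReal.tsum_mul_right]
    _ = 2 ^ p * ∑' k, ∫⁻ x, (2 : ℝ≥0∞)⁻¹ ^ (k + 1) * (K⁻¹ ^ k * rd_it F k x) ^ p * U x := by
        rw [lintegral_const_mul _ (Measurable.ennreal_tsum hm),
          lintegral_tsum (fun k => (hm k).aemeasurable)]
    _ ≤ 2 ^ p * ∑' k, (2 : ℝ≥0∞)⁻¹ ^ (k + 1) * ∫⁻ x, F x ^ p * U x := by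
        gcongr with k
        have hm1 : Measurable fun x => (K⁻¹ ^ k * rd_it F k x) ^ p * U x :=
          (((rd_it_meas hF k).const_mul _).pow_const p).mul hU
        simp_rw [mul_assoc ((2 : ℝ≥0∞)⁻¹ ^ (k + 1))]
        rw [lintegral_const_mul _ hm1]
        exact mul_le_mul' le_rfl (h2 k)
    _ = 2 ^ p * ∫⁻ x, F x ^ p * U x := by
        rw [ENNReal.tsum_mul_right]
        have e : ∑' k : ℕ, (2 : ℝ≥0∞)⁻¹ ^ (k + 1) = 1 := by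
          simp_rw [pow_succ]
          rw [ENNReal.tsum_mul_right, ENNReal.tsum_geometric, ENNReal.one_sub_inv_two, inv_inv,
            ENNReal.mul_inv_cancel (by norm_num) (by norm_num)]
        rw [e, one_mul]

theorem rdf {p : ℝ} (hp : 1 < p) {U : ℝ → ℝ≥0∞} {A : ℝ≥0∞} (h : ApW p U A) :
    ∃ B : ℝ, 1 ≤ B ∧ ∀ F : ℝ → ℝ≥0∞, Measurable F → ∫⁻ x, F x ^ p * U x ≠ ⊤ →
      (¬ F =ᵐ[volume] 0) → ∃ R : ℝ → ℝ≥0∞, Measurable R ∧ (∀ x, F x ≤ R x) ∧ (∀ x, R x ≠ 0) ∧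
        (∀ᵐ x, R x ≠ ⊤) ∧ (∀ x, MX volume R x ≤ ENNReal.ofReal B * R x) ∧
        ∫⁻ x, R x ^ p * U x ≤ ENNReal.ofReal B * ∫⁻ x, F x ^ p * U x := by
  have hp0 : 0 < p := by linarith
  obtain ⟨C, hCt, hC⟩ := muckenhoupt hp h
  set K : ℝ≥0∞ := max C 1 with hK
  have hKt : K ≠ ⊤ := by
    rw [hK, ne_eq, max_eq_top, not_or]
    exact ⟨hCt, ENNReal.one_ne_top⟩
  have hK1 : 1 ≤ K := le_max_right _ _
  have hCK : C ≤ K := le_max_left _ _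
  have hK0 : K ≠ 0 := (lt_of_lt_of_le one_pos hK1).ne'
  have h2K : 2 * K ≠ ⊤ := ENNReal.mul_ne_top (by norm_num) hKt
  refine ⟨max (2 * K).toReal (max (2 ^ p) 1), (le_max_right _ _).trans (le_max_right _ _), ?_⟩
  have hB1 : 2 * K ≤ ENNReal.ofReal (max (2 * K).toReal (max (2 ^ p) 1)) := by
    rw [← ENNReal.ofReal_toReal h2K]
    exact ENNReal.ofReal_le_ofReal (by rw [ENNReal.ofReal_toReal h2K]; exact le_max_left _ _)
  have hB2 : (2 : ℝ≥0∞) ^ p ≤ ENNReal.ofReal (max (2 * K).toReal (max (2 ^ p) 1)) := by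
    have e : (2 : ℝ≥0∞) ^ p = ENNReal.ofReal ((2 : ℝ) ^ p) := by
      rw [← ENNReal.ofReal_rpow_of_pos (by norm_num)]
      norm_num
    rw [e]
    exact ENNReal.ofReal_le_ofReal ((le_max_left _ _).trans (le_max_right _ _))
  intro F hF hFt hF0
  have hint := rd_R_int hp h.meas hKt hK1 hCK hC hF
  refine ⟨rd_R K F, rd_R_meas hF, rd_le_R K F, rd_R_ne hKt hF hF0, ?_,
    fun x => (rd_MX_R hKt hK0 hF x).trans (mul_le_mul' hB1 le_rfl),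
    hint.trans (mul_le_mul' hB2 le_rfl)⟩
  have h1 : ∫⁻ x, rd_R K F x ^ p * U x ≠ ⊤ :=
    ne_top_of_le_ne_top (ENNReal.mul_ne_top (ENNReal.rpow_ne_top_of_nonneg hp0.le (by norm_num))
      hFt) hint
  filter_upwards [ae_lt_top (((rd_R_meas hF).pow_const p).mul h.meas) h1, ae_ne_zero hp h]
    with x hx hx0 hR
  simp only [Pi.mul_apply] at hx
  rw [hR, ENNReal.top_rpow_of_pos hp0, ENNReal.top_mul hx0] at hx
  exact lt_irrefl _ hx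

end Pool.Agent.TH407.GS
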