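import Pool.Agent.TH407.GS.Cone
import Pool.Agent.TH407.GS.Rdf
import Pool.Agent.TH407.GS.Exw
import Pool.Agent.TH407.GS.Int

set_option autoImplicit false
open MeasureTheory Set Filter Topology
open scoped ENNReal NNReal
open Pool.Agent.TH280.MZ

namespace Pool.Agent.TH407.GS

theorem ef_neg {a b : ℝ≥0∞} {z : ℝ} (hz : z ≤ 0) (h : a ≤ b) : b ^ z ≤ a ^ z := by
  have h1 : b ^ z = (b ^ (-z))⁻¹ := by rw [← ENNReal.rpow_neg, neg_neg]
  have h2 : a ^ z = (a ^ (-z))⁻¹ := by rw [← ENNReal.rpow_neg, neg_neg]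
  rw [h1, h2]
  exact ENNReal.inv_le_inv.2 (ENNReal.rpow_le_rpow h (by linarith))

theorem ef_GR {f : ℝ → ℝ} (hf : Measurable f) : Measurable (Function.uncurry (GR f)) := by
  obtain ⟨-, h1, h2, -⟩ := measurable_PI hf
  exact ((h1.pow_const 2).add (h2.pow_const 2)).ennreal_ofReal

theorem ef_SQ {G : ℝ → ℝ → ℝ≥0∞} (hG : Measurable (Function.uncurry G)) (a : ℝ) :
    Measurable (SQ a G) := by
  classical
  unfold SQ
  have h1 : Measurable (fun q : (ℝ × ℝ) × ℝ =>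
      if |q.1.1 - q.1.2| < a * q.2 then G q.1.2 q.2 else 0) := by
    refine Measurable.ite ?_ ?_ measurable_const
    · exact measurableSet_lt (by fun_prop) (by fun_prop)
    · exact hG.comp (by fun_prop : Measurable fun q : (ℝ × ℝ) × ℝ => (q.1.2, q.2))
  have h2 : Measurable (fun q : ℝ × ℝ => ∫⁻ y in Ioi (0 : ℝ),
      if |q.1 - q.2| < a * y then G q.2 y else 0) :=
    Measurable.lintegral_prod_right' (ν := volume.restrict (Ioi (0 : ℝ))) h1
  have h3 : Measurable (fun x : ℝ => ∫⁻ z : ℝ, ∫⁻ y in Ioi (0 : ℝ),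
      if |x - z| < a * y then G z y else 0) :=
    Measurable.lintegral_prod_right' (ν := (volume : Measure ℝ)) h2
  convert h3

theorem ef_zero {f : ℝ → ℝ} (hf : f =ᵐ[volume] 0) (a x : ℝ) : SQ a (GR f) x = 0 := by
  have hz : ∀ z y, GR f z y = 0 := by
    intro z y
    have h1 : PIz f z y = 0 := by
      unfold PIz
      rw [show (0 : ℝ) = ∫ _ : ℝ, (0 : ℝ) by simp]
      apply integral_congr_ae
      filter_upwards [hf] with t ht
      rw [ht]; simp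
    have h2 : PIy f z y = 0 := by
      unfold PIy
      rw [show (0 : ℝ) = ∫ _ : ℝ, (0 : ℝ) by simp]
      apply integral_congr_ae
      filter_upwards [hf] with t ht
      rw [ht]; simp
    unfold GR
    rw [h1, h2]; simp
  unfold SQ
  simp [hz]

theorem area_p {p : ℝ} (hp1 : 1 < p) (hp2 : p < 2) {U : ℝ → ℝ≥0∞} {A : ℝ≥0∞} (h : ApW p U A) :
    ∃ C : ℝ≥0∞, C ≠ ⊤ ∧ ∀ f : ℝ → ℝ, Measurable f → ∫⁻ x, ‖f x‖ₑ ^ p * U x ≠ ⊤ →
      ∫⁻ x, SQ 1 (GR f) x ^ (p / 2) * U x ≤ C * ∫⁻ x, ‖f x‖ₑ ^ p * U x := by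
  have hp0 : 0 < p := by linarith
  obtain ⟨B, hB, hR⟩ := rdf hp1 h
  obtain ⟨A2, hA2, hW⟩ := exw hp1 hp2 h hB
  obtain ⟨C2, hC2, hc⟩ := cone2 A2 hA2
  have e1 : 0 < p / 2 := by positivity
  have e2 : 0 < (2 - p) / 2 := by linarith
  refine ⟨C2 ^ (p / 2) * ENNReal.ofReal B ^ ((2 - p) / 2), ENNReal.mul_ne_top
    (ENNReal.rpow_ne_top_of_nonneg e1.le hC2)
    (ENNReal.rpow_ne_top_of_nonneg e2.le ENNReal.ofReal_ne_top), ?_⟩
  intro f hf hX
  set X := ∫⁻ x, ‖f x‖ₑ ^ p * U x with hXdef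
  by_cases hz : (fun x => ‖f x‖ₑ) =ᵐ[volume] 0
  · have hz' : f =ᵐ[volume] 0 := by
      filter_upwards [hz] with x hx
      simpa using hx
    have : ∀ x, SQ 1 (GR f) x ^ (p / 2) * U x = 0 := by
      intro x
      rw [ef_zero hz', ENNReal.zero_rpow_of_pos e1, zero_mul]
    simp only [this, lintegral_zero, zero_le]
  obtain ⟨R, hRm, hFR, hR0, hRt, hMR, hRX⟩ := hR (fun x => ‖f x‖ₑ) hf.enorm hX hz
  obtain ⟨w, hwm, hw0, hwR, hwA⟩ := hW R hRm hR0 hRt hMR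
  -- ∫ f² w ≤ X
  have hfw : ∫⁻ t, ENNReal.ofReal (f t ^ 2 * w t) ≤ X := by
    apply lintegral_mono_ae
    filter_upwards [hwR, hRt] with t ht htt
    have h1 : ENNReal.ofReal (f t ^ 2) = ‖f t‖ₑ ^ (2 : ℝ) := by
      rw [Real.enorm_eq_ofReal_abs, ENNReal.rpow_two, ← ENNReal.ofReal_pow (abs_nonneg _), sq_abs]
    rw [ENNReal.ofReal_mul (sq_nonneg _), h1, ht, ← mul_assoc]
    refine mul_le_mul_left ?_ _
    by_cases h0 : ‖f t‖ₑ = 0
    · rw [h0, ENNReal.zero_rpow_of_pos (by norm_num), zero_mul]; exact zero_le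
    · calc ‖f t‖ₑ ^ (2 : ℝ) * R t ^ (p - 2) ≤ ‖f t‖ₑ ^ (2 : ℝ) * ‖f t‖ₑ ^ (p - 2) :=
            mul_le_mul_right (ef_neg (by linarith) (hFR t)) _
        _ = ‖f t‖ₑ ^ p := by
            rw [← ENNReal.rpow_add _ _ h0 enorm_ne_top]
            congr 1; ring
  have hint : Integrable (fun t => f t ^ 2 * w t) := by
    refine ⟨((hf.pow_const 2).mul hwm).aestronglyMeasurable, ?_⟩
    rw [hasFiniteIntegral_iff_ofReal]
    · exact lt_of_le_of_lt hfw hX.lt_top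
    · exact Eventually.of_forall fun t => mul_nonneg (sq_nonneg _) (hw0 t).le
  have hcone := hc w hwm hw0 hwA f hf hint
  have hS : ∫⁻ x, SQ 1 (GR f) x * ENNReal.ofReal (w x) ≤ C2 * X :=
    hcone.trans (mul_le_mul_right hfw _)
  -- Hölder
  have hSm : Measurable (SQ 1 (GR f)) := ef_SQ (ef_GR hf) 1
  have hpq : (2 / p).HolderConjugate (2 / (2 - p)) := by
    rw [Real.holderConjugate_iff]
    constructor
    · rw [lt_div_iff₀ hp0]; linarith
    · rw [inv_div, inv_div]; ring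
  have hH := ENNReal.lintegral_mul_le_Lp_mul_Lq volume hpq
    (f := fun x => (SQ 1 (GR f) x * ENNReal.ofReal (w x)) ^ (p / 2))
    (g := fun x => (R x ^ p * U x) ^ ((2 - p) / 2))
    ((hSm.mul hwm.ennreal_ofReal).pow_const _).aemeasurable
    (((hRm.pow_const _).mul h.meas).pow_const _).aemeasurable
  have k1 : ∀ x, ((SQ 1 (GR f) x * ENNReal.ofReal (w x)) ^ (p / 2)) ^ (2 / p) =
      SQ 1 (GR f) x * ENNReal.ofReal (w x) := by
    intro x
    rw [← ENNReal.rpow_mul, show p / 2 * (2 / p) = 1 by field_simp, ENNReal.rpow_one]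
  have h2p : 2 - p ≠ 0 := by linarith
  have k2 : ∀ x, ((R x ^ p * U x) ^ ((2 - p) / 2)) ^ (2 / (2 - p)) = R x ^ p * U x := by
    intro x
    rw [← ENNReal.rpow_mul, show (2 - p) / 2 * (2 / (2 - p)) = 1 by field_simp, ENNReal.rpow_one]
  simp only [k1, k2, one_div_div] at hH
  have hL : ∫⁻ x, SQ 1 (GR f) x ^ (p / 2) * U x ≤
      ∫⁻ x, ((fun x => (SQ 1 (GR f) x * ENNReal.ofReal (w x)) ^ (p / 2)) *
        fun x => (R x ^ p * U x) ^ ((2 - p) / 2)) x := by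
    apply lintegral_mono_ae
    filter_upwards [hwR, hRt] with t ht htt
    simp only [Pi.mul_apply]
    rw [ht, ENNReal.mul_rpow_of_nonneg _ _ e1.le, ENNReal.mul_rpow_of_nonneg _ _ e1.le,
      ENNReal.mul_rpow_of_nonneg _ _ e2.le, ← ENNReal.rpow_mul, ← ENNReal.rpow_mul]
    have r1 : R t ^ ((p - 2) * (p / 2)) * R t ^ (p * ((2 - p) / 2)) = 1 := by
      rw [← ENNReal.rpow_add _ _ (hR0 t) htt]
      rw [show (p - 2) * (p / 2) + p * ((2 - p) / 2) = 0 by ring, ENNReal.rpow_zero]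
    have r2 : U t ^ (p / 2) * U t ^ ((2 - p) / 2) = U t := by
      rw [← ENNReal.rpow_add_of_nonneg _ _ e1.le e2.le]
      rw [show p / 2 + (2 - p) / 2 = 1 by ring, ENNReal.rpow_one]
    apply le_of_eq
    calc SQ 1 (GR f) t ^ (p / 2) * U t
        = SQ 1 (GR f) t ^ (p / 2) * 1 * U t := by rw [mul_one]
      _ = SQ 1 (GR f) t ^ (p / 2) * (R t ^ ((p - 2) * (p / 2)) * R t ^ (p * ((2 - p) / 2))) *
          (U t ^ (p / 2) * U t ^ ((2 - p) / 2)) := by rw [r1, r2]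
      _ = _ := by ring
  calc ∫⁻ x, SQ 1 (GR f) x ^ (p / 2) * U x
      ≤ (∫⁻ x, SQ 1 (GR f) x * ENNReal.ofReal (w x)) ^ (p / 2) *
        (∫⁻ x, R x ^ p * U x) ^ ((2 - p) / 2) := hL.trans hH
    _ ≤ (C2 * X) ^ (p / 2) * (ENNReal.ofReal B * X) ^ ((2 - p) / 2) := by
        gcongr
    _ = C2 ^ (p / 2) * ENNReal.ofReal B ^ ((2 - p) / 2) * (X ^ (p / 2) * X ^ ((2 - p) / 2)) := by
        rw [ENNReal.mul_rpow_of_nonneg _ _ e1.le, ENNReal.mul_rpow_of_nonneg _ _ e2.le]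
        ring
    _ = C2 ^ (p / 2) * ENNReal.ofReal B ^ ((2 - p) / 2) * X := by
        rw [← ENNReal.rpow_add_of_nonneg _ _ e1.le e2.le]
        rw [show p / 2 + (2 - p) / 2 = 1 by ring, ENNReal.rpow_one]

end Pool.Agent.TH407.GS
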