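import Pool.Agent.TH407.GS.Defs
import Pool.Agent.TH407.GS.Apert
set_option autoImplicit false
open MeasureTheory Set Filter Topology
open scoped ENNReal NNReal
open Pool.Agent.TH280.MZ
namespace Pool.Agent.TH407.GS

theorem gs_point {lam : ℝ} (hl : 0 < lam) (d y : ℝ) (hd : 0 ≤ d) (hy : 0 < y) :
    ∃ k : ℕ, d < 2 ^ k * y ∧ (y / (d + y)) ^ lam ≤ 2 ^ lam * ((2 : ℝ) ^ k) ^ (-lam) := by
  have hex : ∃ k : ℕ, d < 2 ^ k * y := by
    obtain ⟨k, hk⟩ := pow_unbounded_of_one_lt (d / y) (by norm_num : (1 : ℝ) < 2)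
    exact ⟨k, by rwa [div_lt_iff₀ hy] at hk⟩
  classical
  refine ⟨Nat.find hex, Nat.find_spec hex, ?_⟩
  set k := Nat.find hex with hk
  have hpk : (0 : ℝ) < 2 ^ k := by positivity
  have hb : y / (d + y) ≤ 2 / 2 ^ k := by
    rcases Nat.eq_zero_or_pos k with h0 | hpos
    · rw [h0, div_le_div_iff₀ (by positivity) (by positivity)]
      simp
      nlinarith
    · have hmin : ¬ d < 2 ^ (k - 1) * y := Nat.find_min hex (by omega)
      push Not at hmin
      have h2 : (2 : ℝ) ^ k = 2 ^ (k - 1) * 2 := by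
        rw [← pow_succ]; congr 1; omega
      rw [div_le_div_iff₀ (by positivity) (by positivity), h2]
      nlinarith
  calc (y / (d + y)) ^ lam ≤ (2 / 2 ^ k) ^ lam :=
        Real.rpow_le_rpow (by positivity) hb hl.le
    _ = 2 ^ lam * ((2 : ℝ) ^ k) ^ (-lam) := by
        rw [Real.div_rpow (by norm_num) hpk.le, Real.rpow_neg hpk.le, div_eq_mul_inv]

theorem gs_meas2 {G : ℝ → ℝ → ℝ≥0∞} (hG : Measurable (Function.uncurry G)) (a : ℝ) :
    Measurable (fun q : (ℝ × ℝ) × ℝ => if |q.1.1 - q.1.2| < a * q.2 then G q.1.2 q.2 else 0) := by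
  refine Measurable.ite ?_ ?_ measurable_const
  · refine measurableSet_lt ?_ ?_
    · exact (continuous_abs.measurable.comp
        ((measurable_fst.comp measurable_fst).sub (measurable_snd.comp measurable_fst)))
    · exact measurable_const.mul measurable_snd
  · exact hG.comp ((measurable_snd.comp measurable_fst).prodMk measurable_snd)

theorem gs_measSQ {G : ℝ → ℝ → ℝ≥0∞} (hG : Measurable (Function.uncurry G)) (a : ℝ) :
    Measurable (SQ a G) := by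
  unfold SQ
  have h1 := gs_meas2 hG a
  have h2 := Measurable.lintegral_prod_right' (ν := (volume.restrict (Ioi (0 : ℝ)))) h1
  have h3 := Measurable.lintegral_prod_right' (ν := (volume : Measure ℝ)) h2
  exact h3

theorem gs_tsum_rpow {r : ℝ} (hr : 0 < r) (hr1 : r ≤ 1) (a : ℕ → ℝ≥0∞) :
    (∑' k, a k) ^ r ≤ ∑' k, a k ^ r := by
  have hfin : ∀ s : Finset ℕ, (∑ k ∈ s, a k) ^ r ≤ ∑ k ∈ s, a k ^ r := by
    intro s
    classical
    induction s using Finset.induction_on with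
    | empty => simp [hr]
    | insert i s hi ih =>
      rw [Finset.sum_insert hi, Finset.sum_insert hi]
      exact (ENNReal.rpow_add_le_add_rpow _ _ hr.le hr1).trans (add_le_add le_rfl ih)
  rw [← ENNReal.le_rpow_inv_iff hr, ENNReal.tsum_eq_iSup_sum]
  refine iSup_le fun s => ?_
  rw [ENNReal.le_rpow_inv_iff hr]
  exact (hfin s).trans (ENNReal.sum_le_tsum s)

theorem gs_le_one {lam : ℝ} (hl : 0 < lam) (G : ℝ → ℝ → ℝ≥0∞)
    (hG : Measurable (Function.uncurry G)) (x : ℝ) :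
    GLs lam G x ≤
      ∑' k : ℕ, ENNReal.ofReal (2 ^ lam * (2 ^ k) ^ (-lam)) * SQ (2 ^ k) G x := by
  have hm : ∀ k : ℕ, Measurable (fun q : ℝ × ℝ =>
      ENNReal.ofReal (2 ^ lam * (2 ^ k) ^ (-lam)) *
        (if |x - q.1| < 2 ^ k * q.2 then G q.1 q.2 else 0)) := by
    intro k
    refine Measurable.const_mul ?_ _
    have := gs_meas2 hG (2 ^ k)
    exact this.comp ((measurable_const.prodMk measurable_fst).prodMk measurable_snd)
  have h1 : ∀ z : ℝ, ∫⁻ y in Ioi (0 : ℝ), ENNReal.ofReal ((y / (|x - z| + y)) ^ lam) * G z y ≤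
      ∑' k : ℕ, ∫⁻ y in Ioi (0 : ℝ), ENNReal.ofReal (2 ^ lam * (2 ^ k) ^ (-lam)) *
        (if |x - z| < 2 ^ k * y then G z y else 0) := by
    intro z
    rw [← lintegral_tsum]
    · refine setLIntegral_mono' measurableSet_Ioi ?_
      intro y hy
      obtain ⟨k, hk1, hk2⟩ := gs_point hl |x - z| y (abs_nonneg _) hy
      refine le_trans ?_ (ENNReal.le_tsum k)
      rw [if_pos hk1]
      gcongr
    · intro k
      exact ((hm k).comp (measurable_const.prodMk measurable_id)).aemeasurable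
  have h2 : GLs lam G x ≤ ∫⁻ z, ∑' k : ℕ, ∫⁻ y in Ioi (0 : ℝ),
      ENNReal.ofReal (2 ^ lam * (2 ^ k) ^ (-lam)) *
        (if |x - z| < 2 ^ k * y then G z y else 0) := lintegral_mono h1
  refine h2.trans ?_
  rw [lintegral_tsum]
  · refine ENNReal.tsum_le_tsum fun k => ?_
    unfold SQ
    rw [← lintegral_const_mul' _ _ ENNReal.ofReal_ne_top]
    refine lintegral_mono fun z => ?_
    rw [← lintegral_const_mul' _ _ ENNReal.ofReal_ne_top]
  · intro k
    exact (Measurable.lintegral_prod_right' (ν := (volume.restrict (Ioi (0 : ℝ)))) (hm k)).aemeasurable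

theorem gl_le {lam p : ℝ} (hl : 0 < lam) (hp0 : 0 < p) (hp2 : p < 2) (G : ℝ → ℝ → ℝ≥0∞)
    (hG : Measurable (Function.uncurry G)) (x : ℝ) :
    GLs lam G x ^ (p / 2) ≤
      ∑' k : ℕ, ENNReal.ofReal ((2 ^ lam * (2 ^ k) ^ (-lam)) ^ (p / 2)) * SQ (2 ^ k) G x ^ (p / 2) := by
  have hr : 0 < p / 2 := by positivity
  have hr1 : p / 2 ≤ 1 := by linarith
  refine (ENNReal.rpow_le_rpow (gs_le_one hl G hG x) hr.le).trans ?_
  refine (gs_tsum_rpow hr hr1 _).trans ?_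
  refine ENNReal.tsum_le_tsum fun k => ?_
  rw [ENNReal.mul_rpow_of_nonneg _ _ hr.le, ENNReal.ofReal_rpow_of_nonneg (by positivity) hr.le]

theorem gs_coeff {lam p q : ℝ} (k : ℕ) :
    ENNReal.ofReal ((2 ^ lam * ((2 : ℝ) ^ k) ^ (-lam)) ^ (p / 2)) * ENNReal.ofReal ((2 ^ k) ^ q) =
      ENNReal.ofReal (2 ^ (lam * (p / 2))) * ENNReal.ofReal (2 ^ (q - lam * (p / 2))) ^ k := by
  rw [← ENNReal.ofReal_mul (by positivity), ← ENNReal.ofReal_pow (by positivity),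
    ← ENNReal.ofReal_mul (by positivity)]
  congr 1
  have h2 : (0 : ℝ) ≤ 2 := by norm_num
  have hk : (0 : ℝ) ≤ (2 : ℝ) ^ k := by positivity
  rw [Real.mul_rpow (by positivity) (by positivity), ← Real.rpow_mul h2, ← Real.rpow_mul hk,
    mul_assoc, ← Real.rpow_add (by positivity), ← Real.rpow_natCast, ← Real.rpow_natCast,
    ← Real.rpow_mul h2, ← Real.rpow_mul h2]
  congr 2
  ring

theorem gl_sum {lam p q D : ℝ} (hl : 0 < lam) (hp0 : 0 < p) (hp2 : p < 2) (hq : 0 ≤ q)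
    (hq' : q < lam * p / 2) (hD : 1 ≤ D) : ∃ C : ℝ≥0∞, C ≠ ⊤ ∧ ∀ (μ : Measure ℝ) [SigmaFinite μ],
    (∀ a b : ℝ, a < b → μ (Ioo a b) ≠ 0) → (∀ a b : ℝ, a < b → μ (Ioo a b) ≠ ⊤) →
    (∀ c L t : ℝ, 0 < L → 1 ≤ t → μ (Ioo (c - t * L) (c + t * L)) ≤
      ENNReal.ofReal (D * t ^ q) * μ (Ioo (c - L) (c + L))) →
    ∀ G : ℝ → ℝ → ℝ≥0∞, Measurable (Function.uncurry G) →
      ∫⁻ x, GLs lam G x ^ (p / 2) ∂μ ≤ C * ∫⁻ x, SQ 1 G x ^ (p / 2) ∂μ := by
  obtain ⟨C, hC, H⟩ := apert hp0 hp2 hq hD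
  refine ⟨C * ∑' k : ℕ, ENNReal.ofReal (2 ^ (lam * (p / 2))) *
    ENNReal.ofReal (2 ^ (q - lam * (p / 2))) ^ k, ?_, ?_⟩
  · refine ENNReal.mul_ne_top hC ?_
    rw [ENNReal.tsum_mul_left, ENNReal.tsum_geometric]
    refine ENNReal.mul_ne_top ENNReal.ofReal_ne_top ?_
    rw [ENNReal.inv_ne_top]
    refine (tsub_pos_iff_lt.2 ?_).ne'
    rw [← ENNReal.ofReal_one]
    refine (ENNReal.ofReal_lt_ofReal_iff (by norm_num)).2 ?_
    refine Real.rpow_lt_one_of_one_lt_of_neg (by norm_num) ?_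
    linarith
  · intro μ _ h0 ht hd G hG
    calc ∫⁻ x, GLs lam G x ^ (p / 2) ∂μ
        ≤ ∫⁻ x, ∑' k : ℕ, ENNReal.ofReal ((2 ^ lam * (2 ^ k) ^ (-lam)) ^ (p / 2)) *
            SQ (2 ^ k) G x ^ (p / 2) ∂μ := lintegral_mono fun x => gl_le hl hp0 hp2 G hG x
      _ = ∑' k : ℕ, ∫⁻ x, ENNReal.ofReal ((2 ^ lam * (2 ^ k) ^ (-lam)) ^ (p / 2)) *
            SQ (2 ^ k) G x ^ (p / 2) ∂μ := by
          refine lintegral_tsum fun k => ?_
          exact (((gs_measSQ hG (2 ^ k)).pow_const _).const_mul _).aemeasurable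
      _ = ∑' k : ℕ, ENNReal.ofReal ((2 ^ lam * (2 ^ k) ^ (-lam)) ^ (p / 2)) *
            ∫⁻ x, SQ (2 ^ k) G x ^ (p / 2) ∂μ := by
          refine tsum_congr fun k => ?_
          rw [lintegral_const_mul' _ _ ENNReal.ofReal_ne_top]
      _ ≤ ∑' k : ℕ, ENNReal.ofReal ((2 ^ lam * (2 ^ k) ^ (-lam)) ^ (p / 2)) *
            (C * ENNReal.ofReal ((2 ^ k) ^ q) * ∫⁻ x, SQ 1 G x ^ (p / 2) ∂μ) := by
          refine ENNReal.tsum_le_tsum fun k => ?_
          gcongr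
          exact H μ h0 ht hd G hG (2 ^ k) (one_le_pow₀ (by norm_num))
      _ = ∑' k : ℕ, (ENNReal.ofReal (2 ^ (lam * (p / 2))) *
            ENNReal.ofReal (2 ^ (q - lam * (p / 2))) ^ k) * (C * ∫⁻ x, SQ 1 G x ^ (p / 2) ∂μ) := by
          refine tsum_congr fun k => ?_
          rw [← gs_coeff (p := p) k]
          ring
      _ = (C * ∑' k : ℕ, ENNReal.ofReal (2 ^ (lam * (p / 2))) *
            ENNReal.ofReal (2 ^ (q - lam * (p / 2))) ^ k) * ∫⁻ x, SQ 1 G x ^ (p / 2) ∂μ := by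
          rw [ENNReal.tsum_mul_right]
          ring

end Pool.Agent.TH407.GS
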