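import Pool.Agent.TH407.GS.NecLow
import Pool.Agent.TH280.MZ.Muck

/-!
Necessity of the `A_p` condition and of the second condition for the weighted inequality of the
Littlewood-Paley function `g_λ^*`.
-/

set_option autoImplicit false
open MeasureTheory Set Filter Topology
open scoped ENNReal NNReal
open Pool.Agent.TH280.MZ
namespace Pool.Agent.TH407.GS

/-- bounded measurable functions vanishing outside a bounded interval are integrable -/
lemma na_integrable {c L M : ℝ} {f : ℝ → ℝ} (hf : Measurable f) (hM : ∀ x, |f x| ≤ M)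
    (h0 : ∀ x, x ∉ Ioo (c - L) (c + L) → f x = 0) : Integrable f := by
  have h1 : IntegrableOn f (Ioo (c - L) (c + L)) := by
    refine Measure.integrableOn_of_bounded (M := M) ?_ hf.aestronglyMeasurable ?_
    · rw [Real.volume_Ioo]; exact ENNReal.ofReal_ne_top
    · exact Eventually.of_forall fun x => by rw [Real.norm_eq_abs]; exact hM x
  rw [← integrableOn_univ]
  refine h1.of_forall_sdiff_eq_zero MeasurableSet.univ ?_
  intro x hx
  exact h0 x hx.2

/-- the inequality on a nonnegative bounded function living on an interval -/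
lemma na_main {lam p κ : ℝ} (hp : 1 < p) (hκ : 0 < κ)
    (hlow : ∀ c L : ℝ, 0 < L → ∀ f : ℝ → ℝ,
      Measurable f → (∀ x, 0 ≤ f x) → Integrable f → (∀ x, x ∉ Ioo (c - L) (c + L) → f x = 0) →
      ∀ x, ENNReal.ofReal (κ * ((∫ t, f t) / L) ^ 2 * (L / (L + |x - c|)) ^ lam) ≤
        GLs lam (GR f) x)
    {U : ℝ → ℝ≥0∞} {C : ℝ≥0∞}
    (H : ∀ f : ℝ → ℝ, Measurable f → (∃ M, ∀ x, |f x| ≤ M) → (∃ R, ∀ x, R ≤ |x| → f x = 0) →
      ∫⁻ x, GLs lam (GR f) x ^ (p / 2) * U x ≤ C * ∫⁻ x, ‖f x‖ₑ ^ p * U x)
    {c L M : ℝ} (hL : 0 < L) {f : ℝ → ℝ} (hf : Measurable f) (hf0 : ∀ x, 0 ≤ f x)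
    (hM : ∀ x, |f x| ≤ M) (h0 : ∀ x, x ∉ Ioo (c - L) (c + L) → f x = 0) :
    ENNReal.ofReal (κ ^ (p / 2) * ((∫ t, f t) / L) ^ p) *
        ∫⁻ x, ENNReal.ofReal ((L / (L + |x - c|)) ^ (lam * p / 2)) * U x ≤
      C * ∫⁻ x, ‖f x‖ₑ ^ p * U x := by
  have hi := na_integrable hf hM h0
  have hI0 : 0 ≤ ∫ t, f t := integral_nonneg hf0
  have hq0 : 0 ≤ (∫ t, f t) / L := div_nonneg hI0 hL.le
  have hR : ∃ R, ∀ x, R ≤ |x| → f x = 0 := by
    refine ⟨|c| + L, fun x hx => h0 x ?_⟩
    intro hx2
    have h1 : |x - c| < L := by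
      rw [abs_lt]; constructor <;> linarith [hx2.1, hx2.2]
    have h2 : |x| ≤ |x - c| + |c| := by
      have := abs_add_le (x - c) c
      rwa [sub_add_cancel] at this
    linarith
  refine le_trans ?_ (H f hf ⟨M, hM⟩ hR)
  rw [← lintegral_const_mul']
  swap
  · exact ENNReal.ofReal_ne_top
  apply lintegral_mono
  intro x
  simp only
  rw [← mul_assoc]
  refine mul_le_mul' ?_ le_rfl
  have hr0 : 0 < L / (L + |x - c|) := by positivity
  have h1 := ENNReal.rpow_le_rpow (hlow c L hL f hf hf0 hi h0 x) (show 0 ≤ p / 2 by linarith)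
  refine le_trans (le_of_eq ?_) h1
  rw [ENNReal.ofReal_rpow_of_nonneg (by positivity) (by linarith),
    ← ENNReal.ofReal_mul (by positivity)]
  congr 1
  rw [Real.mul_rpow (by positivity) (by positivity), Real.mul_rpow hκ.le (by positivity)]
  have e1 : (((∫ t, f t) / L) ^ 2) ^ (p / 2) = ((∫ t, f t) / L) ^ p := by
    rw [← Real.rpow_natCast, ← Real.rpow_mul hq0]
    congr 1
    push_cast
    ring
  have e2 : ((L / (L + |x - c|)) ^ lam) ^ (p / 2) = (L / (L + |x - c|)) ^ (lam * p / 2) := by
    rw [← Real.rpow_mul hr0.le]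
    congr 1
    ring
  rw [e1, e2]

theorem nec_ApB {lam p : ℝ} (hl : 0 < lam) (hp : 1 < p) {U : ℝ → ℝ≥0∞} (hU : Measurable U)
    (hUt : ∀ x, U x ≠ ⊤) (hUl : ∀ a b : ℝ, a < b → ∫⁻ x in Ioo a b, U x ≠ ⊤)
    (hU0 : ¬ U =ᵐ[volume] 0) {C : ℝ≥0∞} (hC : C ≠ ⊤)
    (H : ∀ f : ℝ → ℝ, Measurable f → (∃ M, ∀ x, |f x| ≤ M) → (∃ R, ∀ x, R ≤ |x| → f x = 0) →
      ∫⁻ x, GLs lam (GR f) x ^ (p / 2) * U x ≤ C * ∫⁻ x, ‖f x‖ₑ ^ p * U x) :
    (∃ A : ℝ≥0∞, ApW p U A) ∧ ∃ K : ℝ≥0∞, K ≠ ⊤ ∧ ∀ c L : ℝ, 0 < L →
      ∫⁻ x, ENNReal.ofReal ((L / (L + |x - c|)) ^ (lam * p / 2)) * U x ≤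
        K * ∫⁻ x in Ioo (c - L) (c + L), U x := by
  obtain ⟨κ, hκ, hlow⟩ := nec_low hl
  have hp0 : 0 < p := by linarith
  have hp1 : 0 < p - 1 := by linarith
  refine ⟨?_, ?_⟩
  · -- `A_p`
    set k : ℝ≥0∞ := ENNReal.ofReal (κ ^ (p / 2) * (1 / 2) ^ (lam * p / 2)) with hk
    have hk0 : k ≠ 0 := by
      rw [hk]
      simp only [ne_eq, ENNReal.ofReal_eq_zero, not_le]
      positivity
    have hkt : k ≠ ⊤ := ENNReal.ofReal_ne_top
    refine ⟨C / k, ⟨hU, hUt, hU0, ENNReal.div_ne_top hC hk0, ?_⟩⟩
    intro a b hab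
    set c : ℝ := (a + b) / 2 with hc
    set L : ℝ := (b - a) / 2 with hLdef
    have hL : 0 < L := by rw [hLdef]; linarith
    have hI : Ioo (c - L) (c + L) = Ioo a b := by
      rw [hc, hLdef]; congr 1 <;> ring
    set I : Set ℝ := Ioo a b with hIdef
    set W : ℝ≥0∞ := ∫⁻ x in I, U x with hW
    have hWt : W ≠ ⊤ := hUl a b hab
    set F : ℕ → ℝ → ℝ≥0∞ := fun n x => min (sg p U x) n with hF
    have hFm : ∀ n, Measurable (F n) := fun n => (sg_meas hU).min measurable_const
    have hFt : ∀ n x, F n x ≠ ⊤ := fun n x =>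
      ne_top_of_le_ne_top (ENNReal.natCast_ne_top n) (min_le_right _ _)
    set J : ℕ → ℝ≥0∞ := fun n => ∫⁻ x in I, F n x with hJ
    have hJt : ∀ n, J n ≠ ⊤ := by
      intro n
      refine ne_top_of_le_ne_top ?_ (lintegral_mono fun x => min_le_right (sg p U x) (n : ℝ≥0∞))
      rw [lintegral_const, Measure.restrict_apply_univ, hIdef, Real.volume_Ioo]
      exact ENNReal.mul_ne_top (ENNReal.natCast_ne_top n) ENNReal.ofReal_ne_top
    have hstep : ∀ n, k * (W * J n ^ (p - 1)) ≤ C * ENNReal.ofReal (b - a) ^ p := by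
      intro n
      set f : ℝ → ℝ := I.indicator (fun x => (F n x).toReal) with hf
      have hfm : Measurable f := (hFm n).ennreal_toReal.indicator measurableSet_Ioo
      have hf0 : ∀ x, 0 ≤ f x := fun x => indicator_nonneg (fun _ _ => ENNReal.toReal_nonneg) x
      have hfM : ∀ x, |f x| ≤ n := by
        intro x
        rw [abs_of_nonneg (hf0 x), hf]
        by_cases hx : x ∈ I
        · rw [indicator_of_mem hx]
          have := ENNReal.toReal_mono (ENNReal.natCast_ne_top n) (min_le_right (sg p U x) (n : ℝ≥0∞))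
          simpa using this
        · rw [indicator_of_notMem hx]; positivity
      have hfz : ∀ x, x ∉ Ioo (c - L) (c + L) → f x = 0 := by
        intro x hx
        rw [hI] at hx
        exact indicator_of_notMem hx _
      have hmain := na_main (p := p) hp hκ hlow H hL hfm hf0 hfM hfz
      -- the integral of f
      have hint : ENNReal.ofReal (∫ t, f t) = J n := by
        rw [ofReal_integral_eq_lintegral_ofReal (na_integrable hfm hfM hfz)
          (Eventually.of_forall hf0), hJ]
        simp only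
        rw [← lintegral_indicator measurableSet_Ioo]
        apply lintegral_congr
        intro x
        by_cases hx : x ∈ I
        · rw [hf, indicator_of_mem hx, indicator_of_mem hx, ENNReal.ofReal_toReal (hFt n x)]
        · rw [hf, indicator_of_notMem hx, indicator_of_notMem hx, ENNReal.ofReal_zero]
      have hI0 : 0 ≤ ∫ t, f t := integral_nonneg hf0
      -- right hand side
      have hrhs : ∫⁻ x, ‖f x‖ₑ ^ p * U x ≤ J n := by
        rw [hJ]
        simp only
        rw [← lintegral_indicator measurableSet_Ioo]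
        apply lintegral_mono
        intro x
        simp only
        by_cases hx : x ∈ I
        · rw [hf, indicator_of_mem hx, indicator_of_mem hx]
          have e1 : ‖(F n x).toReal‖ₑ = F n x := by
            rw [Real.enorm_eq_ofReal ENNReal.toReal_nonneg, ENNReal.ofReal_toReal (hFt n x)]
          rw [e1]
          by_cases hux : U x = 0
          · rw [hux, mul_zero]; exact zero_le
          · have e2 : F n x ^ p = F n x * F n x ^ (p - 1) := by
              by_cases h00 : F n x = 0
              · rw [h00, ENNReal.zero_rpow_of_pos hp0, zero_mul]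
              · have := ENNReal.rpow_add 1 (p - 1) h00 (hFt n x)
                rw [ENNReal.rpow_one, add_sub_cancel] at this
                exact this
            rw [e2, mul_assoc]
            calc F n x * (F n x ^ (p - 1) * U x) ≤ F n x * (sg p U x ^ (p - 1) * U x) := by
                  gcongr
                  exact min_le_left _ _
              _ = F n x := by
                  unfold sg
                  rw [← ENNReal.rpow_mul]
                  have : -(1 / (p - 1)) * (p - 1) = -1 := by field_simp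
                  rw [this, ENNReal.rpow_neg_one, ENNReal.inv_mul_cancel hux (hUt x), mul_one]
        · rw [hf, indicator_of_notMem hx, indicator_of_notMem hx, enorm_zero,
            ENNReal.zero_rpow_of_pos hp0, zero_mul]
      -- left hand side
      have hlhs : ENNReal.ofReal ((1 / 2) ^ (lam * p / 2)) * W ≤
          ∫⁻ x, ENNReal.ofReal ((L / (L + |x - c|)) ^ (lam * p / 2)) * U x := by
        rw [hW, ← lintegral_const_mul _ hU, ← lintegral_indicator measurableSet_Ioo]
        apply lintegral_mono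
        intro x
        simp only
        by_cases hx : x ∈ I
        · rw [indicator_of_mem hx]
          refine mul_le_mul' (ENNReal.ofReal_le_ofReal ?_) le_rfl
          apply Real.rpow_le_rpow (by norm_num) _ (by positivity)
          rw [div_le_div_iff₀ (by norm_num) (by positivity)]
          have h1 : |x - c| < L := by
            rw [← hI] at hx
            rw [abs_lt]; constructor <;> linarith [hx.1, hx.2]
          linarith
        · rw [indicator_of_notMem hx]; exact zero_le
      by_cases hJ0 : J n = 0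
      · rw [hJ0, ENNReal.zero_rpow_of_pos hp1, mul_zero, mul_zero]; exact zero_le
      -- combine
      have hcomb : ENNReal.ofReal (κ ^ (p / 2) * ((∫ t, f t) / L) ^ p) *
          (ENNReal.ofReal ((1 / 2) ^ (lam * p / 2)) * W) ≤ C * J n :=
        (mul_le_mul' le_rfl hlhs).trans (hmain.trans (mul_le_mul' le_rfl hrhs))
      have hLp : ENNReal.ofReal L ^ p ≠ 0 := by
        rw [ENNReal.ofReal_rpow_of_pos hL]
        simp only [ne_eq, ENNReal.ofReal_eq_zero, not_le]
        positivity
      have hLt : ENNReal.ofReal L ^ p ≠ ⊤ := ENNReal.rpow_ne_top_of_nonneg hp0.le ENNReal.ofReal_ne_top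
      have e3 : ENNReal.ofReal (κ ^ (p / 2) * ((∫ t, f t) / L) ^ p) =
          ENNReal.ofReal (κ ^ (p / 2)) * (J n ^ p / ENNReal.ofReal L ^ p) := by
        rw [ENNReal.ofReal_mul (by positivity), ← ENNReal.ofReal_rpow_of_nonneg (by positivity) hp0.le,
          ENNReal.ofReal_div_of_pos hL, hint, ENNReal.div_rpow_of_nonneg _ _ hp0.le]
      have e4 : J n ^ p = J n * J n ^ (p - 1) := by
        have := ENNReal.rpow_add 1 (p - 1) hJ0 (hJt n)
        rw [ENNReal.rpow_one, add_sub_cancel] at this
        exact this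
      have e5 : ENNReal.ofReal L ^ p * (ENNReal.ofReal (κ ^ (p / 2) * ((∫ t, f t) / L) ^ p) *
          (ENNReal.ofReal ((1 / 2) ^ (lam * p / 2)) * W)) = J n * (k * (W * J n ^ (p - 1))) := by
        rw [e3, e4, hk, ENNReal.ofReal_mul (by positivity)]
        have e6 : ENNReal.ofReal L ^ p * (J n * J n ^ (p - 1) / ENNReal.ofReal L ^ p) =
            J n * J n ^ (p - 1) := ENNReal.mul_div_cancel hLp hLt
        calc ENNReal.ofReal L ^ p * (ENNReal.ofReal (κ ^ (p / 2)) *
              (J n * J n ^ (p - 1) / ENNReal.ofReal L ^ p) *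
              (ENNReal.ofReal ((1 / 2) ^ (lam * p / 2)) * W))
            = (ENNReal.ofReal L ^ p * (J n * J n ^ (p - 1) / ENNReal.ofReal L ^ p)) *
              (ENNReal.ofReal (κ ^ (p / 2)) * (ENNReal.ofReal ((1 / 2) ^ (lam * p / 2)) * W)) := by
              ring
          _ = _ := by rw [e6]; ring
      have h7 : J n * (k * (W * J n ^ (p - 1))) ≤ J n * (C * ENNReal.ofReal L ^ p) := by
        rw [← e5]
        calc ENNReal.ofReal L ^ p * (ENNReal.ofReal (κ ^ (p / 2) * ((∫ t, f t) / L) ^ p) *
              (ENNReal.ofReal ((1 / 2) ^ (lam * p / 2)) * W))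
            ≤ ENNReal.ofReal L ^ p * (C * J n) := mul_le_mul' le_rfl hcomb
          _ = _ := by ring
      have h8 : k * (W * J n ^ (p - 1)) ≤ C * ENNReal.ofReal L ^ p :=
        (ENNReal.mul_le_mul_iff_right hJ0 (hJt n)).1 h7
      refine h8.trans ?_
      gcongr
      rw [hLdef]; linarith
    -- pass to the limit
    have hlim : Tendsto J atTop (𝓝 (∫⁻ x in I, sg p U x)) := by
      apply lintegral_tendsto_of_tendsto_of_monotone
      · exact fun n => (hFm n).aemeasurable
      · refine Eventually.of_forall fun x => ?_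
        intro m n hmn
        simp only [hF]
        exact min_le_min_left _ (by exact_mod_cast hmn)
      · refine Eventually.of_forall fun x => ?_
        simp only [hF]
        have h9 : Tendsto (fun n : ℕ => (n : ℝ≥0∞)) atTop (𝓝 ⊤) := ENNReal.tendsto_nat_nhds_top
        have h10 : Tendsto (fun n : ℕ => min (sg p U x) (n : ℝ≥0∞)) atTop (𝓝 (min (sg p U x) ⊤)) :=
          tendsto_const_nhds.min h9
        rwa [min_top_right] at h10
    have hlim2 : Tendsto (fun n => k * (W * J n ^ (p - 1))) atTop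
        (𝓝 (k * (W * (∫⁻ x in I, sg p U x) ^ (p - 1)))) := by
      apply ENNReal.Tendsto.const_mul _ (Or.inr hkt)
      apply ENNReal.Tendsto.const_mul _ (Or.inr hWt)
      exact ((ENNReal.continuous_rpow_const (y := p - 1)).tendsto _).comp hlim
    have hfin : k * (W * (∫⁻ x in I, sg p U x) ^ (p - 1)) ≤ C * ENNReal.ofReal (b - a) ^ p :=
      le_of_tendsto' hlim2 hstep
    calc W * (∫⁻ x in I, sg p U x) ^ (p - 1)
        = (k * (W * (∫⁻ x in I, sg p U x) ^ (p - 1))) / k := by
          rw [ENNReal.mul_div_right_comm, ENNReal.div_self hk0 hkt, one_mul]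
      _ ≤ (C * ENNReal.ofReal (b - a) ^ p) / k := ENNReal.div_le_div_right hfin k
      _ = C / k * ENNReal.ofReal (b - a) ^ p := by
          rw [ENNReal.mul_div_right_comm]
  · -- second condition
    set k : ℝ≥0∞ := ENNReal.ofReal (κ ^ (p / 2) * 2 ^ p) with hk
    have hk0 : k ≠ 0 := by
      rw [hk]
      simp only [ne_eq, ENNReal.ofReal_eq_zero, not_le]
      positivity
    have hkt : k ≠ ⊤ := ENNReal.ofReal_ne_top
    refine ⟨C / k, ENNReal.div_ne_top hC hk0, ?_⟩
    intro c L hL
    set f : ℝ → ℝ := (Ioo (c - L) (c + L)).indicator (fun _ => (1 : ℝ)) with hf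
    have hfm : Measurable f := measurable_const.indicator measurableSet_Ioo
    have hf0 : ∀ x, 0 ≤ f x := fun x => indicator_nonneg (fun _ _ => zero_le_one) x
    have hfM : ∀ x, |f x| ≤ 1 := by
      intro x
      rw [abs_of_nonneg (hf0 x), hf]
      by_cases hx : x ∈ Ioo (c - L) (c + L)
      · rw [indicator_of_mem hx]
      · rw [indicator_of_notMem hx]; norm_num
    have hfz : ∀ x, x ∉ Ioo (c - L) (c + L) → f x = 0 := fun x hx => indicator_of_notMem hx _
    have hmain := na_main (p := p) hp hκ hlow H hL hfm hf0 hfM hfz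
    have hint : ∫ t, f t = 2 * L := by
      rw [hf, integral_indicator measurableSet_Ioo]
      simp only [integral_const, MeasurableSet.univ, measureReal_restrict_apply, univ_inter,
        Real.volume_real_Ioo, smul_eq_mul, mul_one]
      rw [max_eq_left (by linarith)]
      ring
    have hrhs : ∫⁻ x, ‖f x‖ₑ ^ p * U x = ∫⁻ x in Ioo (c - L) (c + L), U x := by
      rw [← lintegral_indicator measurableSet_Ioo]
      apply lintegral_congr
      intro x
      by_cases hx : x ∈ Ioo (c - L) (c + L)
      · rw [hf, indicator_of_mem hx, indicator_of_mem hx]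
        simp
      · rw [hf, indicator_of_notMem hx, indicator_of_notMem hx, enorm_zero,
          ENNReal.zero_rpow_of_pos hp0, zero_mul]
    rw [hint, hrhs] at hmain
    have e1 : 2 * L / L = 2 := by field_simp
    rw [e1, ← hk] at hmain
    calc ∫⁻ x, ENNReal.ofReal ((L / (L + |x - c|)) ^ (lam * p / 2)) * U x
        = (k * ∫⁻ x, ENNReal.ofReal ((L / (L + |x - c|)) ^ (lam * p / 2)) * U x) / k := by
          rw [ENNReal.mul_div_right_comm, ENNReal.div_self hk0 hkt, one_mul]
      _ ≤ (C * ∫⁻ x in Ioo (c - L) (c + L), U x) / k := ENNReal.div_le_div_right hmain k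
      _ = _ := by rw [ENNReal.mul_div_right_comm]

end Pool.Agent.TH407.GS
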