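import Pool.Agent.TH407.GS.Pub
import Pool.Agent.TH407.GS.GlSum
import Pool.Agent.TH407.GS.Exf
import Pool.Agent.TH407.GS.NecApB
import Pool.Agent.TH407.GS.Bri
import Pool.Agent.TH318.Br

set_option autoImplicit false
open MeasureTheory Set Filter Topology
open scoped ENNReal NNReal
open Pool.Agent.TH280.MZ

namespace Pool.Agent.TH407.GS

/-! ### From `B_r` to doubling -/

/-- the measure of a weight -/
noncomputable def fm (U : ℝ → ℝ) : Measure ℝ := volume.withDensity fun x => ENNReal.ofReal (U x)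

lemma fm_Ioo (U : ℝ → ℝ) (a b : ℝ) :
    fm U (Ioo a b) = ∫⁻ x in Ioo a b, ENNReal.ofReal (U x) := by
  unfold fm
  rw [withDensity_apply _ measurableSet_Ioo]

lemma fm_lf {U : ℝ → ℝ} (hU : IsWeight U) (a b : ℝ) : fm U (Ioo a b) ≠ ⊤ := by
  rw [fm_Ioo]
  have h1 : IntegrableOn U (Icc a b) := hU.2.integrableOn_isCompact isCompact_Icc
  have h2 : IntegrableOn U (Ioo a b) := h1.mono_set Ioo_subset_Icc_self
  exact h2.lintegral_lt_top.ne

lemma fm_lint_eq {U : ℝ → ℝ} (hU : IsWeight U) {r c L : ℝ} (hL : 0 < L) :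
    ∫⁻ x, ENNReal.ofReal (L ^ (r - 1) * U x / (L ^ r + |x - c| ^ r)) =
      ENNReal.ofReal (1 / L) * ∫⁻ x, ENNReal.ofReal (Pool.Agent.TH318.Br.ker r c L x) ∂(fm U) := by
  have hUm : AEMeasurable (fun x => ENNReal.ofReal (U x)) :=
    hU.2.aestronglyMeasurable.aemeasurable.ennreal_ofReal
  unfold fm
  rw [lintegral_withDensity_eq_lintegral_mul₀ hUm
    (Pool.Agent.TH318.Br.measurable_ker r c L).ennreal_ofReal.aemeasurable]
  rw [← lintegral_const_mul']
  · apply lintegral_congr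
    intro x
    simp only [Pi.mul_apply]
    rw [← ENNReal.ofReal_mul (hU.1 x), ← ENNReal.ofReal_mul (by positivity)]
    congr 1
    unfold Pool.Agent.TH318.Br.ker
    rw [Real.rpow_sub hL, Real.rpow_one]
    field_simp
  · exact ENNReal.ofReal_ne_top

lemma condB_bm {U : ℝ → ℝ} (hU : IsWeight U) {r : ℝ} (h : CondB r U) :
    ∃ C : ℝ, 1 ≤ C ∧ Pool.Agent.TH318.Br.Bm (fm U) r (ENNReal.ofReal C) := by
  obtain ⟨C, hC⟩ := h
  refine ⟨max (C : ℝ) 1, le_max_right _ _, ?_⟩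
  intro c L hL
  have h := hC c L hL
  rw [fm_lint_eq hU hL, ← fm_Ioo] at h
  have hLL : ENNReal.ofReal L * ENNReal.ofReal (1 / L) = 1 := by
    rw [← ENNReal.ofReal_mul hL.le, mul_one_div_cancel hL.ne', ENNReal.ofReal_one]
  have hL0 : ENNReal.ofReal L ≠ 0 := by simpa using hL
  calc ∫⁻ x, ENNReal.ofReal (Pool.Agent.TH318.Br.ker r c L x) ∂(fm U)
      = ENNReal.ofReal L * (ENNReal.ofReal (1 / L) *
          ∫⁻ x, ENNReal.ofReal (Pool.Agent.TH318.Br.ker r c L x) ∂(fm U)) := by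
        rw [← mul_assoc, hLL, one_mul]
    _ ≤ ENNReal.ofReal L * (C * (fm U (Ioo (c - L / 2) (c + L / 2)) / ENNReal.ofReal L)) := by
        gcongr
    _ = C * fm U (Ioo (c - L / 2) (c + L / 2)) := by
        rw [ENNReal.div_eq_inv_mul]
        calc ENNReal.ofReal L * (C * ((ENNReal.ofReal L)⁻¹ * fm U (Ioo (c - L / 2) (c + L / 2))))
            = (ENNReal.ofReal L * (ENNReal.ofReal L)⁻¹) *
              (C * fm U (Ioo (c - L / 2) (c + L / 2))) := by ring
          _ = _ := by rw [ENNReal.mul_inv_cancel hL0 ENNReal.ofReal_ne_top, one_mul]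
    _ ≤ ENNReal.ofReal (max (C : ℝ) 1) * fm U (Pool.Agent.TH318.Br.iv c L) := by
        unfold Pool.Agent.TH318.Br.iv
        gcongr
        rw [← ENNReal.ofReal_coe_nnreal]
        exact ENNReal.ofReal_le_ofReal (le_max_left _ _)

lemma condB_doubling {U : ℝ → ℝ} (hU : IsWeight U) {r : ℝ} (hr : 1 < r) (h : CondB r U) :
    ∃ q : ℝ, 0 < q ∧ q < r ∧ ∃ D : ℝ, 1 ≤ D ∧ ∀ c L t : ℝ, 0 < L → 1 ≤ t →
      fm U (Ioo (c - t * L) (c + t * L)) ≤
        ENNReal.ofReal (D * t ^ q) * fm U (Ioo (c - L) (c + L)) := by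
  obtain ⟨C, hC1, hC⟩ := condB_bm hU h
  have hlf : Pool.Agent.TH318.Br.LF (fm U) := fun c L => (fm_lf hU _ _).lt_top
  obtain ⟨q, h0, h1, D, hD, h2⟩ := Pool.Agent.TH318.Br.doubling_of_bm hr hC1 hlf hC
  refine ⟨q, h0, h1, D, hD, fun c L t hL ht => ?_⟩
  have h3 := h2 c (2 * L) t (by linarith) ht
  unfold Pool.Agent.TH318.Br.iv at h3
  have e1 : t * (2 * L) / 2 = t * L := by ring
  have e2 : 2 * L / 2 = L := by ring
  rwa [e1, e2] at h3

/-! ### `A_p` in the two forms -/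

lemma condA_of_ApW {p : ℝ} (hp : 1 < p) {U : ℝ → ℝ} {A : ℝ≥0∞}
    (h : ApW p (fun x => ENNReal.ofReal (U x)) A) : CondA p U := by
  refine ⟨A.toNNReal, fun a b hab => ?_⟩
  have h1 := h.bd a b hab
  rw [ENNReal.coe_toNNReal h.A_fin]
  have hL0 : ENNReal.ofReal (b - a) ≠ 0 := by
    simp only [ne_eq, ENNReal.ofReal_eq_zero, not_le]; linarith
  have hLt : ENNReal.ofReal (b - a) ≠ ⊤ := ENNReal.ofReal_ne_top
  have hp1 : 0 < p - 1 := by linarith
  set L := ENNReal.ofReal (b - a) with hL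
  set W := ∫⁻ x in Ioo a b, ENNReal.ofReal (U x) with hW
  change W * (∫⁻ x in Ioo a b, ENNReal.ofReal (U x) ^ (-(1 / (p - 1)))) ^ (p - 1) ≤ _ at h1
  set S := ∫⁻ x in Ioo a b, ENNReal.ofReal (U x) ^ (-(1 / (p - 1))) with hS
  have hLp : L ^ p = L ^ (p - 1) * L := by
    have := ENNReal.rpow_add (p - 1) 1 hL0 hLt
    rw [ENNReal.rpow_one, sub_add_cancel] at this
    exact this
  rw [ENNReal.div_rpow_of_nonneg _ _ hp1.le]
  have e : W / L * (S ^ (p - 1) / L ^ (p - 1)) = (W * S ^ (p - 1)) / L ^ p := by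
    rw [hLp, ENNReal.div_eq_inv_mul, ENNReal.div_eq_inv_mul, ENNReal.div_eq_inv_mul,
      ENNReal.mul_inv (Or.inr hLt) (Or.inr hL0)]
    ring
  rw [e]
  exact ENNReal.div_le_of_le_mul h1

lemma ApW_of_condA {p : ℝ} (hp : 1 < p) {U : ℝ → ℝ} (hU : Measurable U)
    (hne : ¬ (fun x => ENNReal.ofReal (U x)) =ᵐ[volume] 0) (h : CondA p U) :
    ∃ A : ℝ≥0∞, ApW p (fun x => ENNReal.ofReal (U x)) A := by
  obtain ⟨C, hC⟩ := h
  refine ⟨C, ⟨hU.ennreal_ofReal, fun x => ENNReal.ofReal_ne_top, hne, ENNReal.coe_ne_top, ?_⟩⟩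
  intro a b hab
  have h1 := hC a b hab
  have hL0 : ENNReal.ofReal (b - a) ≠ 0 := by
    simp only [ne_eq, ENNReal.ofReal_eq_zero, not_le]; linarith
  have hLt : ENNReal.ofReal (b - a) ≠ ⊤ := ENNReal.ofReal_ne_top
  have hp1 : 0 < p - 1 := by linarith
  change (∫⁻ x in Ioo a b, ENNReal.ofReal (U x)) *
    (∫⁻ x in Ioo a b, ENNReal.ofReal (U x) ^ (-(1 / (p - 1)))) ^ (p - 1) ≤ _
  set L := ENNReal.ofReal (b - a) with hL
  set W := ∫⁻ x in Ioo a b, ENNReal.ofReal (U x) with hW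
  set S := ∫⁻ x in Ioo a b, ENNReal.ofReal (U x) ^ (-(1 / (p - 1))) with hS
  have hLp : L ^ p = L ^ (p - 1) * L := by
    have := ENNReal.rpow_add (p - 1) 1 hL0 hLt
    rw [ENNReal.rpow_one, sub_add_cancel] at this
    exact this
  rw [ENNReal.div_rpow_of_nonneg _ _ hp1.le] at h1
  have e : W / L * (S ^ (p - 1) / L ^ (p - 1)) = (W * S ^ (p - 1)) / L ^ p := by
    rw [hLp, ENNReal.div_eq_inv_mul, ENNReal.div_eq_inv_mul, ENNReal.div_eq_inv_mul,
      ENNReal.mul_inv (Or.inr hLt) (Or.inr hL0)]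
    ring
  rw [e, ENNReal.div_le_iff (by
    intro h0
    rw [ENNReal.rpow_eq_zero_iff] at h0
    rcases h0 with h0 | h0
    · exact hL0 h0.1
    · exact hLt h0.1) (ENNReal.rpow_ne_top_of_nonneg (by linarith) hLt)] at h1
  exact h1

/-! ### From the cone condition to `B_r` -/

lemma condB_of_cone {U : ℝ → ℝ} (hU : IsWeight U) {r : ℝ} (hr : 0 < r) {K : ℝ≥0∞} (hK : K ≠ ⊤)
    (h : ∀ c L : ℝ, 0 < L →
      ∫⁻ x, ENNReal.ofReal ((L / (L + |x - c|)) ^ r) * ENNReal.ofReal (U x) ≤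
        K * ∫⁻ x in Ioo (c - L) (c + L), ENNReal.ofReal (U x)) : CondB r U := by
  refine ⟨K.toNNReal * ((4 : ℝ) ^ r).toNNReal, fun c L hL => ?_⟩
  have hL2 : 0 < L / 2 := by linarith
  have h1 := h c (L / 2) hL2
  have hL0 : ENNReal.ofReal L ≠ 0 := by simpa using hL
  have hpt : ∀ x, ENNReal.ofReal (L ^ (r - 1) * U x / (L ^ r + |x - c| ^ r)) ≤
      ENNReal.ofReal (4 ^ r / L) *
        (ENNReal.ofReal ((L / 2 / (L / 2 + |x - c|)) ^ r) * ENNReal.ofReal (U x)) := by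
    intro x
    have hd : 0 ≤ |x - c| := abs_nonneg _
    rw [← ENNReal.ofReal_mul (by positivity), ← ENNReal.ofReal_mul (by positivity)]
    apply ENNReal.ofReal_le_ofReal
    have hUx := hU.1 x
    set d := |x - c| with hdd
    have h2 : (L / 2 + d) ^ r ≤ 2 ^ r * (L ^ r + d ^ r) := by
      have h3 : L / 2 + d ≤ 2 * max L d := by
        have := le_max_left L d
        have := le_max_right L d
        linarith
      calc (L / 2 + d) ^ r ≤ (2 * max L d) ^ r :=
            Real.rpow_le_rpow (by positivity) h3 hr.le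
        _ = 2 ^ r * (max L d) ^ r := by
            rw [Real.mul_rpow (by norm_num) (le_max_of_le_left hL.le)]
        _ ≤ 2 ^ r * (L ^ r + d ^ r) := by
            gcongr
            rcases le_total L d with h4 | h4
            · rw [max_eq_right h4]
              have : 0 ≤ L ^ r := by positivity
              linarith
            · rw [max_eq_left h4]
              have : 0 ≤ d ^ r := by positivity
              linarith
    have h5 : L ^ r / (L ^ r + d ^ r) ≤ 4 ^ r * (L / 2 / (L / 2 + d)) ^ r := by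
      rw [Real.div_rpow (by positivity) (by positivity), Real.div_rpow (by positivity) (by norm_num),
        div_div, ← mul_div_assoc]
      rw [div_le_div_iff₀ (by positivity) (by positivity)]
      have h6 : (4 : ℝ) ^ r = 2 ^ r * 2 ^ r := by
        rw [← Real.mul_rpow (by norm_num) (by norm_num)]; norm_num
      rw [h6]
      have hLr : 0 < L ^ r := by positivity
      have h2r : (0:ℝ) < 2 ^ r := by positivity
      calc L ^ r * (2 ^ r * (L / 2 + d) ^ r) ≤ L ^ r * (2 ^ r * (2 ^ r * (L ^ r + d ^ r))) := by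
            gcongr
        _ = 2 ^ r * 2 ^ r * L ^ r * (L ^ r + d ^ r) := by ring
    calc L ^ (r - 1) * U x / (L ^ r + d ^ r) = (L ^ r / (L ^ r + d ^ r)) * (U x / L) := by
          rw [Real.rpow_sub hL, Real.rpow_one]; field_simp
      _ ≤ (4 ^ r * (L / 2 / (L / 2 + d)) ^ r) * (U x / L) := by gcongr
      _ = _ := by ring
  calc ∫⁻ x, ENNReal.ofReal (L ^ (r - 1) * U x / (L ^ r + |x - c| ^ r))
      ≤ ∫⁻ x, ENNReal.ofReal (4 ^ r / L) *
        (ENNReal.ofReal ((L / 2 / (L / 2 + |x - c|)) ^ r) * ENNReal.ofReal (U x)) :=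
        lintegral_mono hpt
    _ = ENNReal.ofReal (4 ^ r / L) * ∫⁻ x,
        (ENNReal.ofReal ((L / 2 / (L / 2 + |x - c|)) ^ r) * ENNReal.ofReal (U x)) :=
        lintegral_const_mul' _ _ ENNReal.ofReal_ne_top
    _ ≤ ENNReal.ofReal (4 ^ r / L) *
        (K * ∫⁻ x in Ioo (c - L / 2) (c + L / 2), ENNReal.ofReal (U x)) := by gcongr
    _ = _ := by
        rw [ENNReal.ofReal_div_of_pos hL, ENNReal.coe_mul, ENNReal.coe_toNNReal hK,
          ENNReal.div_eq_inv_mul, ENNReal.div_eq_inv_mul]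
        have : ((((4:ℝ) ^ r).toNNReal : ℝ≥0) : ℝ≥0∞) = ENNReal.ofReal (4 ^ r) := rfl
        rw [this]
        ring

/-! ### Changing functions on null sets -/

section
variable {E : Type} [NormedAddCommGroup E] [NormedSpace ℝ E]

lemma poisson_congr {f g : ℝ → E} (h : f =ᵐ[volume] g) (z y : ℝ) : poisson f z y = poisson g z y := by
  unfold poisson
  congr 1
  apply integral_congr_ae
  have h1 : (fun x => f (z - x)) =ᵐ[volume] fun x => g (z - x) :=
    (Measure.measurePreserving_sub_left volume z).quasiMeasurePreserving.ae_eq_comp h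
  filter_upwards [h1] with x hx
  rw [hx]

lemma gradSq_congr {f g : ℝ → E} (h : f =ᵐ[volume] g) (z y : ℝ) : gradSq f z y = gradSq g z y := by
  unfold gradSq
  have h1 : (fun s => poisson f s y) = fun s => poisson g s y := by
    ext s; exact poisson_congr h s y
  have h2 : (fun t => poisson f z t) = fun t => poisson g z t := by
    ext t; exact poisson_congr h z t
  rw [h1, h2]

lemma gstar_congr {f g : ℝ → E} (h : f =ᵐ[volume] g) (lam x : ℝ) : gstar lam f x = gstar lam g x := by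
  unfold gstar
  simp only [gradSq_congr h]

lemma ineq_congr {lam p : ℝ} {U V : ℝ → ℝ} (h : U =ᵐ[volume] V) (H : GStarIneq E lam p U) :
    GStarIneq E lam p V := by
  obtain ⟨C, hC⟩ := H
  have e1 : ∀ F : ℝ → ℝ≥0∞, ∫⁻ x, F x * ENNReal.ofReal (U x) = ∫⁻ x, F x * ENNReal.ofReal (V x) := by
    intro F
    apply lintegral_congr_ae
    filter_upwards [h] with x hx
    rw [hx]
  refine ⟨C, fun f hf hfin => ?_⟩
  have h1 := hC f hf
  simp only [e1] at h1
  exact h1 hfin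

end

lemma condA_congr {p : ℝ} {U V : ℝ → ℝ} (h : U =ᵐ[volume] V) (H : CondA p U) : CondA p V := by
  obtain ⟨C, hC⟩ := H
  refine ⟨C, fun a b hab => ?_⟩
  have h1 := hC a b hab
  have e1 : ∫⁻ x in Ioo a b, ENNReal.ofReal (U x) = ∫⁻ x in Ioo a b, ENNReal.ofReal (V x) := by
    apply lintegral_congr_ae
    filter_upwards [ae_restrict_of_ae h] with x hx
    rw [hx]
  have e2 : ∫⁻ x in Ioo a b, ENNReal.ofReal (U x) ^ (-(1 / (p - 1))) =
      ∫⁻ x in Ioo a b, ENNReal.ofReal (V x) ^ (-(1 / (p - 1))) := by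
    apply lintegral_congr_ae
    filter_upwards [ae_restrict_of_ae h] with x hx
    rw [hx]
  rwa [e1, e2] at h1

lemma condB_congr {r : ℝ} {U V : ℝ → ℝ} (h : U =ᵐ[volume] V) (H : CondB r U) : CondB r V := by
  obtain ⟨C, hC⟩ := H
  refine ⟨C, fun c L hL => ?_⟩
  have h1 := hC c L hL
  have e1 : ∫⁻ x in Ioo (c - L / 2) (c + L / 2), ENNReal.ofReal (U x) =
      ∫⁻ x in Ioo (c - L / 2) (c + L / 2), ENNReal.ofReal (V x) := by
    apply lintegral_congr_ae
    filter_upwards [ae_restrict_of_ae h] with x hx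
    rw [hx]
  have e2 : ∫⁻ x, ENNReal.ofReal (L ^ (r - 1) * U x / (L ^ r + |x - c| ^ r)) =
      ∫⁻ x, ENNReal.ofReal (L ^ (r - 1) * V x / (L ^ r + |x - c| ^ r)) := by
    apply lintegral_congr_ae
    filter_upwards [h] with x hx
    rw [hx]
  rwa [e1, e2] at h1

end Pool.Agent.TH407.GS
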