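import Pool.Agent.TH407.GS.Fin1

set_option autoImplicit false
open MeasureTheory Set Filter Topology
open scoped ENNReal NNReal
open Pool.Agent.TH280.MZ

namespace Pool.Agent.TH407.GS

lemma measurable_GR {f : ℝ → ℝ} (hf : Measurable f) : Measurable (Function.uncurry (GR f)) := by
  obtain ⟨-, h1, h2, -⟩ := measurable_PI hf
  have : Function.uncurry (GR f) = fun q : ℝ × ℝ =>
      ENNReal.ofReal ((PIz f q.1 q.2) ^ 2 + (PIy f q.1 q.2) ^ 2) := by
    ext ⟨a, b⟩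
    rfl
  rw [this]
  exact ((h1.pow_const 2).add (h2.pow_const 2)).ennreal_ofReal

/-- the sufficiency, in terms of `GLs` -/
theorem suff_core {lam p : ℝ} (hl : 0 < lam) (hp1 : 1 < p) (hp2 : p < 2) {U : ℝ → ℝ}
    (hUm : Measurable U) (hU : IsWeight U) (hr : 1 < lam * p / 2) {A : ℝ≥0∞}
    (hA : ApW p (fun x => ENNReal.ofReal (U x)) A) (hB : CondB (lam * p / 2) U) :
    ∃ C : ℝ≥0∞, C ≠ ⊤ ∧ ∀ f : ℝ → ℝ, Measurable f →
      ∫⁻ x, ‖f x‖ₑ ^ p * ENNReal.ofReal (U x) ≠ ⊤ →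
      ∫⁻ x, GLs lam (GR f) x ^ (p / 2) * ENNReal.ofReal (U x) ≤
        C * ∫⁻ x, ‖f x‖ₑ ^ p * ENNReal.ofReal (U x) := by
  obtain ⟨q, hq0, hqr, D, hD, hdbl⟩ := condB_doubling hU hr hB
  obtain ⟨C1, hC1, h1⟩ := gl_sum (p := p) hl (by linarith) hp2 hq0.le hqr hD
  obtain ⟨C2, hC2, h2⟩ := area_p hp1 hp2 hA
  have hsf : SigmaFinite (fm U) := by
    unfold fm
    exact SigmaFinite.withDensity_of_ne_top (Filter.Eventually.of_forall fun x => ENNReal.ofReal_ne_top)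
  have h0 : ∀ a b : ℝ, a < b → fm U (Ioo a b) ≠ 0 := fun a b hab => by
    rw [fm_Ioo]; exact int_w_ne_zero hp1 hA hab
  refine ⟨C1 * C2, ENNReal.mul_ne_top hC1 hC2, fun f hf hfin => ?_⟩
  have h3 := h1 (fm U) h0 (fun a b _ => fm_lf hU a b) hdbl (GR f) (measurable_GR hf)
  have hw : Measurable (fun x => ENNReal.ofReal (U x)) := hUm.ennreal_ofReal
  unfold fm at h3
  rw [lintegral_withDensity_eq_lintegral_mul_non_measurable _ hw
      (Filter.Eventually.of_forall fun x => ENNReal.ofReal_lt_top),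
    lintegral_withDensity_eq_lintegral_mul_non_measurable _ hw
      (Filter.Eventually.of_forall fun x => ENNReal.ofReal_lt_top)] at h3
  simp only [Pi.mul_apply] at h3
  calc ∫⁻ x, GLs lam (GR f) x ^ (p / 2) * ENNReal.ofReal (U x)
      = ∫⁻ x, ENNReal.ofReal (U x) * GLs lam (GR f) x ^ (p / 2) := by
        apply lintegral_congr; intro x; ring
    _ ≤ C1 * ∫⁻ x, ENNReal.ofReal (U x) * SQ 1 (GR f) x ^ (p / 2) := h3
    _ = C1 * ∫⁻ x, SQ 1 (GR f) x ^ (p / 2) * ENNReal.ofReal (U x) := by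
        congr 1
        apply lintegral_congr; intro x; ring
    _ ≤ C1 * (C2 * ∫⁻ x, ‖f x‖ₑ ^ p * ENNReal.ofReal (U x)) := by
        gcongr
        exact h2 f hf hfin
    _ = _ := by ring

lemma gstar_pow {E : Type} [NormedAddCommGroup E] [NormedSpace ℝ E] {lam p : ℝ} (f : ℝ → E) (x : ℝ) :
    gstar lam f x ^ p = (∫⁻ z, ∫⁻ y in Ioi (0 : ℝ),
      ENNReal.ofReal ((y / (|x - z| + y)) ^ lam * gradSq f z y)) ^ (p / 2) := by
  unfold gstar
  rw [← ENNReal.rpow_mul]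
  congr 1
  ring

lemma gstar_pow_le {E : Type} [NormedAddCommGroup E] [NormedSpace ℝ E] {lam p : ℝ} (hp : 0 < p)
    (f : ℝ → E) (G : ℝ → ℝ → ℝ≥0∞)
    (h : ∀ z y : ℝ, 0 < y → ENNReal.ofReal (gradSq f z y) ≤ G z y) (x : ℝ) :
    gstar lam f x ^ p ≤ GLs lam G x ^ (p / 2) := by
  rw [gstar_pow]
  apply ENNReal.rpow_le_rpow _ (by positivity)
  unfold GLs
  apply lintegral_mono
  intro z
  apply setLIntegral_mono' measurableSet_Ioi
  intro y hy
  have hy0 : (0 : ℝ) < y := hy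
  rw [ENNReal.ofReal_mul (by positivity)]
  gcongr
  exact h z y hy0

lemma gstar_pow_eq {E : Type} [NormedAddCommGroup E] [NormedSpace ℝ E] {lam p : ℝ}
    (f : ℝ → E) (G : ℝ → ℝ → ℝ≥0∞)
    (h : ∀ z y : ℝ, 0 < y → ENNReal.ofReal (gradSq f z y) = G z y) (x : ℝ) :
    gstar lam f x ^ p = GLs lam G x ^ (p / 2) := by
  rw [gstar_pow]
  unfold GLs
  congr 1
  apply lintegral_congr
  intro z
  apply setLIntegral_congr_fun measurableSet_Ioi
  intro y hy
  have hy0 : (0 : ℝ) < y := hy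
  simp only
  rw [ENNReal.ofReal_mul (by positivity), h z y hy0]

theorem suff_real {lam p : ℝ} (hl : 0 < lam) (hp1 : 1 < p) (hp2 : p < 2) {U : ℝ → ℝ}
    (hUm : Measurable U) (hU : IsWeight U) (hr : 1 < lam * p / 2) {A : ℝ≥0∞}
    (hA : ApW p (fun x => ENNReal.ofReal (U x)) A) (hB : CondB (lam * p / 2) U) :
    GStarIneq ℝ lam p U := by
  obtain ⟨C, hC, h⟩ := suff_core hl hp1 hp2 hUm hU hr hA hB
  refine ⟨C.toNNReal, fun f hf hfin => ?_⟩
  rw [ENNReal.coe_toNNReal hC]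
  set g := hf.mk f with hg
  have hgm : Measurable g := hf.stronglyMeasurable_mk.measurable
  have hfg : f =ᵐ[volume] g := hf.ae_eq_mk
  have e : ∫⁻ x, ‖f x‖ₑ ^ p * ENNReal.ofReal (U x) = ∫⁻ x, ‖g x‖ₑ ^ p * ENNReal.ofReal (U x) := by
    apply lintegral_congr_ae
    filter_upwards [hfg] with x hx
    rw [hx]
  rw [e] at hfin ⊢
  refine le_trans (lintegral_mono fun x => ?_) (h g hgm hfin.ne)
  rw [gstar_congr hfg]
  gcongr
  exact gstar_pow_le (by linarith) g (GR g) (fun z y hy => gradSq_le hgm.aestronglyMeasurable hy z) x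

lemma GLs_add (lam : ℝ) {G H : ℝ → ℝ → ℝ≥0∞} (hG : Measurable (Function.uncurry G))
    (hH : Measurable (Function.uncurry H)) (x : ℝ) :
    GLs lam (fun z y => G z y + H z y) x = GLs lam G x + GLs lam H x := by
  unfold GLs
  have hk : Measurable (fun q : ℝ × ℝ => ENNReal.ofReal ((q.2 / (|x - q.1| + q.2)) ^ lam)) := by
    fun_prop
  have hG' : Measurable (fun q : ℝ × ℝ => ENNReal.ofReal ((q.2 / (|x - q.1| + q.2)) ^ lam) * G q.1 q.2) :=
    hk.mul hG
  have hH' : Measurable (fun q : ℝ × ℝ => ENNReal.ofReal ((q.2 / (|x - q.1| + q.2)) ^ lam) * H q.1 q.2) :=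
    hk.mul hH
  rw [← lintegral_add_left]
  · apply lintegral_congr
    intro z
    rw [← lintegral_add_left]
    · apply lintegral_congr
      intro y
      ring
    · exact hG'.comp (measurable_const.prodMk measurable_id)
  · exact Measurable.lintegral_prod_right' hG'

lemma measurable_GLs (lam : ℝ) {G : ℝ → ℝ → ℝ≥0∞} (hG : Measurable (Function.uncurry G)) :
    Measurable (fun x => GLs lam G x) := by
  unfold GLs
  have k1 : Measurable (fun q : (ℝ × ℝ) × ℝ =>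
      ENNReal.ofReal ((q.2 / (|q.1.1 - q.1.2| + q.2)) ^ lam)) := by fun_prop
  have k2 : Measurable (fun q : (ℝ × ℝ) × ℝ => G q.1.2 q.2) :=
    hG.comp ((measurable_snd.comp measurable_fst).prodMk measurable_snd)
  have hk : Measurable (fun q : (ℝ × ℝ) × ℝ =>
      ENNReal.ofReal ((q.2 / (|q.1.1 - q.1.2| + q.2)) ^ lam) * G q.1.2 q.2) := k1.mul k2
  have h4 : Measurable (fun q : ℝ × ℝ => ∫⁻ y in Ioi (0 : ℝ),
      ENNReal.ofReal ((y / (|q.1 - q.2| + y)) ^ lam) * G q.2 y) :=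
    Measurable.lintegral_prod_right' hk
  exact Measurable.lintegral_prod_right' h4

theorem suff_complex {lam p : ℝ} (hl : 0 < lam) (hp1 : 1 < p) (hp2 : p < 2) {U : ℝ → ℝ}
    (hUm : Measurable U) (hU : IsWeight U) (hr : 1 < lam * p / 2) {A : ℝ≥0∞}
    (hA : ApW p (fun x => ENNReal.ofReal (U x)) A) (hB : CondB (lam * p / 2) U) :
    GStarIneq ℂ lam p U := by
  obtain ⟨C, hC, h⟩ := suff_core hl hp1 hp2 hUm hU hr hA hB
  refine ⟨2 * C.toNNReal, fun f hf hfin => ?_⟩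
  rw [ENNReal.coe_mul, ENNReal.coe_toNNReal hC]
  set g := hf.mk f with hg
  have hgm : Measurable g := hf.stronglyMeasurable_mk.measurable
  have hfg : f =ᵐ[volume] g := hf.ae_eq_mk
  have e : ∫⁻ x, ‖f x‖ₑ ^ p * ENNReal.ofReal (U x) = ∫⁻ x, ‖g x‖ₑ ^ p * ENNReal.ofReal (U x) := by
    apply lintegral_congr_ae
    filter_upwards [hfg] with x hx
    rw [hx]
  rw [e] at hfin ⊢
  have hre : Measurable (fun t => (g t).re) := Complex.measurable_re.comp hgm
  have him : Measurable (fun t => (g t).im) := Complex.measurable_im.comp hgm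
  have b1 : ∫⁻ x, ‖(g x).re‖ₑ ^ p * ENNReal.ofReal (U x) ≤
      ∫⁻ x, ‖g x‖ₑ ^ p * ENNReal.ofReal (U x) := by
    apply lintegral_mono
    intro x
    simp only
    gcongr
    rw [← ofReal_norm, ← ofReal_norm]
    exact ENNReal.ofReal_le_ofReal (by rw [Real.norm_eq_abs]; exact Complex.abs_re_le_norm _)
  have b2 : ∫⁻ x, ‖(g x).im‖ₑ ^ p * ENNReal.ofReal (U x) ≤
      ∫⁻ x, ‖g x‖ₑ ^ p * ENNReal.ofReal (U x) := by
    apply lintegral_mono
    intro x
    simp only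
    gcongr
    rw [← ofReal_norm, ← ofReal_norm]
    exact ENNReal.ofReal_le_ofReal (by rw [Real.norm_eq_abs]; exact Complex.abs_im_le_norm _)
  have c1 := h _ hre (b1.trans_lt hfin).ne
  have c2 := h _ him (b2.trans_lt hfin).ne
  have hmeas : Measurable (fun x => GLs lam (GR fun t => (g t).re) x ^ (p / 2)) :=
    (measurable_GLs lam (measurable_GR hre)).pow_const _
  calc ∫⁻ x, gstar lam f x ^ p * ENNReal.ofReal (U x)
      ≤ ∫⁻ x, (GLs lam (GR fun t => (g t).re) x ^ (p / 2) * ENNReal.ofReal (U x) +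
          GLs lam (GR fun t => (g t).im) x ^ (p / 2) * ENNReal.ofReal (U x)) := by
        apply lintegral_mono
        intro x
        simp only
        rw [gstar_congr hfg, ← add_mul]
        gcongr
        refine (gstar_pow_le (by linarith) g
          (fun z y => GR (fun t => (g t).re) z y + GR (fun t => (g t).im) z y)
          (fun z y hy => gradSq_le_complex hgm.aestronglyMeasurable hy z) x).trans ?_
        rw [GLs_add lam (measurable_GR hre) (measurable_GR him)]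
        exact ENNReal.rpow_add_le_add_rpow _ _ (by positivity) (by linarith)
    _ = (∫⁻ x, GLs lam (GR fun t => (g t).re) x ^ (p / 2) * ENNReal.ofReal (U x)) +
          ∫⁻ x, GLs lam (GR fun t => (g t).im) x ^ (p / 2) * ENNReal.ofReal (U x) :=
        lintegral_add_left (hmeas.mul hUm.ennreal_ofReal) _
    _ ≤ C * (∫⁻ x, ‖g x‖ₑ ^ p * ENNReal.ofReal (U x)) +
          C * ∫⁻ x, ‖g x‖ₑ ^ p * ENNReal.ofReal (U x) := by
        gcongr
        · exact c1.trans (by gcongr)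
        · exact c2.trans (by gcongr)
    _ = _ := by push_cast; ring

/-! ### Necessity -/

lemma pt_of_nice {f : ℝ → ℝ} (hf : Measurable f) (h1 : ∃ M, ∀ x, |f x| ≤ M)
    (h2 : ∃ R, ∀ x, R ≤ |x| → f x = 0) : PT f := by
  obtain ⟨M, hM⟩ := h1
  obtain ⟨R, hR⟩ := h2
  have hb : Integrable ((Icc (-|R|) |R|).indicator fun _ : ℝ => |M|) := by
    rw [integrable_indicator_iff measurableSet_Icc]
    exact integrableOn_const (by simp)
  unfold PT
  refine hb.mono' (hf.div (by fun_prop)).aestronglyMeasurable (Filter.Eventually.of_forall fun x => ?_)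
  rw [norm_div, Real.norm_eq_abs, Real.norm_eq_abs]
  have hx2 : 0 ≤ x ^ 2 := sq_nonneg x
  have h3 : |f x| / |1 + x ^ 2| ≤ |f x| := by
    apply div_le_self (abs_nonneg _)
    rw [abs_of_nonneg (by linarith)]
    linarith
  refine h3.trans ?_
  by_cases hx : x ∈ Icc (-|R|) |R|
  · rw [indicator_of_mem hx]
    exact (hM x).trans (le_abs_self M)
  · rw [indicator_of_notMem hx, hR x, abs_zero]
    by_contra hlt
    apply hx
    rw [mem_Icc, ← abs_le]
    exact (not_le.1 hlt).le.trans (le_abs_self R)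

lemma fin_of_nice {U : ℝ → ℝ} (hU : IsWeight U) {p : ℝ} (hp : 0 < p) {f : ℝ → ℝ}
    (h1 : ∃ M, ∀ x, |f x| ≤ M) (h2 : ∃ R, ∀ x, R ≤ |x| → f x = 0) :
    ∫⁻ x, ‖f x‖ₑ ^ p * ENNReal.ofReal (U x) < ⊤ := by
  obtain ⟨M, hM⟩ := h1
  obtain ⟨R, hR⟩ := h2
  have h3 : ∀ x, ‖f x‖ₑ ^ p * ENNReal.ofReal (U x) ≤
      (Ioo (-(|R| + 1)) (|R| + 1)).indicator
        (fun x => ENNReal.ofReal |M| ^ p * ENNReal.ofReal (U x)) x := by
    intro x
    by_cases hx : x ∈ Ioo (-(|R| + 1)) (|R| + 1)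
    · rw [indicator_of_mem hx]
      gcongr
      rw [Real.enorm_eq_ofReal_abs]
      exact ENNReal.ofReal_le_ofReal ((hM x).trans (le_abs_self M))
    · rw [indicator_of_notMem hx, hR x, enorm_zero, ENNReal.zero_rpow_of_pos hp, zero_mul]
      by_contra hlt
      apply hx
      rw [mem_Ioo, ← abs_lt]
      have := le_abs_self R
      linarith [not_le.1 hlt]
  refine (lintegral_mono h3).trans_lt ?_
  rw [lintegral_indicator measurableSet_Ioo,
    lintegral_const_mul' _ _ (ENNReal.rpow_ne_top_of_nonneg hp.le ENNReal.ofReal_ne_top), ← fm_Ioo]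
  exact ENNReal.mul_lt_top (ENNReal.rpow_lt_top_of_nonneg hp.le ENNReal.ofReal_ne_top)
    (fm_lf hU _ _).lt_top

theorem nec_core {lam p : ℝ} (hl : 0 < lam) (hp : 1 < p) {U : ℝ → ℝ} (hUm : Measurable U)
    (hU : IsWeight U) (hU0 : ¬ (fun x => ENNReal.ofReal (U x)) =ᵐ[volume] 0)
    {C : ℝ≥0∞} (hC : C ≠ ⊤)
    (H : ∀ f : ℝ → ℝ, Measurable f → (∃ M, ∀ x, |f x| ≤ M) → (∃ R, ∀ x, R ≤ |x| → f x = 0) →
      ∫⁻ x, GLs lam (GR f) x ^ (p / 2) * ENNReal.ofReal (U x) ≤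
        C * ∫⁻ x, ‖f x‖ₑ ^ p * ENNReal.ofReal (U x)) :
    CondA p U ∧ CondB (lam * p / 2) U := by
  obtain ⟨⟨A, hA⟩, K, hK, h⟩ := nec_ApB hl hp hUm.ennreal_ofReal (fun x => ENNReal.ofReal_ne_top)
    (fun a b _ => by rw [← fm_Ioo]; exact fm_lf hU a b) hU0 hC H
  exact ⟨condA_of_ApW hp hA, condB_of_cone hU (by positivity) hK h⟩

theorem nec_real {lam p : ℝ} (hl : 0 < lam) (hp : 1 < p) {U : ℝ → ℝ} (hUm : Measurable U)
    (hU : IsWeight U) (hU0 : ¬ (fun x => ENNReal.ofReal (U x)) =ᵐ[volume] 0)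
    (H : GStarIneq ℝ lam p U) : CondA p U ∧ CondB (lam * p / 2) U := by
  obtain ⟨C, hC⟩ := H
  refine nec_core hl hp hUm hU hU0 ENNReal.coe_ne_top (C := (C : ℝ≥0∞)) ?_
  intro f hf h1 h2
  have h3 := hC f hf.aestronglyMeasurable (fin_of_nice hU (by linarith) h1 h2)
  refine le_trans (le_of_eq ?_) h3
  apply lintegral_congr
  intro x
  rw [gstar_pow_eq f (GR f) (fun z y hy => gradSq_eq (pt_of_nice hf h1 h2) hy z)]

lemma poisson_ofReal (f : ℝ → ℝ) (z y : ℝ) :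
    poisson (fun x => (f x : ℂ)) z y = ((poisson f z y : ℝ) : ℂ) := by
  unfold poisson
  have e : (fun x : ℝ => (y / (x ^ 2 + y ^ 2)) • ((f (z - x) : ℝ) : ℂ)) =
      fun x : ℝ => (((y / (x ^ 2 + y ^ 2)) • f (z - x) : ℝ) : ℂ) := by
    ext x
    rw [Complex.real_smul, smul_eq_mul, Complex.ofReal_mul]
  rw [e, integral_complex_ofReal, Complex.real_smul, smul_eq_mul, Complex.ofReal_mul]

lemma gradSq_ofReal {f : ℝ → ℝ} (hf : PT f) {y : ℝ} (hy : 0 < y) (z : ℝ) :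
    gradSq (fun x => (f x : ℂ)) z y = gradSq f z y := by
  obtain ⟨h1, h2, -, -⟩ := har hf hy z
  unfold gradSq
  simp only [poisson_ofReal, poisson_eq]
  rw [h1.ofReal_comp.deriv, h2.ofReal_comp.deriv, h1.deriv, h2.deriv, Complex.norm_real,
    Complex.norm_real]

theorem nec_complex {lam p : ℝ} (hl : 0 < lam) (hp : 1 < p) {U : ℝ → ℝ} (hUm : Measurable U)
    (hU : IsWeight U) (hU0 : ¬ (fun x => ENNReal.ofReal (U x)) =ᵐ[volume] 0)
    (H : GStarIneq ℂ lam p U) : CondA p U ∧ CondB (lam * p / 2) U := by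
  obtain ⟨C, hC⟩ := H
  refine nec_core hl hp hUm hU hU0 ENNReal.coe_ne_top (C := (C : ℝ≥0∞)) ?_
  intro f hf h1 h2
  have e : ∀ x, ‖((f x : ℝ) : ℂ)‖ₑ = ‖f x‖ₑ := by
    intro x
    rw [← ofReal_norm, ← ofReal_norm, Complex.norm_real]
  have h4 := hC (fun x => (f x : ℂ)) (Complex.measurable_ofReal.comp hf).aestronglyMeasurable
  simp only [e] at h4
  have h3 := h4 (fin_of_nice hU (by linarith) h1 h2)
  refine le_trans (le_of_eq ?_) h3
  apply lintegral_congr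
  intro x
  rw [gstar_pow_eq (fun x => (f x : ℂ)) (GR f) (fun z y hy => by
    rw [gradSq_ofReal (pt_of_nice hf h1 h2) hy z, gradSq_eq (pt_of_nice hf h1 h2) hy z])]

/-! ### The theorem -/

lemma zero_case {E : Type} [NormedAddCommGroup E] [NormedSpace ℝ E] {lam p : ℝ} {U : ℝ → ℝ}
    (h : (fun x => ENNReal.ofReal (U x)) =ᵐ[volume] 0) :
    GStarIneq E lam p U := by
  refine ⟨0, fun f _ _ => ?_⟩
  have : ∫⁻ x, gstar lam f x ^ p * ENNReal.ofReal (U x) = 0 := by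
    rw [← lintegral_zero (μ := (volume : Measure ℝ))]
    apply lintegral_congr_ae
    filter_upwards [h] with x hx
    have hx' : ENNReal.ofReal (U x) = 0 := hx
    rw [hx', mul_zero]
  rw [this]
  exact bot_le

lemma zero_caseA {p : ℝ} {U : ℝ → ℝ} (h : (fun x => ENNReal.ofReal (U x)) =ᵐ[volume] 0) :
    CondA p U := by
  refine ⟨0, fun a b _ => ?_⟩
  have : ∫⁻ x in Ioo a b, ENNReal.ofReal (U x) = 0 := by
    rw [← lintegral_zero (μ := (volume : Measure ℝ).restrict (Ioo a b))]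
    apply lintegral_congr_ae
    filter_upwards [ae_restrict_of_ae h] with x hx
    exact hx
  rw [this, ENNReal.zero_div, zero_mul]
  exact bot_le

lemma zero_caseB {r : ℝ} {U : ℝ → ℝ} (hU : IsWeight U)
    (h : (fun x => ENNReal.ofReal (U x)) =ᵐ[volume] 0) :
    CondB r U := by
  refine ⟨0, fun c L hL => ?_⟩
  have : ∫⁻ x, ENNReal.ofReal (L ^ (r - 1) * U x / (L ^ r + |x - c| ^ r)) = 0 := by
    rw [← lintegral_zero (μ := (volume : Measure ℝ))]
    apply lintegral_congr_ae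
    filter_upwards [h] with x hx
    have hx' : ENNReal.ofReal (U x) = 0 := hx
    rw [ENNReal.ofReal_eq_zero] at hx'
    have hx2 : U x = 0 := le_antisymm hx' (hU.1 x)
    rw [hx2, mul_zero, zero_div, ENNReal.ofReal_zero]
  rw [this]
  exact bot_le

theorem main {lam p : ℝ} (h1 : 1 < lam) (h2 : lam ≤ 2) (h3 : 2 / lam < p) (h4 : p < 2) {U : ℝ → ℝ}
    (hU : IsWeight U) :
    (GStarIneq ℝ lam p U ↔ CondA p U ∧ CondB (lam * p / 2) U) ∧
    (GStarIneq ℂ lam p U ↔ CondA p U ∧ CondB (lam * p / 2) U) := by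
  have hl : 0 < lam := by linarith
  have hp1 : 1 < p := by
    have : 1 ≤ 2 / lam := by rw [le_div_iff₀ hl]; linarith
    linarith
  have hr : 1 < lam * p / 2 := by
    rw [div_lt_iff₀ hl] at h3
    linarith
  -- a Borel measurable version of the weight
  set V₀ := hU.2.aestronglyMeasurable.mk U with hV₀
  have hV₀m : Measurable V₀ := hU.2.aestronglyMeasurable.stronglyMeasurable_mk.measurable
  have hUV₀ : U =ᵐ[volume] V₀ := hU.2.aestronglyMeasurable.ae_eq_mk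
  set V : ℝ → ℝ := fun x => max (V₀ x) 0 with hV
  have hVm : Measurable V := hV₀m.max measurable_const
  have hUV : U =ᵐ[volume] V := by
    filter_upwards [hUV₀] with x hx
    simp only [hV]
    rw [← hx, max_eq_left (hU.1 x)]
  have hVW : IsWeight V := ⟨fun x => le_max_right _ _, hU.2.congr hUV⟩
  have key : (GStarIneq ℝ lam p V ↔ CondA p V ∧ CondB (lam * p / 2) V) ∧
      (GStarIneq ℂ lam p V ↔ CondA p V ∧ CondB (lam * p / 2) V) := by
    by_cases h0 : (fun x => ENNReal.ofReal (V x)) =ᵐ[volume] 0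
    · exact ⟨⟨fun _ => ⟨zero_caseA h0, zero_caseB hVW h0⟩, fun _ => zero_case h0⟩,
        ⟨fun _ => ⟨zero_caseA h0, zero_caseB hVW h0⟩, fun _ => zero_case h0⟩⟩
    · refine ⟨⟨nec_real hl hp1 hVm hVW h0, ?_⟩, ⟨nec_complex hl hp1 hVm hVW h0, ?_⟩⟩
      · rintro ⟨ha, hb⟩
        obtain ⟨A, hA⟩ := ApW_of_condA hp1 hVm h0 ha
        exact suff_real hl hp1 h4 hVm hVW hr hA hb
      · rintro ⟨ha, hb⟩
        obtain ⟨A, hA⟩ := ApW_of_condA hp1 hVm h0 ha
        exact suff_complex hl hp1 h4 hVm hVW hr hA hb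
  refine ⟨⟨fun H => ?_, fun H => ?_⟩, ⟨fun H => ?_, fun H => ?_⟩⟩
  · obtain ⟨ha, hb⟩ := key.1.1 (ineq_congr hUV H)
    exact ⟨condA_congr hUV.symm ha, condB_congr hUV.symm hb⟩
  · exact ineq_congr hUV.symm (key.1.2 ⟨condA_congr hUV H.1, condB_congr hUV H.2⟩)
  · obtain ⟨ha, hb⟩ := key.2.1 (ineq_congr hUV H)
    exact ⟨condA_congr hUV.symm ha, condB_congr hUV.symm hb⟩
  · exact ineq_congr hUV.symm (key.2.2 ⟨condA_congr hUV H.1, condB_congr hUV H.2⟩)

end Pool.Agent.TH407.GS
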