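import Pool.Agent.TH407.GS.Defs

set_option autoImplicit false
open MeasureTheory Set Filter Topology
open scoped ENNReal NNReal
open Pool.Agent.TH280.MZ

namespace Pool.Agent.TH407.GS

/-- Muckenhoupt's theorem on the line, with a constant that depends only on `p` and the `A_p`
constant (the proof is the one of `Pool.Agent.TH280.MZ.muckenhoupt`). -/
theorem muck_unif {p : ℝ} (hp : 1 < p) (A : ℝ≥0∞) (hA : A ≠ ⊤) : ∃ C : ℝ≥0∞, C ≠ ⊤ ∧
    ∀ w : ℝ → ℝ≥0∞, ApW p w A → ∀ F : ℝ → ℝ≥0∞, Measurable F →
      ∫⁻ x, MX volume F x ^ p * w x ≤ C * ∫⁻ x, F x ^ p * w x := by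
  have hp0 : 0 < p := by linarith
  have hp1 : 0 < p - 1 := by linarith
  set q : ℝ := p / (p - 1) with hq
  have hq1 : 1 < q := by rw [hq, lt_div_iff₀ hp1]; linarith
  have hq0 : 0 < q := by linarith
  obtain ⟨C1, hC1, h1⟩ := strong_MX hq1
  obtain ⟨C2, hC2, h2⟩ := strong_MX hp
  refine ⟨A ^ q * C1 * C2, ENNReal.mul_ne_top (ENNReal.mul_ne_top
    (ENNReal.rpow_ne_top_of_nonneg hq0.le hA) hC1) hC2, ?_⟩
  intro w h
  set σ := sg p w with hσ
  have hσm : Measurable σ := sg_meas h.meas
  set μ : Measure ℝ := volume.withDensity w with hμ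
  set ν : Measure ℝ := volume.withDensity σ with hν
  have hμI : ∀ a b : ℝ, μ (Ioo a b) = ∫⁻ x in Ioo a b, w x := fun a b =>
    withDensity_apply _ measurableSet_Ioo
  have hνI : ∀ a b : ℝ, ν (Ioo a b) = ∫⁻ x in Ioo a b, σ x := fun a b =>
    withDensity_apply _ measurableSet_Ioo
  have hμ0 : ∀ a b : ℝ, a < b → μ (Ioo a b) ≠ 0 := fun a b hab => by
    rw [hμI]; exact int_w_ne_zero hp h hab
  have hμt : ∀ a b : ℝ, a < b → μ (Ioo a b) ≠ ⊤ := fun a b hab => by
    rw [hμI]; exact int_w_ne_top hp h hab
  have hν0 : ∀ a b : ℝ, a < b → ν (Ioo a b) ≠ 0 := fun a b hab => by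
    rw [hνI]; exact int_sg_ne_zero hp h hab
  have hνt : ∀ a b : ℝ, a < b → ν (Ioo a b) ≠ ⊤ := fun a b hab => by
    rw [hνI]; exact int_sg_ne_top hp h hab
  have : SigmaFinite μ := by
    refine SigmaFinite.withDensity_of_ne_top ?_
    exact Filter.Eventually.of_forall h.fin
  have hσfin : ∀ᵐ x, σ x ≠ ⊤ := by
    filter_upwards [ae_ne_zero hp h] with x hx
    rw [hσ]
    unfold sg
    exact ENNReal.rpow_ne_top_of_ne_zero hx (h.fin x)
  have : SigmaFinite ν := SigmaFinite.withDensity_of_ne_top hσfin
  intro F hF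
  set f : ℝ → ℝ≥0∞ := fun x => F x / σ x with hf
  have hfm : Measurable f := hF.div hσm
  set G : ℝ → ℝ≥0∞ := fun x => MX ν f x ^ (p - 1) * (w x)⁻¹ with hG
  have hGm : Measurable G := ((measurable_MX ν f).pow_const _).mul h.meas.inv
  -- pointwise inequality
  have key : ∀ x, MX volume F x ^ (p - 1) ≤ A * MX μ G x := by
    intro x
    have hkey : ∀ a b : ℝ, a < x → x < b →
        ((∫⁻ y in Ioo a b, F y) / volume (Ioo a b)) ^ (p - 1) ≤ A * MX μ G x := by
      intro a b ha hb
      have hab : a < b := ha.trans hb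
      set L : ℝ≥0∞ := volume (Ioo a b) with hL
      have hL0 : L ≠ 0 := by
        rw [hL, Real.volume_Ioo]; simp only [ne_eq, ENNReal.ofReal_eq_zero, not_le]; linarith
      have hLt : L ≠ ⊤ := by rw [hL, Real.volume_Ioo]; exact ENNReal.ofReal_ne_top
      set W := ∫⁻ x in Ioo a b, w x with hW
      set S := ∫⁻ x in Ioo a b, σ x with hS
      have hW0 : W ≠ 0 := int_w_ne_zero hp h hab
      have hWt : W ≠ ⊤ := int_w_ne_top hp h hab
      have hS0 : S ≠ 0 := int_sg_ne_zero hp h hab
      have hSt : S ≠ ⊤ := int_sg_ne_top hp h hab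
      have hA : W * S ^ (p - 1) ≤ A * L ^ p := by
        rw [hL, Real.volume_Ioo]; exact h.bd a b hab
      -- ∫ F = ∫ f dν
      have e1 : ∫⁻ y in Ioo a b, F y = ∫⁻ y in Ioo a b, f y ∂ν := by
        rw [hν, setLIntegral_withDensity_eq_setLIntegral_mul _ hσm hfm measurableSet_Ioo]
        apply lintegral_congr_ae
        filter_upwards [ae_restrict_of_ae hσfin] with y hy
        have hy0 : σ y ≠ 0 := sg_ne_zero hp (h.fin y)
        simp only [Pi.mul_apply, hf]
        rw [ENNReal.mul_div_cancel hy0 hy]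
      set R : ℝ≥0∞ := (∫⁻ y in Ioo a b, F y) / S with hR
      have hRle : ∀ y ∈ Ioo a b, R ≤ MX ν f y := by
        intro y hy
        have := le_MX ν f hy.1 hy.2
        rw [hνI, ← e1] at this
        exact this
      have e2 : (∫⁻ y in Ioo a b, F y) / L = (S / L) * R := by
        rw [hR, ENNReal.div_eq_inv_mul, ENNReal.div_eq_inv_mul, ENNReal.div_eq_inv_mul]
        rw [mul_assoc, ← mul_assoc S, ENNReal.mul_inv_cancel hS0 hSt, one_mul]
      have e3 : W * (R ^ (p - 1) * (L / W)) ≤ ∫⁻ y in Ioo a b, G y ∂μ := by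
        rw [hμ, setLIntegral_withDensity_eq_setLIntegral_mul _ h.meas hGm measurableSet_Ioo]
        have e4 : W * (R ^ (p - 1) * (L / W)) = ∫⁻ _ in Ioo a b, R ^ (p - 1) := by
          rw [lintegral_const, Measure.restrict_apply_univ, ← hL]
          calc W * (R ^ (p - 1) * (L / W)) = R ^ (p - 1) * (W * (L / W)) := by ring
            _ = R ^ (p - 1) * L := by rw [ENNReal.mul_div_cancel hW0 hWt]
        rw [e4]
        apply lintegral_mono_ae
        filter_upwards [ae_restrict_of_ae (ae_ne_zero hp h), ae_restrict_mem measurableSet_Ioo]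
          with y hy hyI
        simp only [Pi.mul_apply, hG]
        rw [mul_comm (w y), mul_assoc, ENNReal.inv_mul_cancel hy (h.fin y), mul_one]
        exact ENNReal.rpow_le_rpow (hRle y hyI) hp1.le
      have e5 : R ^ (p - 1) * (L / W) ≤ MX μ G x := by
        refine le_trans ?_ (le_MX μ G ha hb)
        rw [hμI, ← hW, ENNReal.le_div_iff_mul_le (Or.inl hW0) (Or.inl hWt), mul_comm]
        exact e3
      calc ((∫⁻ y in Ioo a b, F y) / L) ^ (p - 1) = (S / L) ^ (p - 1) * R ^ (p - 1) := by
            rw [e2, ENNReal.mul_rpow_of_nonneg _ _ hp1.le]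
        _ = ((S / L) ^ (p - 1) * (W / L)) * (R ^ (p - 1) * (L / W)) := by
            have : (W / L) * (L / W) = 1 := by
              rw [ENNReal.div_eq_inv_mul, ENNReal.div_eq_inv_mul]
              calc L⁻¹ * W * (W⁻¹ * L) = (L⁻¹ * L) * (W * W⁻¹) := by ring
                _ = 1 := by rw [ENNReal.inv_mul_cancel hL0 hLt, ENNReal.mul_inv_cancel hW0 hWt,
                  one_mul]
            calc (S / L) ^ (p - 1) * R ^ (p - 1)
                = (S / L) ^ (p - 1) * R ^ (p - 1) * ((W / L) * (L / W)) := by rw [this, mul_one]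
              _ = _ := by ring
        _ ≤ A * MX μ G x := by
            refine mul_le_mul' ?_ e5
            rw [ENNReal.div_rpow_of_nonneg _ _ hp1.le]
            have e6 : S ^ (p - 1) / L ^ (p - 1) * (W / L) = (W * S ^ (p - 1)) / L ^ p := by
              have : L ^ p = L ^ (p - 1) * L := by
                have := ENNReal.rpow_add (p - 1) 1 hL0 hLt
                rw [ENNReal.rpow_one, sub_add_cancel] at this
                exact this
              rw [this, ENNReal.div_eq_inv_mul, ENNReal.div_eq_inv_mul, ENNReal.div_eq_inv_mul,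
                ENNReal.mul_inv (Or.inr hLt) (Or.inr hL0)]
              ring
            rw [e6]
            apply ENNReal.div_le_of_le_mul
            exact hA
    by_cases hM : A * MX μ G x = ⊤
    · rw [hM]; exact le_top
    have h3 : MX volume F x ≤ (A * MX μ G x) ^ (1 / (p - 1)) := by
      unfold MX
      refine iSup_le fun a => iSup_le fun b => iSup_le fun hab => ?_
      have h4 := hkey a b hab.1 hab.2
      calc (∫⁻ y in Ioo a b, F y) / volume (Ioo a b)
          = (((∫⁻ y in Ioo a b, F y) / volume (Ioo a b)) ^ (p - 1)) ^ (1 / (p - 1)) := by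
            rw [← ENNReal.rpow_mul, mul_one_div_cancel hp1.ne', ENNReal.rpow_one]
        _ ≤ _ := ENNReal.rpow_le_rpow h4 (by positivity)
    calc MX volume F x ^ (p - 1) ≤ ((A * MX μ G x) ^ (1 / (p - 1))) ^ (p - 1) :=
          ENNReal.rpow_le_rpow h3 hp1.le
      _ = A * MX μ G x := by
          rw [← ENNReal.rpow_mul, one_div_mul_cancel hp1.ne', ENNReal.rpow_one]
  -- integrate
  calc ∫⁻ x, MX volume F x ^ p * w x
      ≤ ∫⁻ x, (A ^ q * MX μ G x ^ q) * w x := by
        apply lintegral_mono
        intro x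
        simp only
        gcongr
        calc MX volume F x ^ p = (MX volume F x ^ (p - 1)) ^ q := by
              rw [← ENNReal.rpow_mul, hq]
              congr 1
              field_simp
          _ ≤ (A * MX μ G x) ^ q := ENNReal.rpow_le_rpow (key x) hq0.le
          _ = _ := ENNReal.mul_rpow_of_nonneg _ _ hq0.le
    _ = A ^ q * ∫⁻ x, MX μ G x ^ q ∂μ := by
        rw [hμ, lintegral_withDensity_eq_lintegral_mul _ h.meas ((measurable_MX _ _).pow_const _),
          ← lintegral_const_mul _ (h.meas.mul ((measurable_MX _ _).pow_const _))]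
        apply lintegral_congr
        intro x
        simp only [Pi.mul_apply]
        ring
    _ ≤ A ^ q * (C1 * ∫⁻ x, G x ^ q ∂μ) := by
        gcongr
        exact h1 μ hμ0 hμt G hGm
    _ = A ^ q * (C1 * ∫⁻ x, MX ν f x ^ p ∂ν) := by
        congr 2
        rw [hμ, hν, lintegral_withDensity_eq_lintegral_mul _ h.meas (hGm.pow_const _),
          lintegral_withDensity_eq_lintegral_mul _ hσm ((measurable_MX _ _).pow_const _)]
        apply lintegral_congr_ae
        filter_upwards [ae_ne_zero hp h] with x hx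
        simp only [Pi.mul_apply, hG]
        rw [ENNReal.mul_rpow_of_nonneg _ _ hq0.le, ← ENNReal.rpow_mul]
        have e7 : (p - 1) * q = p := by rw [hq]; field_simp
        rw [e7]
        have e8 : w x * (w x)⁻¹ ^ q = σ x := by
          rw [hσ]
          unfold sg
          rw [ENNReal.inv_rpow, ← ENNReal.rpow_neg]
          have := ENNReal.rpow_add 1 (-q) hx (h.fin x)
          rw [ENNReal.rpow_one] at this
          rw [← this]
          congr 1
          rw [hq]; field_simp; ring
        rw [← hν, ← e8]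
        ring
    _ ≤ A ^ q * (C1 * (C2 * ∫⁻ x, f x ^ p ∂ν)) := by
        gcongr
        exact h2 ν hν0 hνt f hfm
    _ = A ^ q * C1 * C2 * ∫⁻ x, F x ^ p * w x := by
        have e9 : ∫⁻ x, f x ^ p ∂ν = ∫⁻ x, F x ^ p * w x := by
          rw [hν, lintegral_withDensity_eq_lintegral_mul _ hσm (hfm.pow_const _)]
          apply lintegral_congr_ae
          filter_upwards [ae_ne_zero hp h, hσfin] with x hx hx2
          have hx0 : σ x ≠ 0 := sg_ne_zero hp (h.fin x)
          simp only [Pi.mul_apply, hf]
          rw [ENNReal.div_rpow_of_nonneg _ _ hp0.le]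
          have e10 : w x = σ x / σ x ^ p := by
            have : σ x / σ x ^ p = σ x ^ (1 - p) := by
              rw [ENNReal.rpow_sub _ _ hx0 hx2, ENNReal.rpow_one]
            rw [this, hσ]
            unfold sg
            rw [← ENNReal.rpow_mul]
            have : -(1 / (p - 1)) * (1 - p) = 1 := by field_simp; ring
            rw [this, ENNReal.rpow_one]
          rw [e10, ENNReal.div_eq_inv_mul, ENNReal.div_eq_inv_mul]
          ring
        rw [e9]
        ring

end Pool.Agent.TH407.GS
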