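import Pool.Agent.TH407.GS.Defs

/-!
Lower bound for `g_λ^*` of a nonnegative bump (helper209, job GS-NEC1).
-/

set_option autoImplicit false
open MeasureTheory Set Filter Topology
open scoped ENNReal NNReal
open Pool.Agent.TH280.MZ

namespace Pool.Agent.TH407.GS

lemma nl_bdd {y : ℝ} (hy : 0 < y) (s : ℝ) : |pky s y| ≤ 1 / (Real.pi * y ^ 2) := by
  have hpi := Real.pi_pos
  have h0 : 0 < s ^ 2 + y ^ 2 := by positivity
  have h1 : |s ^ 2 - y ^ 2| ≤ s ^ 2 + y ^ 2 := by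
    rw [abs_le]
    constructor <;> nlinarith [sq_nonneg s, sq_nonneg y]
  have h2 : |(s ^ 2 - y ^ 2) / (s ^ 2 + y ^ 2) ^ 2| ≤ 1 / y ^ 2 := by
    rw [abs_div, abs_of_pos (by positivity : (0 : ℝ) < (s ^ 2 + y ^ 2) ^ 2),
      div_le_div_iff₀ (by positivity) (by positivity)]
    have h3 : y ^ 2 ≤ s ^ 2 + y ^ 2 := by nlinarith [sq_nonneg s]
    calc |s ^ 2 - y ^ 2| * y ^ 2 ≤ (s ^ 2 + y ^ 2) * (s ^ 2 + y ^ 2) :=
          mul_le_mul h1 h3 (by positivity) h0.le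
      _ = 1 * (s ^ 2 + y ^ 2) ^ 2 := by ring
  unfold pky
  rw [abs_mul, abs_of_pos (by positivity : (0 : ℝ) < 1 / Real.pi)]
  calc 1 / Real.pi * |(s ^ 2 - y ^ 2) / (s ^ 2 + y ^ 2) ^ 2| ≤ 1 / Real.pi * (1 / y ^ 2) :=
        mul_le_mul_of_nonneg_left h2 (by positivity)
    _ = 1 / (Real.pi * y ^ 2) := by field_simp

lemma nl_meas (y z : ℝ) : Measurable (fun t => pky (t - z) y) := by
  unfold pky
  fun_prop

lemma nl_ker {y s L : ℝ} (hL : 0 < L) (hy : 8 * L < y) (hy' : y < 16 * L) (hs : |s| ≤ 2 * L) :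
    pky s y ≤ -(1 / (1024 * L ^ 2)) := by
  have hpi := Real.pi_pos
  have hpi2 := Real.pi_lt_d2
  have hy0 : 0 < y := by linarith
  have h1 : s ^ 2 ≤ y ^ 2 / 16 := by
    have h2 : s ^ 2 ≤ (2 * L) ^ 2 := by
      rw [← sq_abs]
      exact pow_le_pow_left₀ (abs_nonneg _) hs 2
    nlinarith
  have h0 : 0 < s ^ 2 + y ^ 2 := by positivity
  have h3 : (1 : ℝ) / (1024 * L ^ 2) ≤ 1 / (4 * y ^ 2) * 1 := by
    rw [mul_one, div_le_div_iff₀ (by positivity) (by positivity)]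
    nlinarith
  have h4 : 1 / (4 * y ^ 2) ≤ (1 / Real.pi) * ((y ^ 2 - s ^ 2) / (s ^ 2 + y ^ 2) ^ 2) := by
    rw [div_mul_div_comm, div_le_div_iff₀ (by positivity) (by positivity), one_mul, one_mul]
    have h5 : Real.pi * (s ^ 2 + y ^ 2) ^ 2 ≤ 3.15 * ((17 / 16) * y ^ 2) ^ 2 := by
      refine mul_le_mul hpi2.le ?_ (by positivity) (by norm_num)
      refine pow_le_pow_left₀ h0.le ?_ 2
      linarith
    have h6 : (15 / 16) * y ^ 2 * (4 * y ^ 2) ≤ (y ^ 2 - s ^ 2) * (4 * y ^ 2) := by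
      refine mul_le_mul_of_nonneg_right ?_ (by positivity)
      linarith
    have h7 : 0 < y ^ 2 * y ^ 2 := by positivity
    nlinarith
  unfold pky
  have h8 : (1 / Real.pi) * ((s ^ 2 - y ^ 2) / (s ^ 2 + y ^ 2) ^ 2) =
      -((1 / Real.pi) * ((y ^ 2 - s ^ 2) / (s ^ 2 + y ^ 2) ^ 2)) := by
    ring
  rw [h8]
  linarith

/-- lower bound for the gradient -/
lemma nl_grad {c L : ℝ} (hL : 0 < L) {f : ℝ → ℝ} (hf0 : ∀ x, 0 ≤ f x) (hfi : Integrable f)
    (hs : ∀ x, x ∉ Ioo (c - L) (c + L) → f x = 0) {z y : ℝ} (hz : z ∈ Ioo (c - L) (c + L))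
    (hy : y ∈ Ioo (8 * L) (16 * L)) :
    ENNReal.ofReal (((∫ t, f t) / (1024 * L ^ 2)) ^ 2) ≤ GR f z y := by
  have hy0 : 0 < y := by linarith [hy.1]
  have h1 : PIy f z y ≤ -((∫ t, f t) / (1024 * L ^ 2)) := by
    have h2 : PIy f z y ≤ ∫ t, (-(1 / (1024 * L ^ 2))) * f t := by
      unfold PIy
      refine integral_mono ?_ (hfi.const_mul _) fun t => ?_
      · exact hfi.bdd_mul (c := 1 / (Real.pi * y ^ 2)) (nl_meas y z).aestronglyMeasurable
          (Eventually.of_forall fun t => by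
            rw [Real.norm_eq_abs]
            exact nl_bdd hy0 _)
      · show pky (t - z) y * f t ≤ (-(1 / (1024 * L ^ 2))) * f t
        by_cases ht : t ∈ Ioo (c - L) (c + L)
        · refine mul_le_mul_of_nonneg_right ?_ (hf0 t)
          refine nl_ker hL hy.1 hy.2 ?_
          rw [abs_le]
          constructor <;> linarith [ht.1, ht.2, hz.1, hz.2]
        · rw [hs t ht, mul_zero, mul_zero]
    refine h2.trans (le_of_eq ?_)
    rw [integral_const_mul]
    ring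
  have h3 : 0 ≤ (∫ t, f t) / (1024 * L ^ 2) := by
    have : 0 ≤ ∫ t, f t := integral_nonneg hf0
    positivity
  unfold GR
  refine ENNReal.ofReal_le_ofReal ?_
  have h4 : ((∫ t, f t) / (1024 * L ^ 2)) ^ 2 ≤ (PIy f z y) ^ 2 := by
    rw [← neg_sq (PIy f z y)]
    exact pow_le_pow_left₀ h3 (by linarith) 2
  nlinarith [sq_nonneg (PIz f z y)]

/-- lower bound for the weight -/
lemma nl_wt {lam : ℝ} (hl : 0 < lam) {c L x z y : ℝ} (hL : 0 < L)
    (hz : z ∈ Ioo (c - L) (c + L)) (hy : y ∈ Ioo (8 * L) (16 * L)) :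
    (8 / 17 * (L / (L + |x - c|))) ^ lam ≤ (y / (|x - z| + y)) ^ lam := by
  have hy0 : 0 < y := by linarith [hy.1]
  have ha : 0 ≤ |x - c| := abs_nonneg _
  have hb : 0 ≤ |x - z| := abs_nonneg _
  refine Real.rpow_le_rpow (by positivity) ?_ hl.le
  have h1 : |x - z| ≤ |x - c| + L := by
    have h2 : |x - z| ≤ |x - c| + |c - z| := by
      have := abs_add_le (x - c) (c - z)
      rwa [sub_add_sub_cancel] at this
    have h3 : |c - z| ≤ L := by
      rw [abs_le]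
      constructor <;> linarith [hz.1, hz.2]
    linarith
  rw [div_mul_div_comm, div_le_div_iff₀ (by positivity) (by positivity)]
  have h4 := hy.1
  have h5 := hy.2
  nlinarith [mul_nonneg hL.le ha, mul_nonneg hL.le hb, mul_nonneg hy0.le ha,
    mul_le_mul_of_nonneg_left h1 hL.le, mul_le_mul_of_nonneg_right h4.le ha,
    mul_le_mul_of_nonneg_right h4.le hL.le]

theorem nec_low {lam : ℝ} (hl : 0 < lam) : ∃ κ : ℝ, 0 < κ ∧ ∀ c L : ℝ, 0 < L → ∀ f : ℝ → ℝ,
    Measurable f → (∀ x, 0 ≤ f x) → Integrable f → (∀ x, x ∉ Ioo (c - L) (c + L) → f x = 0) →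
    ∀ x, ENNReal.ofReal (κ * ((∫ t, f t) / L) ^ 2 * (L / (L + |x - c|)) ^ lam) ≤
      GLs lam (GR f) x := by
  refine ⟨16 * (8 / 17) ^ lam / 1024 ^ 2, by positivity, fun c L hL f _ hf0 hfi hs x => ?_⟩
  have ha : 0 ≤ |x - c| := abs_nonneg _
  have hI : 0 ≤ ∫ t, f t := integral_nonneg hf0
  set K0 : ℝ := (8 / 17 * (L / (L + |x - c|))) ^ lam * ((∫ t, f t) / (1024 * L ^ 2)) ^ 2 with hK0
  have hK : 0 ≤ K0 := by positivity
  have hpt : ∀ z ∈ Ioo (c - L) (c + L), ∀ y ∈ Ioo (8 * L) (16 * L),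
      ENNReal.ofReal K0 ≤ ENNReal.ofReal ((y / (|x - z| + y)) ^ lam) * GR f z y := by
    intro z hz y hy
    rw [hK0, ENNReal.ofReal_mul (by positivity)]
    exact mul_le_mul' (ENNReal.ofReal_le_ofReal (nl_wt hl hL hz hy))
      (nl_grad hL hf0 hfi hs hz hy)
  have hin : ∀ z ∈ Ioo (c - L) (c + L), ENNReal.ofReal (K0 * (8 * L)) ≤
      ∫⁻ y in Ioi (0 : ℝ), ENNReal.ofReal ((y / (|x - z| + y)) ^ lam) * GR f z y := by
    intro z hz
    have hsub : Ioo (8 * L) (16 * L) ⊆ Ioi (0 : ℝ) := fun y hy => by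
      have := hy.1
      show 0 < y
      linarith
    refine le_trans ?_ (lintegral_mono_set hsub)
    calc ENNReal.ofReal (K0 * (8 * L)) = ∫⁻ _ in Ioo (8 * L) (16 * L), ENNReal.ofReal K0 := by
          rw [setLIntegral_const, Real.volume_Ioo, ← ENNReal.ofReal_mul hK]
          congr 2
          ring
      _ ≤ _ := setLIntegral_mono' measurableSet_Ioo (hpt z hz)
  calc ENNReal.ofReal (16 * (8 / 17) ^ lam / 1024 ^ 2 * ((∫ t, f t) / L) ^ 2 *
        (L / (L + |x - c|)) ^ lam) = ENNReal.ofReal (K0 * (8 * L) * (2 * L)) := by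
        congr 1
        rw [hK0, Real.mul_rpow (by norm_num) (by positivity)]
        field_simp
        ring
    _ = ∫⁻ _ in Ioo (c - L) (c + L), ENNReal.ofReal (K0 * (8 * L)) := by
        rw [setLIntegral_const, Real.volume_Ioo, ← ENNReal.ofReal_mul (by positivity)]
        congr 2
        ring
    _ ≤ ∫⁻ z in Ioo (c - L) (c + L), ∫⁻ y in Ioi (0 : ℝ),
          ENNReal.ofReal ((y / (|x - z| + y)) ^ lam) * GR f z y :=
        setLIntegral_mono' measurableSet_Ioo hin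
    _ ≤ GLs lam (GR f) x := setLIntegral_le_lintegral _ _

end Pool.Agent.TH407.GS
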